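import Pool.Agent.Lib.MP_81632f_ag.Mk.Fiv3

/-! # Dimension five: the theorem -/

namespace Pool.Agent.Lib.MP81632f.Mk

open NumberField IsDedekindDomain
open scoped Classical

variable {L : Type} [Field L] [NumberField L] [IsGalois ℚ L]
variable {p e r : ℕ} {v : HeightOneSpectrum (𝓞 L)} {m s : Multiset L} {w : L}

/-- the complementary pair is Galois stable -/
theorem W_stable (h : Ctx p e r v m) (hm : m = s + bars r s + {w, (r : L) ^ 2 / w})
    (hg : ∀ g : L ≃ₐ[ℚ] L, s.map g = s ∨ s.map g = bars r s) (g : L ≃ₐ[ℚ] L) :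
    g w = w ∨ g w = (r : L) ^ 2 / w := by
  have hst : (s + bars r s).map g = s + bars r s := by
    rw [Multiset.map_add, map_bars]
    rcases hg g with h1 | h1
    · rw [h1]
    · rw [h1, bars_bars h.r_pos]
      exact add_comm _ _
  have h1 := h.hA.galois g
  rw [hm, Multiset.map_add, hst] at h1
  have h2 := add_left_cancel h1
  have h3 : g w ∈ ({w, (r : L) ^ 2 / w} : Multiset L) := by
    rw [← h2]
    exact Multiset.mem_map_of_mem _ (by simp)
  rw [Multiset.insert_eq_cons, Multiset.mem_cons, Multiset.mem_singleton] at h3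
  exact h3

theorem W_orb (h : Ctx p e r v m) (hm : m = s + bars r s + {w, (r : L) ^ 2 / w})
    (hg : ∀ g : L ≃ₐ[ℚ] L, s.map g = s ∨ s.map g = bars r s) : orb v w = {w} := by
  have mw : w ∈ m := by
    rw [hm]
    exact Multiset.mem_add.2 (Or.inr (by simp))
  apply two_orb h mw
  have hsub : conjs w ⊆ ({w, (r : L) ^ 2 / w} : Finset L) := by
    intro x hx
    obtain ⟨g, rfl⟩ := Ctx.mem_conjs.1 hx
    rw [Finset.mem_insert, Finset.mem_singleton]
    exact W_stable h hm hg g
  have h3 := Finset.card_le_card hsub
  rw [Finset.card_pair (Ne.symm (h.bar_ne mw))] at h3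
  have h4 := two_le_conjs h mw
  omega

/-- integrality at `w` -/
theorem W_int (h : Ctx p e r v m) (hR : Red r s) (hb : Bal r s) (hc : s.card = 4)
    (hm : m = s + bars r s + {w, (r : L) ^ 2 / w})
    (hg : ∀ g : L ≃ₐ[ℚ] L, s.map g = s ∨ s.map g = bars r s) (hw : w ∈ s) :
    ord v ((r : L) ^ 2) ∣ (s.count w : ℤ) * ord v w := by
  have horb := W_orb h hm hg
  have hsm : ∀ x ∈ s, x ∈ m := by
    intro x hx
    rw [hm]
    exact Multiset.mem_add.2 (Or.inl (Multiset.mem_add.2 (Or.inl hx)))
  have hDw : ∀ d ∈ decomp v, d w = w := by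
    intro d hd
    have h1 : d w ∈ orb v w := (mem_orb v).2 ⟨d, hd, rfl⟩
    rwa [horb, Finset.mem_singleton] at h1
  have hD : ∀ d ∈ decomp v, s.map d = s := by
    intro d hd
    rcases hg d with h1 | h1
    · exact h1
    · exfalso
      have h2 : d w ∈ s.map d := Multiset.mem_map_of_mem _ hw
      rw [h1, hDw d hd] at h2
      exact hR.notMem_bars h.r_pos hw h2
  have hdvd := sum_dvd v (ord v ((r : L) ^ 2)) (fun a => s.count a) (s.toFinset.erase w).card
    (s.toFinset.erase w) rfl ?_ ?_ ?_
  · have h1 := (bal_iff h.hr h.hp h.hv (fun x hx => h.weil (hsm x hx))).1 hb 1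
    unfold XS at h1
    rw [Finset.sum_multiset_map_count] at h1
    have h2 : ∑ a ∈ s.toFinset, (s.count a : ℤ) * ord v a = 2 * ord v ((r : L) ^ 2) := by
      have h3 : ∑ a ∈ s.toFinset, s.count a • X r v a 1 =
          2 * ∑ a ∈ s.toFinset, (s.count a : ℤ) * ord v a -
          (∑ a ∈ s.toFinset, (s.count a : ℤ)) * ord v ((r : L) ^ 2) := by
        rw [Finset.mul_sum, Finset.sum_mul, ← Finset.sum_sub_distrib]
        apply Finset.sum_congr rfl
        intro a _
        have hX : X r v a 1 = 2 * ord v a - ord v ((r : L) ^ 2) := rfl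
        rw [hX, nsmul_eq_mul]
        ring
      have h4 : ∑ a ∈ s.toFinset, (s.count a : ℤ) = 4 := by
        have := Multiset.toFinset_sum_count_eq s
        rw [hc] at this
        exact_mod_cast this
      rw [h3, h4] at h1
      omega
    rw [← Finset.add_sum_erase _ _ (Multiset.mem_toFinset.2 hw)] at h2
    have h5 : (s.count w : ℤ) * ord v w = 2 * ord v ((r : L) ^ 2) -
        ∑ a ∈ s.toFinset.erase w, (s.count a : ℤ) * ord v a := by omega
    rw [h5]
    exact dvd_sub (Dvd.intro_left 2 rfl) hdvd
  · intro a ha b hb'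
    rw [Finset.mem_erase, Multiset.mem_toFinset] at ha ⊢
    obtain ⟨d, hd, rfl⟩ := (mem_orb v).1 hb'
    refine ⟨fun h' => ha.1 ?_, fix_mem (hD d hd) ha.2⟩
    apply d.injective
    rw [h', hDw d hd]
  · intro a _ b hb'
    obtain ⟨d, hd, rfl⟩ := (mem_orb v).1 hb'
    show s.count (d a) = s.count a
    conv_lhs => rw [← hD d hd]
    exact Multiset.count_map_eq_count' d s d.injective a
  · intro a ha
    rw [Finset.mem_erase, Multiset.mem_toFinset] at ha
    have h1 := h.hA.integral a (hsm a ha.2)
    have h2 : m.count a = s.count a := by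
      rw [hm, Multiset.count_add, Multiset.count_add, count_bars h.r_pos,
        Multiset.count_eq_zero_of_notMem (hR.bar_notMem h.r_pos ha.2)]
      have h3 : ({w, (r : L) ^ 2 / w} : Multiset L).count a = 0 := by
        rw [Multiset.count_eq_zero, Multiset.insert_eq_cons, Multiset.mem_cons,
          Multiset.mem_singleton, not_or]
        exact ⟨ha.1, fun h' => hR.bar_notMem h.r_pos hw (h' ▸ ha.2)⟩
      rw [h3, add_zero, add_zero]
    rw [h2] at h1
    exact h1

/-- **the class comes from a fourfold** -/
theorem av_of (h : Ctx p e r v m) (hR : Red r s) (hb : Bal r s) (hc : s.card = 4)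
    (hm : m = s + bars r s + {w, (r : L) ^ 2 / w})
    (hg : ∀ g : L ≃ₐ[ℚ] L, s.map g = s ∨ s.map g = bars r s) : IsAV r v (s + bars r s) := by
  have hr := h.r_pos
  have hsub : ∀ x ∈ s + bars r s, x ∈ m := by
    intro x hx
    rw [hm]
    exact Multiset.mem_add.2 (Or.inl hx)
  have mw : w ∈ m := by
    rw [hm]
    exact Multiset.mem_add.2 (Or.inr (by simp))
  refine ⟨fun a ha => h.weil (hsub a ha), fun g => ?_, ?_⟩
  · rw [Multiset.map_add, map_bars]
    rcases hg g with h1 | h1
    · rw [h1]
    · rw [h1, bars_bars hr]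
      exact add_comm _ _
  · -- integrality at an element of the pair
    have key : ∀ w', (r : L) ^ 2 / w' ≠ w' → m = s + bars r s + {w', (r : L) ^ 2 / w'} → w' ∈ s →
        w' ∈ m →
        (ord v ((r : L) ^ 2) ∣ (((s + bars r s).count w' * (orb v w').card : ℕ) : ℤ) * ord v w') ∧
        (ord v ((r : L) ^ 2) ∣ (((s + bars r s).count ((r : L) ^ 2 / w') *
          (orb v ((r : L) ^ 2 / w')).card : ℕ) : ℤ) * ord v ((r : L) ^ 2 / w')) := by
      intro w' _ hm' hw' mw'
      have h1 := W_int h hR hb hc hm' hg hw'
      have h2 := W_orb h hm' hg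
      have h0 := h.ne_zero mw'
      have c1 : (s + bars r s).count w' = s.count w' := by
        rw [Multiset.count_add, count_bars hr, Multiset.count_eq_zero_of_notMem (hR.bar_notMem hr hw'),
          add_zero]
      have c2 : (s + bars r s).count ((r : L) ^ 2 / w') = s.count w' := by
        rw [Multiset.count_add, count_bars hr, bb hr,
          Multiset.count_eq_zero_of_notMem (hR.bar_notMem hr hw'), zero_add]
      rw [c1, c2, orb_bar_card v hr h0, h2, Finset.card_singleton, mul_one, ord_bar hr h0, mul_sub]
      exact ⟨h1, dvd_sub (Dvd.intro_left _ rfl) h1⟩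
    intro a ha
    by_cases hw : w ∈ s
    · obtain ⟨k1, k2⟩ := key w (h.bar_ne mw) hm hw mw
      by_cases h1 : a = w
      · rw [h1]; exact k1
      · by_cases h2 : a = (r : L) ^ 2 / w
        · rw [h2]; exact k2
        · have h3 := h.hA.integral a (hsub a ha)
          rw [hm, Multiset.count_add, Multiset.insert_eq_cons, Multiset.count_cons_of_ne h1,
            Multiset.count_singleton, if_neg h2, add_zero] at h3
          exact h3
    · by_cases hw' : (r : L) ^ 2 / w ∈ s
      · have hm' : m = s + bars r s + {(r : L) ^ 2 / w, (r : L) ^ 2 / ((r : L) ^ 2 / w)} := by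
          rw [bb hr, Multiset.pair_comm]
          exact hm
        obtain ⟨k1, k2⟩ := key _ (by rw [bb hr]; exact Ne.symm (h.bar_ne mw)) hm' hw' (h.bar_mem mw)
        rw [bb hr] at k2
        by_cases h1 : a = w
        · rw [h1]; exact k2
        · by_cases h2 : a = (r : L) ^ 2 / w
          · rw [h2]; exact k1
          · have h3 := h.hA.integral a (hsub a ha)
            rw [hm, Multiset.count_add, Multiset.insert_eq_cons, Multiset.count_cons_of_ne h1,
              Multiset.count_singleton, if_neg h2, add_zero] at h3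
            exact h3
      · have h1 : a ≠ w := by
          rintro rfl
          rcases Multiset.mem_add.1 ha with ha | ha
          · exact hw ha
          · exact hw' ((mem_bars hr).1 ha)
        have h2 : a ≠ (r : L) ^ 2 / w := by
          rintro rfl
          rcases Multiset.mem_add.1 ha with ha | ha
          · exact hw' ha
          · rw [mem_bars hr, bb hr] at ha
            exact hw ha
        have h3 := h.hA.integral a (hsub a ha)
        rw [hm, Multiset.count_add, Multiset.insert_eq_cons, Multiset.count_cons_of_ne h1,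
          Multiset.count_singleton, if_neg h2, add_zero] at h3
        exact h3

/-- the number of eigenvalues is even -/
theorem Ctx.card_even (h : Ctx p e r v m) : Even m.card := by
  have h1 := Ctx.card_count (u := m) (m := m) (fun a ha => ha)
  rw [Ctx.sum_hs h] at h1
  have h2 : ∀ a ∈ hs r m, m.count a + m.count ((r : L) ^ 2 / a) = m.count a + m.count a := by
    intro a ha
    rw [h.hA.count_bar h.r_pos (h.weil (Ctx.hs_mem a ha))]
  rw [Finset.sum_congr rfl h2, Finset.sum_add_distrib] at h1
  exact ⟨_, h1⟩

/-- four-element classes in dimension five -/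
theorem four_mem {C : Set (Multiset L)} (h : Ctx p e r v m) (hC : CycleFamily r v C)
    (hc : m.card ≤ 10) (hs : s ≤ m) (hR : Red r s) (hb : Bal r s) (h4 : s.card = 4) : s ∈ C := by
  have hr := h.r_pos
  have hv := h.rho_pos
  obtain ⟨W, hW⟩ := Multiset.le_iff_exists_add.1 (add_bars_le hr hv h.hA hs hR.pair)
  have hcard := congrArg Multiset.card hW
  rw [Multiset.card_add, Multiset.card_add, card_bars, h4] at hcard
  have hev := h.card_even
  have hk := fun (hA : IsAV r v (s + bars r s)) =>
    (ktype_mem hr hv hC hR hb hA (by omega) (by omega)).1 h4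
  have hcase : W.card = 0 ∨ W.card = 2 := by
    rcases hev with ⟨j, hj⟩
    omega
  rcases hcase with h0 | h2
  · apply hk
    rw [Multiset.card_eq_zero.1 h0, add_zero] at hW
    rw [← hW]
    exact h.hA
  · obtain ⟨w, w', rfl⟩ := Multiset.card_eq_two.1 h2
    have mw : w ∈ m := by
      rw [hW]
      exact Multiset.mem_add.2 (Or.inr (by simp))
    -- w' is the conjugate of w
    have hbar : bars r m = m := by
      ext x
      rw [count_bars hr]
      by_cases hx : x ∈ m
      · exact h.hA.count_bar hr (h.weil hx)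
      · rw [Multiset.count_eq_zero_of_notMem hx, Multiset.count_eq_zero]
        intro h'
        apply hx
        have := h.bar_mem h'
        rwa [bb hr] at this
    have h3 : bars r ({w, w'} : Multiset L) = {w, w'} := by
      rw [hW, bars_add, bars_add, bars_bars hr, add_comm (bars r s) s] at hbar
      exact add_left_cancel hbar
    have h5 : (r : L) ^ 2 / w ∈ ({w, w'} : Multiset L) := by
      rw [← h3, mem_bars hr, bb hr]
      simp
    rw [Multiset.insert_eq_cons, Multiset.mem_cons, Multiset.mem_singleton] at h5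
    have h6 := h5.resolve_left (h.bar_ne mw)
    rw [← h6] at hW
    exact hk (av_of h hR hb h4 hW (map_cases h hR hb h4 hW))

/-- the case without supersingular elements -/
theorem five_aux {C : Set (Multiset L)} (h : Ctx p e r v m) (hC : CycleFamily r v C)
    (hc : m.card ≤ 10) (n : ℕ) : ∀ s : Multiset L, s.card = n → s ≤ m → IsTate r s → s ∈ C := by
  have hr := h.r_pos
  have hv := h.rho_pos
  induction n using Nat.strong_induction_on with
  | _ n ih =>
    intro s hn hs hT
    by_cases hp : ∃ a b : L, {a, b} ≤ s ∧ Bal r {a, b}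
    · obtain ⟨a, b, hab, hb⟩ := hp
      obtain ⟨u, rfl⟩ := Multiset.le_iff_exists_add.1 hab
      have ha' : a ∈ m := Multiset.mem_of_le (hab.trans hs) (by simp)
      have hb' : b ∈ m := Multiset.mem_of_le (hab.trans hs) (by simp)
      have hcard : (({a, b} : Multiset L) + u).card = u.card + 2 := by
        rw [Multiset.card_add, Multiset.insert_eq_cons, Multiset.card_cons, Multiset.card_singleton]
        ring
      have hu : u ∈ C := by
        apply ih u.card (by omega) u rfl ((Multiset.le_add_left u {a, b}).trans hs)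
        refine ⟨?_, ?_⟩
        · have h1 := hT.1
          rw [hcard] at h1
          rcases h1 with ⟨j, hj⟩
          exact ⟨j - 1, by omega⟩
        · apply Bal.of_add hr _ hb
          rw [add_comm]
          exact hT.2
      exact hC.add _ _ (hC.pair a b (h.weil ha') (h.weil hb') hb) hu
    · have hR : Red r s := ⟨fun a ha => h.weil (Multiset.mem_of_le hs ha),
        fun a ha => h.hss a (Multiset.mem_of_le hs ha), fun a b hab hb => hp ⟨a, b, hab, hb⟩⟩
      have h1 := Multiset.card_le_card (add_bars_le hr hv h.hA hs hR.pair)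
      rw [Multiset.card_add, card_bars] at h1
      rcases hT.1 with ⟨j, hj⟩
      have hcase : s.card = 0 ∨ s.card = 2 ∨ s.card = 4 := by omega
      rcases hcase with h2 | h2 | h2
      · rw [Multiset.card_eq_zero.1 h2]
        exact hC.zero
      · rw [hR.small hT.2 (by omega)]
        exact hC.zero
      · exact four_mem h hC hc hs hR hT.2 h2

/-- **Theorem X**: Tate classes on abelian varieties of dimension at most five -/
theorem tate_five {C : Set (Multiset L)} (hr : r = p ^ e) (he : 0 < e) (hp : p.Prime)
    (hv : (p : 𝓞 L) ∈ v.asIdeal) (hC : CycleFamily r v C) (hA : IsAV r v m) (hc : m.card ≤ 10)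
    (hsep : ∀ a ∈ m, ∀ b ∈ m, (∃ N : ℕ, 0 < N ∧ a ^ N = b ^ N) → a = b)
    (hex : (∃ z ∈ m, IsSS r z) → ¬ Exc r m) (hs : s ≤ m) (hT : IsTate r s) : s ∈ C := by
  have hr0 : 0 < r := by rw [hr]; exact pow_pos hp.pos e
  have hv0 : 0 < ord v (r : L) := by
    rw [hr]
    exact ord_r_pos v hp he hv
  by_cases hss : ∃ z ∈ m, IsSS r z
  · have hA' : IsAV r v (m.filter (fun a => NSS r a)) := hA.filter _ (fun g a => by
      unfold NSS
      rw [isSS_map_iff])
    obtain ⟨z, hz, hzs⟩ := hss
    have h2 : 2 ≤ (m.filter (fun a => ¬ NSS r a)).card := by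
      have hzf : z ∈ m.filter (fun a => ¬ NSS r a) := Multiset.mem_filter.2 ⟨hz, fun h' => h' hzs⟩
      by_cases hzz : (r : L) ^ 2 / z = z
      · have h3 := real_even hr0 hv0 hA hz hzz
        have h4 : (m.filter (fun a => ¬ NSS r a)).count z = m.count z :=
          Multiset.count_filter_of_pos (fun h' => h' hzs)
        have h5 := Multiset.count_le_card z (m.filter (fun a => ¬ NSS r a))
        omega
      · have hzb : (r : L) ^ 2 / z ∈ m.filter (fun a => ¬ NSS r a) :=
          Multiset.mem_filter.2 ⟨hA.mem_bar hr0 hz, fun h' => h' (isSS_bar hr0 hzs)⟩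
        have h3 : ({z, (r : L) ^ 2 / z} : Multiset L) ≤ m.filter (fun a => ¬ NSS r a) := by
          rw [Multiset.insert_eq_cons, Multiset.cons_le_of_notMem]
          · exact ⟨hzf, Multiset.singleton_le.2 hzb⟩
          · rw [Multiset.mem_singleton]
            exact fun h' => hzz h'.symm
        have h4 := Multiset.card_le_card h3
        rw [Multiset.insert_eq_cons, Multiset.card_cons, Multiset.card_singleton] at h4
        exact h4
    have h3 : (m.filter (fun a => NSS r a)).card + (m.filter (fun a => ¬ NSS r a)).card = m.card := by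
      rw [← Multiset.card_add, Multiset.filter_add_not]
    apply tate_powers hr he hp hv hC hA' (by omega) _ _ s _ hT
    · intro a ha b hb
      exact hsep a (Multiset.mem_filter.1 ha).1 b (Multiset.mem_filter.1 hb).1
    · rintro ⟨y, hy, b, hb, g, h1⟩
      exact hex ⟨z, hz, hzs⟩ ⟨y, (Multiset.mem_filter.1 hy).1, b, (Multiset.mem_filter.1 hb).1, g, h1⟩
    · intro a ha
      have ham := Multiset.mem_of_le hs ha
      by_cases h4 : IsSS r a
      · exact Or.inr ⟨hA.weil a ham, h4⟩
      · exact Or.inl (Multiset.mem_filter.2 ⟨ham, h4⟩)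
  · have h : Ctx p e r v m := ⟨hr, he, hp, hv, hA, fun a ha h' => hss ⟨a, ha, h'⟩, hsep⟩
    exact five_aux h hC hc s.card s rfl hs hT

end Pool.Agent.Lib.MP81632f.Mk
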