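import Pool.Agent.Lib.MP_81632f_ag.Mk.Gen
import Pool.Agent.Lib.MP_81632f_ag.Mk.Fiv4

/-! # Base change -/

namespace Pool.Agent.Lib.MP81632f.Mk

open NumberField IsDedekindDomain
open scoped Classical

variable {L : Type} [Field L] [NumberField L]
variable {p e r : ℕ} {v : HeightOneSpectrum (𝓞 L)} {m s : Multiset L}

theorem Gen.family (v : HeightOneSpectrum (𝓞 L)) (r : ℕ) : CycleFamily r v {s | Gen v r s} where
  zero := Gen.zero r
  pair a b ha hb h := Gen.pair r a b ha hb h
  add s t hs ht := Gen.add r s t hs ht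
  remove s a b ha hb h hs := Gen.remove r s a b ha hb h hs
  weil m χ κ φ k j h1 h2 h3 h4 h5 h6 := Gen.weil r m χ κ φ k j h1 h2 h3 h4 h5 h6

/-- powers -/
noncomputable def pw (N : ℕ) (m : Multiset L) : Multiset L := m.map (fun a => a ^ N)

omit [NumberField L] in
theorem mem_pw {N : ℕ} {b : L} : b ∈ pw N m ↔ ∃ a ∈ m, a ^ N = b := by
  unfold pw
  exact Multiset.mem_map

omit [NumberField L] in
theorem card_pw (N : ℕ) : (pw N m).card = m.card := Multiset.card_map _ _

theorem IsWeil.pw {a : L} (h : IsWeil r a) (N : ℕ) : IsWeil (r ^ N) (a ^ N) := by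
  refine ⟨h.1.pow N, fun f => ?_⟩
  rw [map_pow, norm_pow, h.2 f]
  push_cast
  rfl

omit [NumberField L] in
theorem count_pw (N : ℕ) (b : L) :
    (pw N m).count b = ∑ a ∈ m.toFinset.filter (fun a => a ^ N = b), m.count a := by
  unfold pw
  rw [Multiset.count_map, ← Multiset.toFinset_sum_count_eq]
  have e1 : (m.filter (fun a => b = a ^ N)).toFinset = m.toFinset.filter (fun a => a ^ N = b) := by
    ext x
    rw [Multiset.mem_toFinset, Multiset.mem_filter, Finset.mem_filter, Multiset.mem_toFinset]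
    constructor
    · rintro ⟨h1, h2⟩
      exact ⟨h1, h2.symm⟩
    · rintro ⟨h1, h2⟩
      exact ⟨h1, h2.symm⟩
  rw [e1]
  apply Finset.sum_congr rfl
  intro x hx
  rw [Finset.mem_filter] at hx
  exact Multiset.count_filter_of_pos hx.2.symm

theorem pw_map (N : ℕ) (g : L ≃ₐ[ℚ] L) : (pw N m).map g = pw N (m.map g) := by
  unfold pw
  rw [Multiset.map_map, Multiset.map_map]
  apply Multiset.map_congr rfl
  intro a _
  exact map_pow g a N

theorem IsAV.pw (hr : 0 < r) (h : IsAV r v m) {N : ℕ} (hN : 0 < N) : IsAV (r ^ N) v (pw N m) where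
  weil b hb := by
    obtain ⟨a, ha, rfl⟩ := mem_pw.1 hb
    exact (h.weil a ha).pw N
  galois g := by rw [pw_map, h.galois g]
  integral b hb := by
    obtain ⟨a₀, ha₀, rfl⟩ := mem_pw.1 hb
    have h0 := (h.weil a₀ ha₀).ne_zero hr
    have hgal : ∀ g : L ≃ₐ[ℚ] L, (Mk.pw N m).count (g (a₀ ^ N)) = (Mk.pw N m).count (a₀ ^ N) := by
      intro g
      apply count_map_of
      intro k
      rw [pw_map, h.galois k]
    -- the sum over all roots
    set P := m.toFinset.filter (fun a => a ^ N ∈ orb v (a₀ ^ N)) with hP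
    have hord : ∀ a ∈ P, ord v a = ord v a₀ := by
      intro a ha
      rw [hP, Finset.mem_filter, Multiset.mem_toFinset] at ha
      have h1 := ord_of_mem v ha.2
      rw [ord_pow v ((h.weil a ha.1).ne_zero hr), ord_pow v h0] at h1
      have hN' : (N : ℤ) ≠ 0 := by exact_mod_cast hN.ne'
      exact mul_left_cancel₀ hN' h1
    have hdvd := sum_dvd v (ord v ((r : L) ^ 2)) (fun a => m.count a) P.card P rfl
      (by
        intro a ha b hb'
        rw [hP, Finset.mem_filter, Multiset.mem_toFinset] at ha ⊢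
        obtain ⟨d, hd, rfl⟩ := (mem_orb v).1 hb'
        refine ⟨h.mem_map d ha.1, ?_⟩
        obtain ⟨k, hk, hka⟩ := (mem_orb v).1 ha.2
        rw [← map_pow, ← hka]
        exact (mem_orb v).2 ⟨d * k, mul_mem hd hk, rfl⟩)
      (by
        intro a _ b hb'
        obtain ⟨d, hd, rfl⟩ := (mem_orb v).1 hb'
        exact h.count_map d a)
      (by
        intro a ha
        rw [hP, Finset.mem_filter, Multiset.mem_toFinset] at ha
        exact h.integral a ha.1)
    have hsum : ∑ a ∈ P, (m.count a : ℤ) * ord v a =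
        (((Mk.pw N m).count (a₀ ^ N) * (orb v (a₀ ^ N)).card : ℕ) : ℤ) * ord v a₀ := by
      rw [Finset.sum_congr rfl (fun a ha => by rw [hord a ha]), ← Finset.sum_mul]
      congr 1
      have h1 : ∑ a ∈ P, m.count a = ∑ b ∈ orb v (a₀ ^ N), (Mk.pw N m).count b := by
        have h2 : ∀ b ∈ orb v (a₀ ^ N), (Mk.pw N m).count b =
            ∑ a ∈ P.filter (fun a => a ^ N = b), m.count a := by
          intro b hb'
          rw [count_pw]
          apply Finset.sum_congr _ (fun _ _ => rfl)
          ext x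
          rw [Finset.mem_filter, Finset.mem_filter, hP, Finset.mem_filter]
          constructor
          · rintro ⟨h3, h4⟩
            exact ⟨⟨h3, h4 ▸ hb'⟩, h4⟩
          · rintro ⟨⟨h3, _⟩, h4⟩
            exact ⟨h3, h4⟩
        rw [Finset.sum_congr rfl h2]
        symm
        apply Finset.sum_fiberwise_of_maps_to
        intro a ha
        rw [hP, Finset.mem_filter] at ha
        exact ha.2
      have h3 : ∑ b ∈ orb v (a₀ ^ N), (Mk.pw N m).count b =
          (Mk.pw N m).count (a₀ ^ N) * (orb v (a₀ ^ N)).card := by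
        have h4 : ∀ b ∈ orb v (a₀ ^ N), (Mk.pw N m).count b = (Mk.pw N m).count (a₀ ^ N) := by
          intro b hb'
          obtain ⟨d, _, rfl⟩ := (mem_orb v).1 hb'
          exact hgal d
        rw [Finset.sum_congr rfl h4, Finset.sum_const, smul_eq_mul, mul_comm]
      rw [← h3, ← h1]
      push_cast
      rfl
    rw [hsum] at hdvd
    have e1 : ord v (((r ^ N : ℕ) : L) ^ 2) = N * ord v ((r : L) ^ 2) := by
      have hr0 : (r : L) ≠ 0 := by exact_mod_cast hr.ne'
      rw [← ord_pow v (pow_ne_zero 2 hr0)]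
      congr 1
      push_cast
      ring
    rw [e1, ord_pow v h0]
    have e2 : (((Mk.pw N m).count (a₀ ^ N) * (orb v (a₀ ^ N)).card : ℕ) : ℤ) * (N * ord v a₀) =
        N * ((((Mk.pw N m).count (a₀ ^ N) * (orb v (a₀ ^ N)).card : ℕ) : ℤ) * ord v a₀) := by ring
    rw [e2]
    exact mul_dvd_mul_left _ hdvd

end Pool.Agent.Lib.MP81632f.Mk
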