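import Pool.Agent.Lib.MP_81632f_ag.Mk.Defs

namespace Pool.Agent.Lib.MP81632f.Mk

open NumberField IsDedekindDomain
open scoped Classical

variable {L : Type} [Field L] [NumberField L]

section weil

variable {r : ℕ} {a b : L}

theorem exists_emb : Nonempty (L →+* ℂ) := inferInstance

theorem IsWeil.ne_zero (hr : 0 < r) (h : IsWeil r a) : a ≠ 0 := by
  rintro rfl
  obtain ⟨f⟩ := exists_emb (L := L)
  have := h.2 f
  rw [map_zero, norm_zero] at this
  have h2 : (r : ℝ) ≠ 0 := by positivity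
  exact h2 this.symm

theorem IsWeil.map (h : IsWeil r a) (g : L ≃ₐ[ℚ] L) : IsWeil r (g a) := by
  refine ⟨?_, fun f => ?_⟩
  · exact h.1.map ((g.toAlgHom).restrictScalars ℤ)
  · exact h.2 (f.comp (g : L →+* L))

variable [IsGalois ℚ L]

/-- complex conjugation -/
theorem exists_conj (hr : 0 < r) : ∃ c : L ≃ₐ[ℚ] L, ∀ a : L, IsWeil r a → c a = (r : L) ^ 2 / a := by
  obtain ⟨f⟩ := exists_emb (L := L)
  obtain ⟨c, hc⟩ := NumberField.ComplexEmbedding.exists_comp_symm_eq_of_comp_eq (k := ℚ) f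
    (NumberField.ComplexEmbedding.conjugate f) (by ext x; simp)
  refine ⟨c.symm, fun a ha => ?_⟩
  have h1 : f (c.symm a) = star (f a) := RingHom.congr_fun hc a
  have ha0 := ha.ne_zero hr
  rw [eq_div_iff ha0]
  apply f.injective
  rw [map_mul, h1, map_pow, map_natCast]
  have h2 := ha.2 f
  have h3 : star (f a) * f a = ((‖f a‖ ^ 2 : ℝ) : ℂ) := by
    rw [mul_comm]
    have := Complex.mul_conj (f a)
    rw [Complex.normSq_eq_norm_sq] at this
    exact_mod_cast this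
  rw [h3, h2]
  push_cast
  rfl

theorem IsWeil.conj (hr : 0 < r) (h : IsWeil r a) : IsWeil r ((r : L) ^ 2 / a) := by
  obtain ⟨c, hc⟩ := exists_conj (L := L) hr
  rw [← hc a h]
  exact h.map c

omit [IsGalois ℚ L] in
theorem bar_bar (hr : 0 < r) (ha : a ≠ 0) : (r : L) ^ 2 / ((r : L) ^ 2 / a) = a := by
  have h : (r : L) ≠ 0 := by exact_mod_cast hr.ne'
  field_simp

omit [IsGalois ℚ L] in
theorem map_bar (g : L ≃ₐ[ℚ] L) (a : L) : g ((r : L) ^ 2 / a) = (r : L) ^ 2 / g a := by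
  rw [map_div₀, map_pow, map_natCast]

end weil

section ord

variable (v : HeightOneSpectrum (𝓞 L))

theorem ord_mul {a b : L} (ha : a ≠ 0) (hb : b ≠ 0) : ord v (a * b) = ord v a + ord v b := by
  unfold ord
  rw [map_mul, WithZero.log_mul ((Valuation.ne_zero_iff _).2 ha) ((Valuation.ne_zero_iff _).2 hb)]
  ring

theorem ord_one : ord v (1 : L) = 0 := by
  unfold ord
  simp

theorem ord_pow {a : L} (ha : a ≠ 0) (n : ℕ) : ord v (a ^ n) = n * ord v a := by
  induction n with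
  | zero => simp [ord_one]
  | succ n ih => rw [pow_succ, ord_mul v (pow_ne_zero n ha) ha, ih]; push_cast; ring

theorem ord_div {a b : L} (ha : a ≠ 0) (hb : b ≠ 0) : ord v (a / b) = ord v a - ord v b := by
  have h := ord_mul v (div_ne_zero ha hb) hb
  rw [div_mul_cancel₀ a hb] at h
  omega

theorem ord_nonneg {a : L} (ha : IsIntegral ℤ a) : 0 ≤ ord v a := by
  unfold ord
  by_cases h0 : a = 0
  · simp [h0]
  · have h1 : v.valuation L a ≤ 1 := by
      have := v.valuation_le_one (K := L) (⟨a, ha⟩ : 𝓞 L)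
      exact this
    have h2 : WithZero.log (v.valuation L a) ≤ WithZero.log (1 : WithZero (Multiplicative ℤ)) :=
      (WithZero.log_le_log ((Valuation.ne_zero_iff _).2 h0) one_ne_zero).2 h1
    rw [WithZero.log_one] at h2
    omega

theorem ord_pos {a : L} (ha : IsIntegral ℤ a) (h0 : a ≠ 0) (hv : (⟨a, ha⟩ : 𝓞 L) ∈ v.asIdeal) :
    0 < ord v a := by
  unfold ord
  have h1 : v.valuation L a < 1 := by
    have := (v.valuation_lt_one_iff_mem (K := L) (⟨a, ha⟩ : 𝓞 L)).2 hv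
    exact this
  have h2 : WithZero.log (v.valuation L a) < WithZero.log (1 : WithZero (Multiplicative ℤ)) :=
    (WithZero.log_lt_log ((Valuation.ne_zero_iff _).2 h0) one_ne_zero).2 h1
  rw [WithZero.log_one] at h2
  omega

theorem ord_r_pos {p e : ℕ} (hp : p.Prime) (he : 0 < e) (hv : (p : 𝓞 L) ∈ v.asIdeal) :
    0 < ord v ((p ^ e : ℕ) : L) := by
  have h0 : ((p : ℕ) : L) ≠ 0 := by exact_mod_cast hp.ne_zero
  have h1 : 0 < ord v ((p : ℕ) : L) := by
    have hint : IsIntegral ℤ ((p : ℕ) : L) := by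
      have := isIntegral_algebraMap (R := ℤ) (A := L) (x := (p : ℤ))
      simpa using this
    have e : (⟨((p : ℕ) : L), hint⟩ : 𝓞 L) = ((p : ℕ) : 𝓞 L) := by
      apply RingOfIntegers.ext
      simp
    exact ord_pos v hint h0 (e ▸ hv)
  push_cast
  rw [ord_pow v h0]
  positivity

end ord

section orb

variable (v : HeightOneSpectrum (𝓞 L))

theorem mem_orb {a b : L} : b ∈ orb v a ↔ ∃ g ∈ decomp v, g a = b := by
  unfold orb
  simp

theorem self_mem_orb (a : L) : a ∈ orb v a := (mem_orb v).2 ⟨1, one_mem _, rfl⟩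

theorem orb_card_pos (a : L) : 0 < (orb v a).card := Finset.card_pos.2 ⟨a, self_mem_orb v a⟩

theorem ord_of_mem {a b : L} (h : b ∈ orb v a) : ord v b = ord v a := by
  obtain ⟨g, hg, rfl⟩ := (mem_orb v).1 h
  exact hg a

theorem orb_eq {a b : L} (h : b ∈ orb v a) : orb v b = orb v a := by
  obtain ⟨g, hg, rfl⟩ := (mem_orb v).1 h
  ext x
  rw [mem_orb, mem_orb]
  constructor
  · rintro ⟨k, hk, rfl⟩
    exact ⟨k * g, mul_mem hk hg, rfl⟩
  · rintro ⟨k, hk, rfl⟩
    refine ⟨k * g⁻¹, mul_mem hk (inv_mem hg), ?_⟩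
    show k (g⁻¹ (g a)) = k a
    congr 1
    exact AlgEquiv.symm_apply_apply g a

theorem orb_apply {g : L ≃ₐ[ℚ] L} (hg : g ∈ decomp v) (a : L) : orb v (g a) = orb v a :=
  orb_eq v ((mem_orb v).2 ⟨g, hg, rfl⟩)

theorem orb_bar (r : ℕ) (a : L) : orb v ((r : L) ^ 2 / a) = (orb v a).image (fun x => (r : L) ^ 2 / x) := by
  ext x
  rw [mem_orb, Finset.mem_image]
  constructor
  · rintro ⟨g, hg, rfl⟩
    exact ⟨g a, (mem_orb v).2 ⟨g, hg, rfl⟩, (map_bar g a).symm⟩
  · rintro ⟨y, hy, rfl⟩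
    obtain ⟨g, hg, rfl⟩ := (mem_orb v).1 hy
    exact ⟨g, hg, map_bar g a⟩

theorem orb_bar_card {r : ℕ} (hr : 0 < r) {a : L} (ha : a ≠ 0) :
    (orb v ((r : L) ^ 2 / a)).card = (orb v a).card := by
  rw [orb_bar]
  apply Finset.card_image_of_injOn
  intro x hx y hy hxy
  have hx0 : x ≠ 0 := by
    obtain ⟨g, _, rfl⟩ := (mem_orb v).1 (Finset.mem_coe.1 hx)
    exact (map_ne_zero g).2 ha
  have hy0 : y ≠ 0 := by
    obtain ⟨g, _, rfl⟩ := (mem_orb v).1 (Finset.mem_coe.1 hy)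
    exact (map_ne_zero g).2 ha
  have h := congrArg (fun z => (r : L) ^ 2 / z) hxy
  simpa [bar_bar hr hx0, bar_bar hr hy0] using h

end orb

end Pool.Agent.Lib.MP81632f.Mk
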