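import Mathlib

/-!
# Tate classes on abelian varieties over finite fields and Weil classes: definitions

`q = r ^ 2`, `r` a power of the prime `p`; `L` is a number field, Galois over `ℚ`, and `v` is a prime of
`L` over `p`.  An abelian variety `A` over `F_q` whose Frobenius eigenvalues lie in `L` is represented by
the multiset `m` of the `2 dim A` eigenvalues (`IsAV`, by Honda and Tate these are exactly the multisets
which occur), and the Tate classes on `A` (over finite extensions of `F_q`) by the `s ≤ m` with
`IsTate r s`.
-/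

namespace Pool.Agent.Lib.MP81632f.Mk

open NumberField IsDedekindDomain
open scoped Classical

variable {L : Type} [Field L] [NumberField L]

/-- Weil `r ^ 2`-numbers: algebraic integers all of whose conjugates have absolute value `r`. -/
def IsWeil (r : ℕ) (a : L) : Prop :=
  IsIntegral ℤ a ∧ ∀ f : L →+* ℂ, ‖f a‖ = r

/-- The product of `s` is `r ^ |s|` up to a root of unity. -/
def Bal (r : ℕ) (s : Multiset L) : Prop :=
  ∃ N : ℕ, 0 < N ∧ s.prod ^ N = (r : L) ^ (s.card * N)

/-- Tate multisets: `|s| = 2 i` and the product is `q ^ i = r ^ (2 i)` up to a root of unity. -/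
def IsTate (r : ℕ) (s : Multiset L) : Prop :=
  Even s.card ∧ Bal r s

/-- The (additive) valuation of `a` at the prime `v`. -/
noncomputable def ord (v : HeightOneSpectrum (𝓞 L)) (a : L) : ℤ :=
  -WithZero.log (v.valuation L a)

/-- The decomposition group of `v`. -/
def decomp (v : HeightOneSpectrum (𝓞 L)) : Subgroup (L ≃ₐ[ℚ] L) where
  carrier := {g | ∀ a, ord v (g a) = ord v a}
  mul_mem' := by
    intro g h hg hh a
    simpa using (hg (h a)).trans (hh a)
  one_mem' := by intro a; rfl
  inv_mem' := by
    intro g hg a
    have h := hg (g⁻¹ a)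
    have e : g (g⁻¹ a) = a := AlgEquiv.apply_symm_apply g a
    rw [e] at h
    exact h.symm

/-- The orbit of `a` under the decomposition group of `v`; its size is the degree over `ℚ_p` of the
completion of `ℚ(a)` at the place below `v`. -/
noncomputable def orb (v : HeightOneSpectrum (𝓞 L)) (a : L) : Finset L :=
  (Finset.univ.filter (fun g : L ≃ₐ[ℚ] L => g ∈ decomp v)).image (fun g => g a)

/-- `m` is the multiset of Frobenius eigenvalues of an abelian variety over the field with `r ^ 2`
elements (Honda, Tate): Weil numbers, stable under the Galois group, and the order of the local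
invariant at the place of `ℚ(a)` below `v` divides the multiplicity of `a`. -/
structure IsAV (r : ℕ) (v : HeightOneSpectrum (𝓞 L)) (m : Multiset L) : Prop where
  weil : ∀ a ∈ m, IsWeil r a
  galois : ∀ g : L ≃ₐ[ℚ] L, m.map g = m
  integral : ∀ a ∈ m, ord v ((r : L) ^ 2) ∣ ((m.count a * (orb v a).card : ℕ) : ℤ) * ord v a

/-- `φ` is a CM type (up to isogeny over finite fields) of a lift to characteristic `0` of the abelian
variety given by `m`: `φ a` of the `m.count a` embeddings over `a` are in the CM type; the last condition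
is the formula of Shimura and Taniyama. -/
structure IsLift (r : ℕ) (v : HeightOneSpectrum (𝓞 L)) (m : Multiset L) (φ : L → ℕ) : Prop where
  conj : ∀ a ∈ m, φ a + φ ((r : L) ^ 2 / a) = m.count a
  slope : ∀ a ∈ m, ((∑ b ∈ orb v a, φ b : ℕ) : ℤ) * ord v ((r : L) ^ 2) =
    ((m.count a * (orb v a).card : ℕ) : ℤ) * ord v a

/-- A structure of vector space over an imaginary quadratic field `K` on `m`: `χ` is the character of
`K`, and `κ a` says over which embedding of `K` the eigenvalue `a` lies. -/
structure IsKType (r : ℕ) (m : Multiset L) (χ : (L ≃ₐ[ℚ] L) →* ℤˣ) (κ : L → ℤˣ) : Prop where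
  equivariant : ∀ g : L ≃ₐ[ℚ] L, ∀ a ∈ m, κ (g a) = χ g * κ a
  conj : ∀ a ∈ m, κ ((r : L) ^ 2 / a) = -κ a

/-- The eigenvalues over the first embedding of `K`. -/
noncomputable def half (m : Multiset L) (κ : L → ℤˣ) : Multiset L := m.filter (fun a => κ a = 1)

/-- The multiplicity of the first embedding of `K` in the CM type. -/
noncomputable def sig (m : Multiset L) (κ : L → ℤˣ) (φ : L → ℕ) : ℕ :=
  ∑ a ∈ m.toFinset.filter (fun a => κ a = 1), φ a

/-- Families of multisets of Weil numbers with the closure properties of the algebraic classes: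
`0`; divisor classes (Tate); products; removing a divisor class; and the Weil classes on
`B × E₁ × .. × E_k`, `B` with CM type `φ`, `j` of the `k` elliptic curves `E_i` with CM by `K` of the first
type and the others of the second type, `p` not split in `K` if `k > 0` (so that the `E_i` have
supersingular reduction, with eigenvalues `r, r` over `F_q`), of total dimension `4` and signature
`(2, 2)`, or of dimension `6`, signature `(3, 3)` with `k > 0` (Markman). -/
structure CycleFamily (r : ℕ) (v : HeightOneSpectrum (𝓞 L)) (C : Set (Multiset L)) : Prop where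
  zero : 0 ∈ C
  pair : ∀ a b : L, IsWeil r a → IsWeil r b → Bal r {a, b} → {a, b} ∈ C
  add : ∀ s t : Multiset L, s ∈ C → t ∈ C → s + t ∈ C
  remove : ∀ (s : Multiset L) (a b : L), IsWeil r a → IsWeil r b → Bal r {a, b} →
    s + {a, b} ∈ C → s ∈ C
  weil : ∀ (m : Multiset L) (χ : (L ≃ₐ[ℚ] L) →* ℤˣ) (κ : L → ℤˣ) (φ : L → ℕ) (k j : ℕ),
    IsAV r v m → IsKType r m χ κ → IsLift r v m φ → j ≤ k →
    (0 < k → ∃ d ∈ decomp v, χ d ≠ 1) →
    (m.card + 2 * k = 8 ∧ sig m κ φ + j = 2 ∨ m.card + 2 * k = 12 ∧ 0 < k ∧ sig m κ φ + j = 3) →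
    half m κ + Multiset.replicate k (r : L) ∈ C

end Pool.Agent.Lib.MP81632f.Mk
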