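import Pool.Agent.Lib.MP_81632f_ag.Mk.Base

/-! # The theorems with generated classes -/

namespace Pool.Agent.Lib.MP81632f.Mk

open NumberField IsDedekindDomain
open scoped Classical

variable {L : Type} [Field L] [NumberField L]
variable {p e r : ℕ} {v : HeightOneSpectrum (𝓞 L)} {m s : Multiset L}

omit [NumberField L] in
/-- a common exponent -/
theorem exists_sep (m : Multiset L) : ∃ N : ℕ, 0 < N ∧ ∀ a ∈ m, ∀ b ∈ m,
    (∃ M : ℕ, 0 < M ∧ a ^ M = b ^ M) → a ^ N = b ^ N := by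
  have h1 : ∀ a b : L, ∃ M : ℕ, 0 < M ∧ ((∃ M : ℕ, 0 < M ∧ a ^ M = b ^ M) → a ^ M = b ^ M) := by
    intro a b
    by_cases h : ∃ M : ℕ, 0 < M ∧ a ^ M = b ^ M
    · obtain ⟨M, hM, h2⟩ := h
      exact ⟨M, hM, fun _ => h2⟩
    · exact ⟨1, one_pos, fun h' => absurd h' h⟩
  choose M hM hM' using h1
  refine ⟨∏ x ∈ m.toFinset ×ˢ m.toFinset, M x.1 x.2, Finset.prod_pos (fun x _ => hM _ _), ?_⟩
  intro a ha b hb hab
  have h2 : (a, b) ∈ m.toFinset ×ˢ m.toFinset :=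
    Finset.mem_product.2 ⟨Multiset.mem_toFinset.2 ha, Multiset.mem_toFinset.2 hb⟩
  have h3 := Finset.dvd_prod_of_mem (fun x : L × L => M x.1 x.2) h2
  obtain ⟨j, hj⟩ := h3
  rw [hj, pow_mul, pow_mul]
  show (a ^ M a b) ^ j = (b ^ M a b) ^ j
  rw [hM' a b hab]

theorem conjs_pow_le {y : L} {N K : ℕ} (hN : ∀ g h : L ≃ₐ[ℚ] L,
    (∃ M : ℕ, 0 < M ∧ (g y) ^ M = (h y) ^ M) → (g y) ^ N = (h y) ^ N) (hN0 : 0 < N) (hK : 0 < K) :
    (conjs (y ^ N)).card ≤ (conjs (y ^ K)).card := by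
  have e1 : (conjs (y ^ N)).image (fun x => x ^ K) = conjs (y ^ (N * K)) := by
    ext x
    rw [Finset.mem_image, Ctx.mem_conjs]
    constructor
    · rintro ⟨z, hz, rfl⟩
      obtain ⟨g, rfl⟩ := Ctx.mem_conjs.1 hz
      exact ⟨g, by rw [map_pow, map_pow, pow_mul]⟩
    · rintro ⟨g, rfl⟩
      exact ⟨g (y ^ N), conjs_map _ g, by rw [map_pow, map_pow, pow_mul]⟩
  have e2 : (conjs (y ^ K)).image (fun x => x ^ N) = conjs (y ^ (N * K)) := by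
    ext x
    rw [Finset.mem_image, Ctx.mem_conjs]
    constructor
    · rintro ⟨z, hz, rfl⟩
      obtain ⟨g, rfl⟩ := Ctx.mem_conjs.1 hz
      exact ⟨g, by rw [map_pow, map_pow, mul_comm, pow_mul]⟩
    · rintro ⟨g, rfl⟩
      exact ⟨g (y ^ K), conjs_map _ g, by rw [map_pow, map_pow, mul_comm, pow_mul]⟩
  have h1 : (conjs (y ^ N)).card = (conjs (y ^ (N * K))).card := by
    rw [← e1]
    symm
    apply Finset.card_image_of_injOn
    intro x hx z hz hxz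
    obtain ⟨g, rfl⟩ := Ctx.mem_conjs.1 (Finset.mem_coe.1 hx)
    obtain ⟨k, rfl⟩ := Ctx.mem_conjs.1 (Finset.mem_coe.1 hz)
    simp only [map_pow] at hxz ⊢
    exact hN g k ⟨N * K, Nat.mul_pos hN0 hK, by rw [pow_mul, pow_mul]; exact hxz⟩
  rw [h1, ← e2]
  exact Finset.card_image_le

/-- the exceptional configuration after base change -/
theorem exc_base {N : ℕ} (hN : 0 < N) (hsep : ∀ a ∈ m, ∀ b ∈ m,
    (∃ M : ℕ, 0 < M ∧ a ^ M = b ^ M) → a ^ N = b ^ N) (hg : ∀ g : L ≃ₐ[ℚ] L, m.map g = m)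
    (h : Exc (r ^ N) (pw N m)) : IsExc r m := by
  obtain ⟨y', hy', b', hb', g, _, _, hbal, h4, h4'⟩ := h
  obtain ⟨y, hy, rfl⟩ := mem_pw.1 hy'
  obtain ⟨b, hb, rfl⟩ := mem_pw.1 hb'
  have hmem : ∀ (k : L ≃ₐ[ℚ] L) {x : L}, x ∈ m → k x ∈ m := by
    intro k x hx
    have := Multiset.mem_map_of_mem k hx
    rwa [hg k] at this
  refine ⟨y, hy, b, hb, g, ?_, ?_⟩
  · obtain ⟨M, hM, h1⟩ := hbal
    refine ⟨N * M, Nat.mul_pos hN hM, ?_⟩
    simp only [Multiset.insert_eq_cons, Multiset.prod_cons, Multiset.prod_singleton,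
      Multiset.card_cons, Multiset.card_singleton] at h1 ⊢
    push_cast at h1
    rw [map_pow] at h1
    calc (y * (g y * b)) ^ (N * M) = (y ^ N * (g y ^ N * b ^ N)) ^ M := by ring
      _ = _ := by rw [h1]; ring
  · intro K hK
    have k1 := conjs_pow_le (y := y) (fun g k => hsep _ (hmem g hy) _ (hmem k hy)) hN hK
    have k2 := conjs_pow_le (y := b) (fun g k => hsep _ (hmem g hb) _ (hmem k hb)) hN hK
    rw [h4] at k1
    rw [h4'] at k2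
    exact ⟨k1, k2⟩

omit [NumberField L] in
theorem isSS_pw {a : L} {N : ℕ} (hN : 0 < N) : IsSS (r ^ N) (a ^ N) ↔ IsSS r a := by
  constructor
  · rintro ⟨M, hM, h⟩
    refine ⟨N * M, Nat.mul_pos hN hM, ?_⟩
    rw [pow_mul, h]
    push_cast
    rw [pow_mul]
  · rintro ⟨M, hM, h⟩
    refine ⟨M, hM, ?_⟩
    push_cast
    rw [← pow_mul, mul_comm, pow_mul, h, ← pow_mul, ← pow_mul, mul_comm]

theorem isTate_pw {N : ℕ} (hT : IsTate r s) : IsTate (r ^ N) (pw N s) := by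
  refine ⟨by rw [card_pw]; exact hT.1, ?_⟩
  obtain ⟨M, hM, h⟩ := hT.2
  refine ⟨M, hM, ?_⟩
  have e1 : (pw N s).prod = s.prod ^ N := by
    unfold pw
    rw [Multiset.prod_map_pow, Multiset.map_id']
  rw [e1, card_pw, ← pow_mul, mul_comm N M, pow_mul, h]
  push_cast
  ring

variable [IsGalois ℚ L]

/-- **Theorem Y** -/
theorem gen_powers (hp : p.Prime) (he : 0 < e) (hv : (p : 𝓞 L) ∈ v.asIdeal)
    (hA : IsAV (p ^ e) v m) (hc : m.card ≤ 8) (hex : ¬ IsExc (p ^ e) m)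
    (hs : ∀ a ∈ s, a ∈ m ∨ (IsWeil (p ^ e) a ∧ ∃ N : ℕ, 0 < N ∧ a ^ N = ((p ^ e : ℕ) : L) ^ N))
    (hT : IsTate (p ^ e) s) : Gen v (p ^ e) s := by
  obtain ⟨N, hN, hsep⟩ := exists_sep m
  have hr0 : 0 < p ^ e := pow_pos hp.pos e
  apply Gen.base (p ^ e) N s hN
  have hrN : (p ^ e) ^ N = p ^ (e * N) := (pow_mul p e N).symm
  apply tate_powers (m := pw N m) hrN (Nat.mul_pos he hN) hp hv (Gen.family v _)
    (hA.pw hr0 hN) (by rw [card_pw]; exact hc) _ _ _ _ (isTate_pw hT)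
  · intro a ha b hb hab
    obtain ⟨x, hx, rfl⟩ := mem_pw.1 ha
    obtain ⟨y, hy, rfl⟩ := mem_pw.1 hb
    obtain ⟨M, hM, h1⟩ := hab
    exact hsep x hx y hy ⟨N * M, Nat.mul_pos hN hM, by rw [pow_mul, pow_mul, h1]⟩
  · exact fun h' => hex (exc_base hN hsep hA.galois h')
  · intro a ha
    obtain ⟨x, hx, rfl⟩ := mem_pw.1 ha
    rcases hs x hx with h1 | h1
    · exact Or.inl (mem_pw.2 ⟨x, h1, rfl⟩)
    · exact Or.inr ⟨h1.1.pw N, (isSS_pw hN).2 h1.2⟩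

/-- **Theorem X** -/
theorem gen_five (hp : p.Prime) (he : 0 < e) (hv : (p : 𝓞 L) ∈ v.asIdeal)
    (hA : IsAV (p ^ e) v m) (hc : m.card ≤ 10)
    (hex : 8 < m.card → (∃ z ∈ m, ∃ N : ℕ, 0 < N ∧ z ^ N = ((p ^ e : ℕ) : L) ^ N) → ¬ IsExc (p ^ e) m)
    (hs : s ≤ m) (hT : IsTate (p ^ e) s) : Gen v (p ^ e) s := by
  have hr0 : 0 < p ^ e := pow_pos hp.pos e
  by_cases h8 : m.card ≤ 8
  · exact tate_four hr0 (ord_r_pos v hp he hv) (Gen.family v _) hA h8 s.card s rfl hs hT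
  obtain ⟨N, hN, hsep⟩ := exists_sep m
  apply Gen.base (p ^ e) N s hN
  have hrN : (p ^ e) ^ N = p ^ (e * N) := (pow_mul p e N).symm
  apply tate_five (m := pw N m) hrN (Nat.mul_pos he hN) hp hv (Gen.family v _)
    (hA.pw hr0 hN) (by rw [card_pw]; exact hc) _ _ (Multiset.map_le_map hs) (isTate_pw hT)
  · intro a ha b hb hab
    obtain ⟨x, hx, rfl⟩ := mem_pw.1 ha
    obtain ⟨y, hy, rfl⟩ := mem_pw.1 hb
    obtain ⟨M, hM, h1⟩ := hab
    exact hsep x hx y hy ⟨N * M, Nat.mul_pos hN hM, by rw [pow_mul, pow_mul, h1]⟩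
  · rintro ⟨z, hz, hss⟩ h'
    obtain ⟨x, hx, rfl⟩ := mem_pw.1 hz
    exact hex (by omega) ⟨x, hx, (isSS_pw hN).1 hss⟩ (exc_base hN hsep hA.galois h')

end Pool.Agent.Lib.MP81632f.Mk
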