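import Pool.Agent.Lib.MP_81632f_ag.Mk.Pow10

/-! # Dimension five: vectors -/

namespace Pool.Agent.Lib.MP81632f.Mk

open NumberField IsDedekindDomain
open scoped Classical

variable {L : Type} [Field L] [NumberField L]

namespace Fiv

variable {u V β γ A B : (L ≃ₐ[ℚ] L) → ℤ}

theorem ne_of_ip (h : ip u u ≠ 0) : u ≠ 0 := fun h' => h ((ip_self_eq_zero u).2 h')

theorem ip_ne (h : u ≠ 0) : ip u u ≠ 0 := fun h' => h ((ip_self_eq_zero u).1 h')

theorem nadd (V u : (L ≃ₐ[ℚ] L) → ℤ) : ip (V + u) (V + u) = ip V V + 2 * ip u V + ip u u := by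
  rw [ip_add_left, ip_add_right, ip_add_right, ip_comm V u]
  ring

theorem nsub (V u : (L ≃ₐ[ℚ] L) → ℤ) : ip (V - u) (V - u) = ip V V - 2 * ip u V + ip u u := by
  rw [ip_sub_left, ip_sub_right, ip_sub_right, ip_comm V u]
  ring

theorem nneg (V : (L ≃ₐ[ℚ] L) → ℤ) : ip (-V) (-V) = ip V V := by
  rw [ip_neg_left, ip_neg_right, neg_neg]

/-- equality in the Cauchy-Schwarz inequality -/
theorem eq_of_ip (hN : ip β β = ip u u) (h : ip u β = ip β β) : β = u := by
  have h1 : ip (u - β) (u - β) = 0 := by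
    rw [ip_sub_left, ip_sub_right, ip_sub_right, ip_comm β u]
    omega
  have h2 := (ip_self_eq_zero _).1 h1
  exact (sub_eq_zero.1 h2).symm

theorem eq_neg_of_ip (hN : ip β β = ip u u) (h : ip u β = -ip β β) : β = -u := by
  have h1 : ip (u + β) (u + β) = 0 := by
    rw [ip_add_left, ip_add_right, ip_add_right, ip_comm β u]
    omega
  have h2 := (ip_self_eq_zero _).1 h1
  rw [add_comm] at h2
  exact eq_neg_of_add_eq_zero_left h2

/-- membership in the six vectors -/
def Six (u V β x : (L ≃ₐ[ℚ] L) → ℤ) : Prop :=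
  x = V + β ∨ x = -(V + β) ∨ x = V - u ∨ x = -(V - u) ∨ x = V + u ∨ x = -(V + u)

theorem six_pos (hVβ : ip V β = 0) (hγ : ip γ β = 0) (hN : ip β β = ip u u)
    (hu : ip u u ≠ 0) (h1 : β ≠ u) (h2 : β ≠ -u) (hx : Six u V β (γ + β)) : γ = V := by
  have key : ∀ x, γ + β = x → ip β β = ip x β := by
    intro x hx
    rw [← hx, ip_add_left, hγ, zero_add]
  rcases hx with h | h | h | h | h | h
  · exact add_right_cancel h
  · exfalso
    have := key _ h
    rw [ip_neg_left, ip_add_left, hVβ] at this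
    omega
  · exfalso
    have := key _ h
    rw [ip_sub_left, hVβ] at this
    exact h2 (eq_neg_of_ip hN (by omega))
  · exfalso
    have := key _ h
    rw [ip_neg_left, ip_sub_left, hVβ] at this
    exact h1 (eq_of_ip hN (by omega))
  · exfalso
    have := key _ h
    rw [ip_add_left, hVβ] at this
    exact h1 (eq_of_ip hN (by omega))
  · exfalso
    have := key _ h
    rw [ip_neg_left, ip_add_left, hVβ] at this
    exact h2 (eq_neg_of_ip hN (by omega))

theorem six_neg (hVβ : ip V β = 0) (hγ : ip γ β = 0) (hN : ip β β = ip u u)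
    (hu : ip u u ≠ 0) (h1 : β ≠ u) (h2 : β ≠ -u) (hx : Six u V β (γ - β)) : γ = -V := by
  have key : ∀ x, γ - β = x → -ip β β = ip x β := by
    intro x hx
    rw [← hx, ip_sub_left, hγ, zero_sub]
  rcases hx with h | h | h | h | h | h
  · exfalso
    have := key _ h
    rw [ip_add_left, hVβ] at this
    omega
  · have h3 : γ = -(V + β) + β := by rw [← h]; abel
    rw [h3]; abel
  · exfalso
    have := key _ h
    rw [ip_sub_left, hVβ] at this
    exact h1 (eq_of_ip hN (by omega))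
  · exfalso
    have := key _ h
    rw [ip_neg_left, ip_sub_left, hVβ] at this
    exact h2 (eq_neg_of_ip hN (by omega))
  · exfalso
    have := key _ h
    rw [ip_add_left, hVβ] at this
    exact h2 (eq_neg_of_ip hN (by omega))
  · exfalso
    have := key _ h
    rw [ip_neg_left, ip_add_left, hVβ] at this
    exact h1 (eq_of_ip hN (by omega))

/-- case (ii) -/
theorem core_two (hVβ : ip V β = 0) (hγ : ip γ β = 0) (hN : ip β β = ip u u)
    (hu : ip u u ≠ 0) (hV : V ≠ 0) (h1 : β ≠ u) (h2 : β ≠ -u) (hx : Six u V β (γ + β))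
    (hx' : Six u V β (γ - β)) : False := by
  have e1 := six_pos hVβ hγ hN hu h1 h2 hx
  have e2 := six_neg hVβ hγ hN hu h1 h2 hx'
  apply hV
  ext g
  have h3 := congrFun (e1.symm.trans e2) g
  rw [Pi.neg_apply] at h3
  rw [Pi.zero_apply]
  omega

/-- membership in the four vectors -/
def Fou (u V x : (L ≃ₐ[ℚ] L) → ℤ) : Prop :=
  x = V + u ∨ x = -(V + u) ∨ x = V - u ∨ x = -(V - u)

/-- case (i) -/
theorem core_one (hA : ip A A ≠ 0) (hB : ip B B ≠ 0) (h1 : Fou u V (B + A)) (h2 : Fou u V (B - A)) :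
    (A = u ∨ A = -u ∨ A = V ∨ A = -V) ∧ (B = u ∨ B = -u ∨ B = V ∨ B = -V) := by
  have hA0 := ne_of_ip hA
  have hB0 := ne_of_ip hB
  have keyA : ∀ x y z : (L ≃ₐ[ℚ] L) → ℤ, B + A = x → B - A = y → (∀ g, x g - y g = 2 * z g) → A = z := by
    intro x y z hx hy hz
    ext g
    have e1 := congrFun hx g
    have e2 := congrFun hy g
    have e3 := hz g
    rw [Pi.add_apply] at e1
    rw [Pi.sub_apply] at e2
    omega
  have keyB : ∀ x y z : (L ≃ₐ[ℚ] L) → ℤ, B + A = x → B - A = y → (∀ g, x g + y g = 2 * z g) → B = z := by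
    intro x y z hx hy hz
    ext g
    have e1 := congrFun hx g
    have e2 := congrFun hy g
    have e3 := hz g
    rw [Pi.add_apply] at e1
    rw [Pi.sub_apply] at e2
    omega
  rcases h1 with h1 | h1 | h1 | h1 <;> rcases h2 with h2 | h2 | h2 | h2
  · exact absurd (keyA _ _ 0 h1 h2 (fun g => by simp)) hA0
  · exact absurd (keyB _ _ 0 h1 h2 (fun g => by simp)) hB0
  · exact ⟨Or.inl (keyA _ _ u h1 h2 (fun g => by simp only [Pi.add_apply, Pi.sub_apply]; ring)),
      Or.inr (Or.inr (Or.inl (keyB _ _ V h1 h2 (fun g => by simp only [Pi.add_apply, Pi.sub_apply]; ring))))⟩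
  · exact ⟨Or.inr (Or.inr (Or.inl (keyA _ _ V h1 h2 (fun g => by
        simp only [Pi.add_apply, Pi.sub_apply, Pi.neg_apply]; ring)))),
      Or.inl (keyB _ _ u h1 h2 (fun g => by simp only [Pi.add_apply, Pi.sub_apply, Pi.neg_apply]; ring))⟩
  · exact absurd (keyB _ _ 0 h1 h2 (fun g => by simp)) hB0
  · exact absurd (keyA _ _ 0 h1 h2 (fun g => by simp)) hA0
  · exact ⟨Or.inr (Or.inr (Or.inr (keyA _ _ (-V) h1 h2 (fun g => by
        simp only [Pi.add_apply, Pi.sub_apply, Pi.neg_apply]; ring)))),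
      Or.inr (Or.inl (keyB _ _ (-u) h1 h2 (fun g => by
        simp only [Pi.add_apply, Pi.sub_apply, Pi.neg_apply]; ring)))⟩
  · exact ⟨Or.inr (Or.inl (keyA _ _ (-u) h1 h2 (fun g => by
        simp only [Pi.add_apply, Pi.sub_apply, Pi.neg_apply]; ring))),
      Or.inr (Or.inr (Or.inr (keyB _ _ (-V) h1 h2 (fun g => by
        simp only [Pi.add_apply, Pi.sub_apply, Pi.neg_apply]; ring))))⟩
  · exact ⟨Or.inr (Or.inl (keyA _ _ (-u) h1 h2 (fun g => by
        simp only [Pi.add_apply, Pi.sub_apply, Pi.neg_apply]; ring))),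
      Or.inr (Or.inr (Or.inl (keyB _ _ V h1 h2 (fun g => by
        simp only [Pi.add_apply, Pi.sub_apply]; ring))))⟩
  · exact ⟨Or.inr (Or.inr (Or.inl (keyA _ _ V h1 h2 (fun g => by
        simp only [Pi.add_apply, Pi.sub_apply, Pi.neg_apply]; ring)))),
      Or.inr (Or.inl (keyB _ _ (-u) h1 h2 (fun g => by
        simp only [Pi.add_apply, Pi.sub_apply, Pi.neg_apply]; ring)))⟩
  · exact absurd (keyA _ _ 0 h1 h2 (fun g => by simp)) hA0
  · exact absurd (keyB _ _ 0 h1 h2 (fun g => by simp)) hB0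
  · exact ⟨Or.inr (Or.inr (Or.inr (keyA _ _ (-V) h1 h2 (fun g => by
        simp only [Pi.add_apply, Pi.sub_apply, Pi.neg_apply]; ring)))),
      Or.inl (keyB _ _ u h1 h2 (fun g => by
        simp only [Pi.add_apply, Pi.sub_apply, Pi.neg_apply]; ring))⟩
  · exact ⟨Or.inl (keyA _ _ u h1 h2 (fun g => by
        simp only [Pi.add_apply, Pi.sub_apply, Pi.neg_apply]; ring)),
      Or.inr (Or.inr (Or.inr (keyB _ _ (-V) h1 h2 (fun g => by
        simp only [Pi.add_apply, Pi.sub_apply, Pi.neg_apply]; ring))))⟩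
  · exact absurd (keyB _ _ 0 h1 h2 (fun g => by simp)) hB0
  · exact absurd (keyA _ _ 0 h1 h2 (fun g => by simp)) hA0

end Fiv

end Pool.Agent.Lib.MP81632f.Mk
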