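import Pool.Agent.Lib.MP_81632f_ag.Mk.Fiv1

/-! # Dimension five: the configuration `{y, b, c, d}`, `{b, c, bar y, w}` does not occur -/

namespace Pool.Agent.Lib.MP81632f.Mk

open NumberField IsDedekindDomain
open scoped Classical

variable {L : Type} [Field L] [NumberField L] [IsGalois ℚ L]
variable {p e r : ℕ} {v : HeightOneSpectrum (𝓞 L)} {m t : Multiset L}

/-- equal or conjugate -/
def Pm (r : ℕ) (x a : L) : Prop := x = a ∨ x = (r : L) ^ 2 / a

/-- the configuration -/
structure Cfg (p e r : ℕ) (v : HeightOneSpectrum (𝓞 L)) (m : Multiset L) (y b c d w : L) : Prop where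
  h : Ctx p e r v m
  my : y ∈ m
  mb : b ∈ m
  mc : c ∈ m
  md : d ∈ m
  mw : w ∈ m
  all : ∀ x ∈ m, Pm r x y ∨ Pm r x b ∨ Pm r x c ∨ Pm r x d ∨ Pm r x w
  sum : ∀ g, X r v y g + X r v b g + X r v c g + X r v d g = 0
  hw : ∀ g, X r v w g = X r v d g + 2 * X r v y g
  nw : ip (X r v w) (X r v w) = ip (X r v d) (X r v d)
  nyb : NC r y b
  nyc : NC r y c
  nyd : NC r y d
  cy : m.count y = 1

theorem pm_X (h : Ctx p e r v m) {x a : L} (ha : a ∈ m) (hx : Pm r x a) :
    X r v x = X r v a ∨ X r v x = -X r v a := by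
  rcases hx with rfl | rfl
  · exact Or.inl rfl
  · exact Or.inr (h.Xbar ha)

theorem pm_norm (h : Ctx p e r v m) {x a : L} (ha : a ∈ m) (hx : Pm r x a) :
    ip (X r v x) (X r v x) = ip (X r v a) (X r v a) := by
  rcases pm_X h ha hx with h1 | h1
  · rw [h1]
  · rw [h1, ip_neg_left, ip_neg_right, neg_neg]

namespace Cfg

variable {y b c d w : L}

omit [IsGalois ℚ L] in
theorem swap (k : Cfg p e r v m y b c d w) : Cfg p e r v m y c b d w where
  h := k.h
  my := k.my
  mb := k.mc
  mc := k.mb
  md := k.md
  mw := k.mw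
  all x hx := by have := k.all x hx; tauto
  sum g := by have := k.sum g; omega
  hw := k.hw
  nw := k.nw
  nyb := k.nyc
  nyc := k.nyb
  nyd := k.nyd
  cy := k.cy

omit [IsGalois ℚ L] in
theorem eV (k : Cfg p e r v m y b c d w) : X r v d = (X r v y + X r v d) - X r v y ∧
    X r v w = (X r v y + X r v d) + X r v y ∧
    X r v c = -((X r v y + X r v d) + X r v b) := by
  refine ⟨?_, ?_, ?_⟩
  · abel
  · ext g
    have := k.hw g
    rw [Pi.add_apply, Pi.add_apply]
    omega
  · ext g
    have := k.sum g
    rw [Pi.neg_apply, Pi.add_apply, Pi.add_apply]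
    omega

theorem nu (k : Cfg p e r v m y b c d w) : 0 < ip (X r v y) (X r v y) :=
  ip_self_pos _ (k.h.Xne k.my)

theorem neV (k : Cfg p e r v m y b c d w) : X r v y + X r v d ≠ 0 := by
  intro h'
  apply k.nyd.2
  apply k.h.inj_bar k.md k.my
  rw [add_comm] at h'
  exact eq_neg_of_add_eq_zero_left h'

theorem nV (k : Cfg p e r v m y b c d w) : 0 < ip (X r v y + X r v d) (X r v y + X r v d) :=
  ip_self_pos _ k.neV

omit [IsGalois ℚ L] in
theorem huV (k : Cfg p e r v m y b c d w) : ip (X r v y) (X r v y + X r v d) = 0 := by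
  have h1 : ip ((X r v y + X r v d) + X r v y) ((X r v y + X r v d) + X r v y) =
      ip ((X r v y + X r v d) - X r v y) ((X r v y + X r v d) - X r v y) := by
    rw [← k.eV.2.1, ← k.eV.1]
    exact k.nw
  rw [Fiv.nadd, Fiv.nsub] at h1
  omega

theorem nd (k : Cfg p e r v m y b c d w) : ip (X r v d) (X r v d) =
    ip (X r v y) (X r v y) + ip (X r v y + X r v d) (X r v y + X r v d) := by
  have h1 := k.huV
  have h2 := Fiv.nsub (X r v y + X r v d) (X r v y)
  rw [← k.eV.1] at h2
  omega

/-- conjugates of `y` -/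
theorem conj_y (k : Cfg p e r v m y b c d w) (g : L ≃ₐ[ℚ] L) :
    Pm r (g y) y ∨ Pm r (g y) b ∨ Pm r (g y) c := by
  have h1 := Ctx.norm_map (r := r) (v := v) g y
  have h2 := k.nd
  have h3 := k.nV
  rcases k.all _ (k.h.hA.mem_map g k.my) with h4 | h4 | h4 | h4 | h4
  · exact Or.inl h4
  · exact Or.inr (Or.inl h4)
  · exact Or.inr (Or.inr h4)
  · exfalso
    have h5 := pm_norm k.h k.md h4
    omega
  · exfalso
    have h5 := pm_norm k.h k.mw h4
    have h6 := k.nw
    omega

/-- case (I) -/
theorem caseI (k : Cfg p e r v m y b c d w) (hall : ∀ g : L ≃ₐ[ℚ] L, Pm r (g y) y) : False := by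
  have hsub : conjs y ⊆ ({y, (r : L) ^ 2 / y} : Finset L) := by
    intro x hx
    obtain ⟨g, rfl⟩ := Ctx.mem_conjs.1 hx
    rw [Finset.mem_insert, Finset.mem_singleton]
    exact hall g
  have h2 : (conjs y).card = 2 := by
    have h3 := Finset.card_le_card hsub
    rw [Finset.card_pair (Ne.symm (k.h.bar_ne k.my))] at h3
    have h4 := two_le_conjs k.h k.my
    omega
  have hv1 := two_val k.h k.my h2 (by rw [k.cy]; norm_num)
  rw [k.cy] at hv1
  have hv2 : X r v y 1 = ord v ((r : L) ^ 2) ∨ X r v y 1 = -ord v ((r : L) ^ 2) := by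
    rcases hv1 with h3 | h3
    · exact h3
    · exact absurd h3.1 (by norm_num)
  apply k.neV
  ext g
  have hg : X r v y g = ord v ((r : L) ^ 2) ∨ X r v y g = -ord v ((r : L) ^ 2) := by
    rw [← Ctx.X_one]
    rcases hall g with h3 | h3
    · rw [h3]; exact hv2
    · rw [h3, k.h.Xbar k.my, Pi.neg_apply]; omega
  have hd := abs_X_le (v := v) k.h.r_pos (k.h.weil k.md) g
  have hw := abs_X_le (v := v) k.h.r_pos (k.h.weil k.mw) g
  rw [k.hw g, abs_le] at hw
  rw [abs_le] at hd
  rw [Pi.add_apply, Pi.zero_apply]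
  omega

/-- an element with the norm of `d` is in `c`, `d` or `w` -/
theorem six_of (k : Cfg p e r v m y b c d w) (hNb : ip (X r v b) (X r v b) = ip (X r v y) (X r v y))
    {x : L} (hx : x ∈ m) (hN : ip (X r v x) (X r v x) = ip (X r v d) (X r v d)) :
    Pm r x c ∨ Pm r x d ∨ Pm r x w := by
  have h2 := k.nd
  have h3 := k.nV
  rcases k.all x hx with h4 | h4 | h4 | h4 | h4
  · exfalso
    have h5 := pm_norm k.h k.my h4
    omega
  · exfalso
    have h5 := pm_norm k.h k.mb h4
    omega
  · exact Or.inl h4
  · exact Or.inr (Or.inl h4)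
  · exact Or.inr (Or.inr h4)

theorem Six_of (k : Cfg p e r v m y b c d w) {x : L} (hx : Pm r x c ∨ Pm r x d ∨ Pm r x w) :
    Fiv.Six (X r v y) (X r v y + X r v d) (X r v b) (X r v x) := by
  obtain ⟨e1, e2, e3⟩ := k.eV
  rcases hx with h | h | h
  · rcases pm_X k.h k.mc h with h1 | h1
    · exact Or.inr (Or.inl (h1.trans e3))
    · left
      rw [h1, e3, neg_neg]
  · rcases pm_X k.h k.md h with h1 | h1
    · exact Or.inr (Or.inr (Or.inl (h1.trans e1)))
    · exact Or.inr (Or.inr (Or.inr (Or.inl (h1.trans (congrArg Neg.neg e1)))))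
  · rcases pm_X k.h k.mw h with h1 | h1
    · exact Or.inr (Or.inr (Or.inr (Or.inr (Or.inl (h1.trans e2)))))
    · exact Or.inr (Or.inr (Or.inr (Or.inr (Or.inr (h1.trans (congrArg Neg.neg e2))))))

omit [IsGalois ℚ L] in
theorem act_dw (k : Cfg p e r v m y b c d w) (g : L ≃ₐ[ℚ] L) :
    X r v (g w) = act g (X r v y + X r v d) + act g (X r v y) ∧
    X r v (g d) = act g (X r v y + X r v d) - act g (X r v y) := by
  obtain ⟨e1, e2, _⟩ := k.eV
  constructor
  · rw [X_map, ← act_add]
    exact congrArg (act g) e2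
  · rw [X_map, ← act_sub]
    exact congrArg (act g) e1

/-- case (II) -/
theorem caseII (k : Cfg p e r v m y b c d w) {h : L ≃ₐ[ℚ] L} (hb : Pm r (h y) b) : False := by
  have hNb : ip (X r v b) (X r v b) = ip (X r v y) (X r v y) := by
    rw [← pm_norm k.h k.mb hb, Ctx.norm_map]
  have hA : act h (X r v y) = X r v b ∨ act h (X r v y) = -X r v b := by
    rw [← X_map]
    exact pm_X k.h k.mb hb
  have hnu := k.nu
  have hnV := k.nV
  have huV := k.huV
  have hβ1 : X r v b ≠ X r v y := fun h' => k.nyb.1 (k.h.inj k.mb k.my h')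
  have hβ2 : X r v b ≠ -X r v y := fun h' => k.nyb.2 (k.h.inj_bar k.mb k.my h')
  obtain ⟨e1, e2, e3⟩ := k.eV
  by_cases hall : ∀ g : L ≃ₐ[ℚ] L, (Pm r (g d) d ∨ Pm r (g d) w) ∧ (Pm r (g w) d ∨ Pm r (g w) w)
  · -- case (i)
    obtain ⟨hd, hw⟩ := hall h
    obtain ⟨a1, a2⟩ := k.act_dw h
    have f1 : Fiv.Fou (X r v y) (X r v y + X r v d)
        (act h (X r v y + X r v d) + act h (X r v y)) := by
      rw [← a1]
      rcases hw with h1 | h1
      · rcases pm_X k.h k.md h1 with h2 | h2
        · exact Or.inr (Or.inr (Or.inl (h2.trans e1)))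
        · exact Or.inr (Or.inr (Or.inr (h2.trans (congrArg Neg.neg e1))))
      · rcases pm_X k.h k.mw h1 with h2 | h2
        · exact Or.inl (h2.trans e2)
        · exact Or.inr (Or.inl (h2.trans (congrArg Neg.neg e2)))
    have f2 : Fiv.Fou (X r v y) (X r v y + X r v d)
        (act h (X r v y + X r v d) - act h (X r v y)) := by
      rw [← a2]
      rcases hd with h1 | h1
      · rcases pm_X k.h k.md h1 with h2 | h2
        · exact Or.inr (Or.inr (Or.inl (h2.trans e1)))
        · exact Or.inr (Or.inr (Or.inr (h2.trans (congrArg Neg.neg e1))))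
      · rcases pm_X k.h k.mw h1 with h2 | h2
        · exact Or.inl (h2.trans e2)
        · exact Or.inr (Or.inl (h2.trans (congrArg Neg.neg e2)))
    have nA : ip (act h (X r v y)) (act h (X r v y)) ≠ 0 := by rw [ip_act]; exact hnu.ne'
    have nB : ip (act h (X r v y + X r v d)) (act h (X r v y + X r v d)) ≠ 0 := by
      rw [ip_act]; exact hnV.ne'
    obtain ⟨cA, cB⟩ := Fiv.core_one nA nB f1 f2
    have hAB : ip (act h (X r v y)) (act h (X r v y + X r v d)) = 0 := by rw [ip_act]; exact huV
    -- beta is V or - V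
    have hβV : X r v b = X r v y + X r v d ∨ X r v b = -(X r v y + X r v d) := by
      rcases hA with hA | hA
      · rw [hA] at cA
        rcases cA with c1 | c1 | c1 | c1
        · exact absurd c1 hβ1
        · exact absurd c1 hβ2
        · exact Or.inl c1
        · exact Or.inr c1
      · rw [hA] at cA
        rcases cA with c1 | c1 | c1 | c1
        · exact absurd (neg_eq_iff_eq_neg.1 c1) hβ2
        · exact absurd (neg_injective c1) hβ1
        · exact Or.inr (neg_eq_iff_eq_neg.1 c1)
        · exact Or.inl (neg_injective c1)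
    rcases hβV with hβ | hβ
    · -- N V = N u, A = V or - V
      have hNV : ip (X r v y + X r v d) (X r v y + X r v d) = ip (X r v y) (X r v y) := by
        rw [← hβ, hNb]
      have hAV : act h (X r v y) = X r v y + X r v d ∨ act h (X r v y) = -(X r v y + X r v d) := by
        rw [← hβ]; exact hA
      have hBu : act h (X r v y + X r v d) = X r v y ∨ act h (X r v y + X r v d) = -X r v y := by
        rcases cB with c1 | c1 | c1 | c1
        · exact Or.inl c1
        · exact Or.inr c1
        · exfalso
          rw [c1] at hAB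
          rcases hAV with h1 | h1
          · rw [h1] at hAB; omega
          · rw [h1, ip_neg_left] at hAB; omega
        · exfalso
          rw [c1] at hAB
          rcases hAV with h1 | h1
          · rw [h1, ip_neg_right] at hAB; omega
          · rw [h1, ip_neg_left, ip_neg_right] at hAB; omega
      -- the conjugate of c
      have hc : X r v c = -((X r v y + X r v d) + (X r v y + X r v d)) := by
        conv_lhs => rw [e3]
        rw [hβ]
      have hhc : X r v (h c) = -(act h (X r v y + X r v d) + act h (X r v y + X r v d)) := by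
        rw [X_map, hc]
        rfl
      have hNc : ip (X r v c) (X r v c) = 4 * ip (X r v y) (X r v y) := by
        rw [hc, Fiv.nneg, Fiv.nadd]
        omega
      have hNhc : ip (X r v (h c)) (X r v (h c)) = 4 * ip (X r v y) (X r v y) := by
        rw [Ctx.norm_map, hNc]
      have hpc : Pm r (h c) c := by
        have h5 := k.nd
        rcases k.all _ (k.h.hA.mem_map h k.mc) with h4 | h4 | h4 | h4 | h4
        · have := pm_norm k.h k.my h4; omega
        · have := pm_norm k.h k.mb h4; omega
        · exact h4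
        · have := pm_norm k.h k.md h4; omega
        · have := pm_norm k.h k.mw h4; have := k.nw; omega
      have hfin : act h (X r v y + X r v d) = X r v y + X r v d ∨
          act h (X r v y + X r v d) = -(X r v y + X r v d) := by
        rcases pm_X k.h k.mc hpc with h4 | h4
        · left
          rw [hhc, hc] at h4
          ext g
          have := congrFun h4 g
          simp only [Pi.neg_apply, Pi.add_apply] at this ⊢
          omega
        · right
          rw [hhc, hc] at h4
          ext g
          have := congrFun h4 g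
          simp only [Pi.neg_apply, Pi.add_apply] at this ⊢
          omega
      rcases hBu with h1 | h1 <;> rcases hfin with h2 | h2
      · rw [h1] at h2
        rw [← h2] at huV
        omega
      · rw [h1] at h2
        have h3 : X r v y + X r v d = -X r v y := (neg_eq_iff_eq_neg.2 h2).symm
        rw [h3, ip_neg_right] at huV
        omega
      · rw [h1] at h2
        rw [← h2, ip_neg_right] at huV
        omega
      · rw [h1] at h2
        rw [← neg_injective h2] at huV
        omega
    · apply k.h.Xne k.mc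
      rw [e3, hβ]
      abel
  · -- case (ii)
    push Not at hall
    obtain ⟨g, hg⟩ := hall
    have hex : ∃ x ∈ m, ip (X r v x) (X r v x) = ip (X r v d) (X r v d) ∧ Pm r x c := by
      by_cases h1 : Pm r (g d) d ∨ Pm r (g d) w
      · obtain ⟨h2, h3⟩ := hg h1
        have hm := k.h.hA.mem_map g k.mw
        have hN : ip (X r v (g w)) (X r v (g w)) = ip (X r v d) (X r v d) := by
          rw [Ctx.norm_map, k.nw]
        rcases k.six_of hNb hm hN with h4 | h4 | h4
        · exact ⟨_, hm, hN, h4⟩
        · exact absurd h4 h2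
        · exact absurd h4 h3
      · have hm := k.h.hA.mem_map g k.md
        have hN : ip (X r v (g d)) (X r v (g d)) = ip (X r v d) (X r v d) := Ctx.norm_map g d
        rcases k.six_of hNb hm hN with h4 | h4 | h4
        · exact ⟨_, hm, hN, h4⟩
        · exact absurd (Or.inl h4) h1
        · exact absurd (Or.inr h4) h1
    obtain ⟨x, _, hNx, hxc⟩ := hex
    have hNc : ip (X r v c) (X r v c) = ip (X r v d) (X r v d) := by
      rw [← pm_norm k.h k.mc hxc, hNx]
    have hVβ : ip (X r v y + X r v d) (X r v b) = 0 := by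
      have h5 := k.nd
      have h6 : ip (X r v c) (X r v c) = ip (X r v y + X r v d) (X r v y + X r v d) +
          2 * ip (X r v y + X r v d) (X r v b) + ip (X r v b) (X r v b) := by
        rw [e3, Fiv.nneg, Fiv.nadd, ip_comm (X r v b) (X r v y + X r v d)]
      omega
    have hAB : ip (act h (X r v y + X r v d)) (act h (X r v y)) = 0 := by
      rw [ip_act, ip_comm]; exact huV
    obtain ⟨a1, a2⟩ := k.act_dw h
    have s1 : Fiv.Six (X r v y) (X r v y + X r v d) (X r v b)
        (act h (X r v y + X r v d) + act h (X r v y)) := by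
      rw [← a1]
      exact k.Six_of (k.six_of hNb (k.h.hA.mem_map h k.mw) (by rw [Ctx.norm_map, k.nw]))
    have s2 : Fiv.Six (X r v y) (X r v y + X r v d) (X r v b)
        (act h (X r v y + X r v d) - act h (X r v y)) := by
      rw [← a2]
      exact k.Six_of (k.six_of hNb (k.h.hA.mem_map h k.md) (Ctx.norm_map h d))
    rcases hA with hA | hA
    · rw [hA] at s1 s2 hAB
      exact Fiv.core_two hVβ hAB hNb hnu.ne' k.neV hβ1 hβ2 s1 s2
    · rw [hA] at s1 s2 hAB
      rw [ip_neg_right, neg_eq_zero] at hAB
      rw [← sub_eq_add_neg] at s1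
      rw [sub_neg_eq_add] at s2
      exact Fiv.core_two hVβ hAB hNb hnu.ne' k.neV hβ1 hβ2 s2 s1

/-- **the configuration does not occur** -/
theorem false (k : Cfg p e r v m y b c d w) : False := by
  by_cases hall : ∀ g : L ≃ₐ[ℚ] L, Pm r (g y) y
  · exact k.caseI hall
  · push Not at hall
    obtain ⟨g, hg⟩ := hall
    rcases k.conj_y g with h1 | h1 | h1
    · exact hg h1
    · exact k.caseII h1
    · exact k.swap.caseII h1

end Cfg

end Pool.Agent.Lib.MP81632f.Mk
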