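import Pool.Agent.Lib.MP_81632f_ag.Mk.Fiv2

/-! # Dimension five: four-element classes are of `K`-type -/

namespace Pool.Agent.Lib.MP81632f.Mk

open NumberField IsDedekindDomain
open scoped Classical

variable {L : Type} [Field L] [NumberField L] [IsGalois ℚ L]
variable {p e r : ℕ} {v : HeightOneSpectrum (𝓞 L)} {m s : Multiset L} {w : L}

/-- sum of the norms -/
noncomputable def NS (r : ℕ) (v : HeightOneSpectrum (𝓞 L)) (s : Multiset L) : ℤ :=
  (s.map (fun a => ip (X r v a) (X r v a))).sum

omit [IsGalois ℚ L] in
theorem NS_add (s t : Multiset L) : NS r v (s + t) = NS r v s + NS r v t := by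
  unfold NS
  rw [Multiset.map_add, Multiset.sum_add]

omit [IsGalois ℚ L] in
theorem NS_singleton (a : L) : NS r v {a} = ip (X r v a) (X r v a) := by
  unfold NS
  simp

omit [IsGalois ℚ L] in
theorem NS_map (g : L ≃ₐ[ℚ] L) (s : Multiset L) : NS r v (s.map g) = NS r v s := by
  unfold NS
  rw [Multiset.map_map]
  congr 1
  apply Multiset.map_congr rfl
  intro a _
  exact ip_act (X r v a) (X r v a) g

omit [IsGalois ℚ L] in
theorem NS_bars (hr : 0 < r) {s : Multiset L} (hs : ∀ a ∈ s, a ≠ 0) : NS r v (bars r s) = NS r v s := by
  unfold NS bars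
  rw [Multiset.map_map]
  congr 1
  apply Multiset.map_congr rfl
  intro a ha
  show ip (X r v ((r : L) ^ 2 / a)) (X r v ((r : L) ^ 2 / a)) = _
  rw [X_bar hr (hs a ha), Fiv.nneg]

/-- assembling the configuration -/
theorem cfg_of (h : Ctx p e r v m) {y b c d w' : L} (hs : s = y ::ₘ b ::ₘ c ::ₘ {d}) (hR : Red r s)
    (hb : Bal r s) (hm : m = s + bars r s + {w, (r : L) ^ 2 / w}) (hW : Pm r w w') (mw : w' ∈ m)
    (hX : ∀ g, X r v w' g = X r v d g + 2 * X r v y g)
    (hN : ip (X r v w') (X r v w') = ip (X r v d) (X r v d)) (hyb : b ≠ y) (hyc : c ≠ y) :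
    Cfg p e r v m y b c d w' := by
  have hsm : ∀ x ∈ s, x ∈ m := by
    intro x hx
    rw [hm]
    exact Multiset.mem_add.2 (Or.inl (Multiset.mem_add.2 (Or.inl hx)))
  have ys : y ∈ s := by rw [hs]; simp
  have bs : b ∈ s := by rw [hs]; simp
  have cs : c ∈ s := by rw [hs]; simp
  have ds : d ∈ s := by rw [hs]; simp
  have my := hsm y ys
  have md := hsm d ds
  have hr := h.r_pos
  have nbar : ∀ {x z : L}, x ∈ s → z ∈ s → z ≠ (r : L) ^ 2 / x := by
    intro x z hx hz h'
    exact hR.bar_notMem hr hx (h' ▸ hz)
  have hnu := ip_self_pos _ (h.Xne my)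
  have hwX : X r v w' = X r v d + (X r v y + X r v y) := by
    ext g
    rw [hX g, Pi.add_apply, Pi.add_apply]
    ring
  have ndy : d ≠ y := by
    intro h'
    subst h'
    have h1 : X r v w' = (3 : ℤ) • X r v d := by
      ext g
      rw [hX g, Pi.smul_apply, smul_eq_mul]
      ring
    rw [h1, ip_smul_left, ip_smul_right] at hN
    omega
  have nyw : y ≠ w' := by
    intro h'
    have h1 : X r v d = -X r v y := by
      ext g
      have := hX g
      rw [← h'] at this
      rw [Pi.neg_apply]
      omega
    exact nbar ys ds (h.inj_bar md my h1)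
  have nyw' : y ≠ (r : L) ^ 2 / w' := by
    intro h'
    have h1 : X r v d = (-3 : ℤ) • X r v y := by
      ext g
      have h2 := hX g
      have h3 : X r v y g = -X r v w' g := by
        conv_lhs => rw [h']
        rw [h.Xbar mw, Pi.neg_apply]
      rw [Pi.smul_apply, smul_eq_mul]
      omega
    have h4 : X r v w' = -X r v y := by
      conv_rhs => rw [h']
      rw [h.Xbar mw, neg_neg]
    rw [h1, h4, Fiv.nneg, ip_smul_left, ip_smul_right] at hN
    omega
  have hwm : w ≠ y ∧ w ≠ (r : L) ^ 2 / y := by
    rcases hW with rfl | rfl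
    · refine ⟨fun h' => nyw h'.symm, fun h' => nyw' ?_⟩
      rw [h', bb hr]
    · refine ⟨fun h' => nyw' h'.symm, fun h' => nyw ?_⟩
      exact (bar_injective hr h').symm
  refine ⟨h, my, hsm b bs, hsm c cs, md, mw, ?_, ?_, hX, hN, ⟨hyb, nbar ys bs⟩, ⟨hyc, nbar ys cs⟩,
    ⟨ndy, nbar ys ds⟩, ?_⟩
  · intro x hx
    rw [hm] at hx
    rcases Multiset.mem_add.1 hx with hx | hx
    · rcases Multiset.mem_add.1 hx with hx | hx
      · rw [hs] at hx
        simp only [Multiset.mem_cons, Multiset.mem_singleton] at hx
        unfold Pm
        tauto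
      · rw [mem_bars hr, hs] at hx
        simp only [Multiset.mem_cons, Multiset.mem_singleton] at hx
        have e : x = (r : L) ^ 2 / ((r : L) ^ 2 / x) := (bb hr x).symm
        unfold Pm
        rcases hx with h1 | h1 | h1 | h1 <;> rw [h1] at e <;> tauto
    · rw [Multiset.insert_eq_cons, Multiset.mem_cons, Multiset.mem_singleton] at hx
      right; right; right; right
      unfold Pm at hW ⊢
      rcases hx with rfl | rfl
      · exact hW
      · rcases hW with rfl | rfl
        · exact Or.inr rfl
        · exact Or.inl (bb hr _)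
  · intro g
    have h1 := (bal_iff h.hr h.hp h.hv (fun x hx => h.weil (hsm x hx))).1 hb g
    rw [hs, XS_cons, XS_cons, XS_cons, XS_singleton] at h1
    omega
  · have h1 : s.count y = 1 := by
      rw [hs, Multiset.count_cons_self, Multiset.count_cons_of_ne (Ne.symm hyb),
        Multiset.count_cons_of_ne (Ne.symm hyc), Multiset.count_singleton, if_neg (Ne.symm ndy)]
    have h2 : (bars r s).count y = 0 := by
      rw [count_bars hr]
      exact Multiset.count_eq_zero_of_notMem (hR.bar_notMem hr ys)
    have h3 : ({w, (r : L) ^ 2 / w} : Multiset L).count y = 0 := by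
      rw [Multiset.count_eq_zero, Multiset.insert_eq_cons, Multiset.mem_cons, Multiset.mem_singleton,
        not_or]
      refine ⟨hwm.1.symm, fun h' => hwm.2 ?_⟩
      rw [h', bb hr]
    rw [hm, Multiset.count_add, Multiset.count_add, h1, h2, h3]

/-- **`g s` is `s` or its conjugate** -/
theorem map_cases (h : Ctx p e r v m) (hR : Red r s) (hb : Bal r s) (hc : s.card = 4)
    (hm : m = s + bars r s + {w, (r : L) ^ 2 / w}) (g : L ≃ₐ[ℚ] L) :
    s.map g = s ∨ s.map g = bars r s := by
  have hr := h.r_pos
  have hsm : ∀ x ∈ s, x ∈ m := by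
    intro x hx
    rw [hm]
    exact Multiset.mem_add.2 (Or.inl (Multiset.mem_add.2 (Or.inl hx)))
  set t := s.map g with ht
  have hRt : Red r t := hR.map_of g
  have hbt : Bal r t := hb.map g
  have hct : t.card = 4 := by rw [ht, Multiset.card_map, hc]
  have htm : ∀ x ∈ t, x ∈ m := by
    intro x hx
    obtain ⟨a, ha, rfl⟩ := Multiset.mem_map.1 hx
    exact h.hA.mem_map g (hsm a ha)
  have hm' : m = t + bars r t + {g w, (r : L) ^ 2 / g w} := by
    conv_lhs => rw [← h.hA.galois g, hm]
    rw [Multiset.map_add, Multiset.map_add, map_bars]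
    congr 1
    rw [Multiset.insert_eq_cons, Multiset.map_cons, Multiset.map_singleton, map_bar,
      Multiset.insert_eq_cons]
  have hcnt : ∀ x, s.count x + s.count ((r : L) ^ 2 / x) +
      ({w, (r : L) ^ 2 / w} : Multiset L).count x = t.count x + t.count ((r : L) ^ 2 / x) +
      ({g w, (r : L) ^ 2 / g w} : Multiset L).count x := by
    intro x
    have h1 := congrArg (Multiset.count x) hm
    have h2 := congrArg (Multiset.count x) hm'
    rw [Multiset.count_add, Multiset.count_add, count_bars hr] at h1 h2
    omega
  have rs := fun x => Ctx.red_or hr hR x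
  have rt := fun x => Ctx.red_or hr hRt x
  set p1 := s ∩ t with hp1
  set p2 := s ∩ bars r t with hp2
  have c1 : ∀ x, p1.count x = min (s.count x) (t.count x) := fun x => by
    rw [hp1, Multiset.count_inter]
  have c2 : ∀ x, p2.count x = min (s.count x) (t.count ((r : L) ^ 2 / x)) := fun x => by
    rw [hp2, Multiset.count_inter, count_bars hr]
  have hle : p1 + p2 ≤ s := by
    rw [Multiset.le_iff_count]
    intro x
    rw [Multiset.count_add, c1, c2]
    have := rt x
    omega
  have hle' : p1 + bars r p2 ≤ t := by
    rw [Multiset.le_iff_count]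
    intro x
    rw [Multiset.count_add, count_bars hr, c1, c2, bb hr]
    have := rs x
    omega
  obtain ⟨D, hD⟩ := Multiset.le_iff_exists_add.1 hle
  obtain ⟨D', hD'⟩ := Multiset.le_iff_exists_add.1 hle'
  have cD := congrArg Multiset.card hD
  have cD' := congrArg Multiset.card hD'
  rw [Multiset.card_add, Multiset.card_add, hc] at cD
  rw [Multiset.card_add, Multiset.card_add, card_bars, hct] at cD'
  have hDle : D + bars r D ≤ {g w, (r : L) ^ 2 / g w} := by
    rw [Multiset.le_iff_count]
    intro x
    have h1 := congrArg (Multiset.count x) hD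
    have h2 := congrArg (Multiset.count ((r : L) ^ 2 / x)) hD
    rw [Multiset.count_add, Multiset.count_add, c1, c2] at h1 h2
    rw [bb hr] at h2
    rw [Multiset.count_add, count_bars hr]
    have h3 := hcnt x
    have h4 := rs x
    have h5 := rt x
    omega
  have hD1 : D.card ≤ 1 := by
    have h1 := Multiset.card_le_card hDle
    rw [Multiset.card_add, card_bars, Multiset.insert_eq_cons, Multiset.card_cons,
      Multiset.card_singleton] at h1
    omega
  have hp2m : ∀ a ∈ p2, a ∈ s := fun a ha => Multiset.mem_of_le (Multiset.inter_le_left) ha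
  have hp1m : ∀ a ∈ p1, a ∈ s := fun a ha => Multiset.mem_of_le (Multiset.inter_le_left) ha
  have hne : ∀ a ∈ s, a ≠ 0 := fun a ha => h.ne_zero (hsm a ha)
  rcases Nat.lt_or_ge D.card 1 with h1 | h1
  · have e1 : D = 0 := Multiset.card_eq_zero.1 (by omega)
    have e2 : D' = 0 := Multiset.card_eq_zero.1 (by omega)
    rw [e1, add_zero] at hD
    rw [e2, add_zero] at hD'
    have b2 : Bal r p2 := Bal.swap hr (s := p1) (fun a ha => hne a (hp2m a ha)) (hD ▸ hb) (hD' ▸ hbt)
      (fun a ha => hne a (hp1m a ha))
    have b1 : Bal r p1 := Bal.of_add hr (hD ▸ hb) b2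
    rcases Nat.lt_or_ge p1.card 3 with h2 | h2
    · have e3 := (hR.mono ((Multiset.le_add_right p1 p2).trans hle)).small b1 (by omega)
      right
      rw [e3, zero_add] at hD hD'
      rw [hD', ← hD]
    · have e3 := (hR.mono ((Multiset.le_add_left p2 p1).trans hle)).small b2 (by omega)
      left
      rw [e3] at hD hD'
      rw [add_zero] at hD
      unfold bars at hD'
      rw [Multiset.map_zero, add_zero] at hD'
      rw [hD', ← hD]
  · obtain ⟨d, rfl⟩ := Multiset.card_eq_one.1 (show D.card = 1 by omega)
    obtain ⟨w', rfl⟩ := Multiset.card_eq_one.1 (show D'.card = 1 by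
      rw [Multiset.card_singleton] at cD; omega)
    rw [Multiset.card_singleton] at cD cD'
    have ds : d ∈ s := by rw [hD]; simp
    have wt : w' ∈ t := by rw [hD']; simp
    have md := hsm d ds
    have mw := htm w' wt
    have xs := (bal_iff h.hr h.hp h.hv (fun x hx => h.weil (hsm x hx))).1 hb
    have xt := (bal_iff h.hr h.hp h.hv (fun x hx => h.weil (htm x hx))).1 hbt
    rw [hD] at xs
    rw [hD'] at xt
    have f1 : ∀ k, XS r v p1 k + XS r v p2 k + X r v d k = 0 := by
      intro k
      have := xs k
      rwa [XS_add, XS_add, XS_singleton] at this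
    have f2 : ∀ k, XS r v p1 k - XS r v p2 k + X r v w' k = 0 := by
      intro k
      have := xt k
      rw [XS_add, XS_add, XS_singleton, XS_bars hr (fun a ha => hne a (hp2m a ha))] at this
      omega
    have hNN : ip (X r v w') (X r v w') = ip (X r v d) (X r v d) := by
      have h2 := NS_map (r := r) (v := v) g s
      rw [← ht] at h2
      have h3 : NS r v t = NS r v p1 + NS r v (bars r p2) + NS r v {w'} := by
        conv_lhs => rw [hD']
        rw [NS_add, NS_add]
      have h4 : NS r v s = NS r v p1 + NS r v p2 + NS r v {d} := by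
        conv_lhs => rw [hD]
        rw [NS_add, NS_add]
      rw [h3, h4, NS_bars hr (fun a ha => hne a (hp2m a ha)), NS_singleton, NS_singleton] at h2
      omega
    -- w' is w or its conjugate
    have hWW : w' ≠ d → w' ≠ (r : L) ^ 2 / d → Pm r w w' := by
      intro n1 n2
      have h2 := hcnt w'
      have h3 := congrArg (Multiset.count w') hD
      have h4 := congrArg (Multiset.count ((r : L) ^ 2 / w')) hD
      have h5 := congrArg (Multiset.count w') hD'
      have h6 := congrArg (Multiset.count ((r : L) ^ 2 / w')) hD'
      rw [Multiset.count_add, Multiset.count_add, Multiset.count_singleton] at h3 h4 h5 h6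
      rw [if_neg n1] at h3
      rw [if_neg (fun h' => n2 (by rw [← h', bb hr]))] at h4
      rw [count_bars hr, if_pos rfl] at h5
      rw [count_bars hr, bb hr] at h6
      have h7 : 0 < ({w, (r : L) ^ 2 / w} : Multiset L).count w' := by omega
      rw [Multiset.count_pos, Multiset.insert_eq_cons, Multiset.mem_cons, Multiset.mem_singleton] at h7
      unfold Pm
      rcases h7 with rfl | rfl
      · exact Or.inl rfl
      · exact Or.inr (bb hr w).symm
    have hcase : p2.card = 0 ∨ p1.card = 0 ∨ p2.card = 1 ∨ p2.card = 2 := by omega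
    rcases hcase with h2 | h2 | h2 | h2
    · have e := Multiset.card_eq_zero.1 h2
      have hdw : d = w' := by
        apply h.inj md mw
        ext k
        have h3 := f1 k
        have h4 := f2 k
        rw [e, XS_zero] at h3 h4
        omega
      left
      rw [hD', hD, ← hdw, e]
      rfl
    · have e := Multiset.card_eq_zero.1 h2
      have hdw : w' = (r : L) ^ 2 / d := by
        apply h.inj_bar mw md
        ext k
        have h3 := f1 k
        have h4 := f2 k
        rw [e, XS_zero] at h3 h4
        rw [Pi.neg_apply]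
        omega
      right
      conv_rhs => rw [hD]
      rw [hD', e, zero_add, zero_add, bars_add, hdw]
      congr 1
    · exfalso
      obtain ⟨y, ey⟩ := Multiset.card_eq_one.1 h2
      obtain ⟨b, c, ebc⟩ := Multiset.card_eq_two.1 (show p1.card = 2 by omega)
      have my : y ∈ s := hp2m y (by rw [ey]; simp)
      have hX : ∀ k, X r v w' k = X r v d k + 2 * X r v y k := by
        intro k
        have h3 := f1 k
        have h4 := f2 k
        rw [ey, XS_singleton] at h3 h4
        omega
      have n1 : w' ≠ d := by
        intro h'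
        apply h.Xne (hsm y my)
        ext k
        have := hX k
        rw [h'] at this
        rw [Pi.zero_apply]
        omega
      have n2 : w' ≠ (r : L) ^ 2 / d := by
        intro h'
        apply hR.bar_notMem hr my
        have h3 : d = (r : L) ^ 2 / y := by
          apply h.inj_bar md (hsm y my)
          ext k
          have h4 := hX k
          have h5 : X r v w' k = -X r v d k := by rw [h', h.Xbar md, Pi.neg_apply]
          rw [Pi.neg_apply]
          omega
        rw [← h3]
        exact ds
      have hyt : (r : L) ^ 2 / y ∈ t := by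
        rw [hD']
        apply Multiset.mem_add.2
        left
        apply Multiset.mem_add.2
        right
        rw [mem_bars hr, bb hr, ey]
        simp
      have hne1 : ∀ x ∈ p1, x ≠ y := by
        intro x hx h'
        have h3 : x ∈ t := Multiset.mem_of_le Multiset.inter_le_right hx
        apply hRt.bar_notMem hr h3
        rw [h']
        exact hyt
      have hsy : s = y ::ₘ b ::ₘ c ::ₘ {d} := by
        rw [hD, ebc, ey, Multiset.insert_eq_cons]
        simp only [← Multiset.singleton_add]
        abel
      exact (cfg_of h hsy hR hb hm (hWW n1 n2) mw hX hNN (hne1 b (by rw [ebc]; simp))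
        (hne1 c (by rw [ebc]; simp))).false
    · exfalso
      obtain ⟨y, ey⟩ := Multiset.card_eq_one.1 (show p1.card = 1 by omega)
      obtain ⟨b, c, ebc⟩ := Multiset.card_eq_two.1 h2
      have my : y ∈ s := hp1m y (by rw [ey]; simp)
      have mwb := h.bar_mem mw
      have hX : ∀ k, X r v ((r : L) ^ 2 / w') k = X r v d k + 2 * X r v y k := by
        intro k
        have h3 := f1 k
        have h4 := f2 k
        rw [ey, XS_singleton] at h3 h4
        rw [h.Xbar mw, Pi.neg_apply]
        omega
      have hXw : ∀ k, X r v w' k = -(X r v d k + 2 * X r v y k) := by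
        intro k
        have := hX k
        rw [h.Xbar mw, Pi.neg_apply] at this
        omega
      have n1 : w' ≠ d := by
        intro h'
        apply hR.bar_notMem hr my
        have h3 : d = (r : L) ^ 2 / y := by
          apply h.inj_bar md (hsm y my)
          ext k
          have h4 := hXw k
          rw [h'] at h4
          rw [Pi.neg_apply]
          omega
        rw [← h3]
        exact ds
      have n2 : w' ≠ (r : L) ^ 2 / d := by
        intro h'
        apply h.Xne (hsm y my)
        ext k
        have h4 := hXw k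
        have h5 : X r v w' k = -X r v d k := by rw [h', h.Xbar md, Pi.neg_apply]
        rw [Pi.zero_apply]
        omega
      have hyt : y ∈ t := Multiset.mem_of_le Multiset.inter_le_right (show y ∈ s ∩ t by
        rw [← hp1, ey]; simp)
      have hne1 : ∀ x ∈ p2, x ≠ y := by
        intro x hx h'
        have h3 : x ∈ bars r t := Multiset.mem_of_le Multiset.inter_le_right hx
        rw [h'] at h3
        exact hRt.notMem_bars hr hyt h3
      have hsy : s = y ::ₘ b ::ₘ c ::ₘ {d} := by
        rw [hD, ebc, ey, Multiset.insert_eq_cons]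
        simp only [← Multiset.singleton_add]
        abel
      have hW2 : Pm r w ((r : L) ^ 2 / w') := by
        rcases hWW n1 n2 with h3 | h3
        · right
          rw [bb hr]
          exact h3
        · exact Or.inl h3
      have hN2 : ip (X r v ((r : L) ^ 2 / w')) (X r v ((r : L) ^ 2 / w')) =
          ip (X r v d) (X r v d) := by
        rw [h.Xbar mw, Fiv.nneg, hNN]
      exact (cfg_of h hsy hR hb hm hW2 mwb hX hN2 (hne1 b (by rw [ebc]; simp))
        (hne1 c (by rw [ebc]; simp))).false

end Pool.Agent.Lib.MP81632f.Mk
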