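import Pool.Agent.Lib.MP_81632f_ag.Mk.KT2

namespace Pool.Agent.Lib.MP81632f.Mk

open NumberField IsDedekindDomain
open scoped Classical

variable {L : Type} [Field L] [NumberField L] {r : ℕ} {v : HeightOneSpectrum (𝓞 L)} {m s t : Multiset L}

/-- not supersingular -/
def NSS (r : ℕ) (a : L) : Prop := ¬ IsSS r a

/-- sub-varieties cut out by a Galois invariant condition -/
theorem IsAV.filter (h : IsAV r v m) (P : L → Prop) (hP : ∀ (g : L ≃ₐ[ℚ] L) (a : L), P (g a) ↔ P a) :
    IsAV r v (m.filter P) where
  weil a ha := h.weil a (Multiset.mem_filter.1 ha).1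
  galois g := by
    conv_rhs => rw [← h.galois g]
    rw [Multiset.filter_map]
    congr 1
    apply Multiset.filter_congr
    intro a _
    exact (hP g a).symm
  integral a ha := by
    rw [Multiset.mem_filter] at ha
    rw [Multiset.count_filter, if_pos ha.2]
    exact h.integral a ha.1

theorem real_even (hr : 0 < r) (hv : 0 < ord v (r : L)) (h : IsAV r v m) {a : L} (ha : a ∈ m)
    (hb : (r : L) ^ 2 / a = a) : 2 ≤ m.count a := by
  have h0 : a ≠ 0 := (h.weil a ha).ne_zero hr
  have hr0 : (r : L) ≠ 0 := by exact_mod_cast hr.ne'
  have h1 : (a - (r : L)) * (a + (r : L)) = 0 := by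
    rw [div_eq_iff h0] at hb
    linear_combination -hb
  have hfix : ∀ g : L ≃ₐ[ℚ] L, g a = a := by
    intro g
    rcases mul_eq_zero.1 h1 with h2 | h2
    · rw [sub_eq_zero] at h2
      rw [h2, map_natCast]
    · rw [add_eq_zero_iff_eq_neg] at h2
      rw [h2, map_neg, map_natCast]
  have horb : orb v a = {a} := by
    ext x
    rw [mem_orb, Finset.mem_singleton]
    constructor
    · rintro ⟨g, _, rfl⟩
      exact hfix g
    · rintro rfl
      exact ⟨1, one_mem _, rfl⟩
  have hord : ord v a = ord v (r : L) := by
    have h2 := ord_bar (v := v) hr h0
    rw [hb, ord_q hr] at h2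
    omega
  have hi := h.integral a ha
  rw [horb, Finset.card_singleton, mul_one, hord, ord_q hr] at hi
  obtain ⟨k, hk⟩ := hi
  have hk2 : ((m.count a : ℕ) : ℤ) = 2 * k := by
    apply mul_right_cancel₀ hv.ne'
    rw [hk]; ring
  have hpos := Multiset.count_pos.2 ha
  omega

variable [IsGalois ℚ L]

/-- a Tate multiset without pairs and its conjugate fit into `m` -/
theorem add_bars_le (hr : 0 < r) (hv : 0 < ord v (r : L)) (h : IsAV r v m) (hs : s ≤ m)
    (hp : ∀ a b : L, {a, b} ≤ s → ¬ Bal r {a, b}) : s + bars r s ≤ m := by
  rw [Multiset.le_iff_count]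
  intro a
  rw [Multiset.count_add, count_bars hr]
  have hle := Multiset.le_iff_count.1 hs
  by_cases ha : a ∈ s
  · have ham := Multiset.mem_of_le hs ha
    have h0 := (h.weil a ham).ne_zero hr
    by_cases hb : (r : L) ^ 2 / a = a
    · rw [hb]
      have h2 := real_even hr hv h ham hb
      have h3 : s.count a ≤ 1 := by
        by_contra hlt
        apply hp a a _ (bal_ss (self_ss hb h0) (self_ss hb h0))
        have : ({a, a} : Multiset L) = Multiset.replicate 2 a := rfl
        rw [this, ← Multiset.le_count_iff_replicate_le]
        omega
      omega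
    · have h1 : (r : L) ^ 2 / a ∉ s := by
        intro hb'
        apply hp a ((r : L) ^ 2 / a) _ (bal_bar hr h0)
        rw [Multiset.insert_eq_cons, Multiset.cons_le_of_notMem]
        · exact ⟨ha, Multiset.singleton_le.2 hb'⟩
        · rw [Multiset.mem_singleton]
          exact fun h' => hb h'.symm
      rw [Multiset.count_eq_zero_of_notMem h1, add_zero]
      exact hle a
  · rw [Multiset.count_eq_zero_of_notMem ha, zero_add]
    by_cases hb : (r : L) ^ 2 / a ∈ s
    · have hw := h.weil _ (Multiset.mem_of_le hs hb)
      have h1 := h.count_bar hr hw
      rw [bb hr] at h1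
      rw [h1]
      exact hle _
    · rw [Multiset.count_eq_zero_of_notMem hb]
      exact Nat.zero_le _

/-- the supersingular element can be moved -/
theorem add_ss {C : Set (Multiset L)} (hr : 0 < r) (hC : CycleFamily r v C) {z : L}
    (hz : IsWeil r z) (hss : IsSS r z) (h : t + {(r : L)} ∈ C) : t + {z} ∈ C := by
  apply remove_rr hr hC
  have h1 : {z, (r : L)} ∈ C := hC.pair z r hz (weil_r hr) (bal_ss hss ss_r)
  have h2 := hC.add _ _ h h1
  have e : t + {(r : L)} + {z, (r : L)} = t + {z} + {(r : L), (r : L)} := by
    rw [Multiset.insert_eq_cons, Multiset.insert_eq_cons, ← Multiset.singleton_add,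
      ← Multiset.singleton_add]
    abel
  rw [e] at h2
  exact h2

/-- **All Tate classes on abelian varieties of dimension at most four are algebraic.** -/
theorem tate_four {C : Set (Multiset L)} (hr : 0 < r) (hv : 0 < ord v (r : L))
    (hC : CycleFamily r v C) (h : IsAV r v m) (hm : m.card ≤ 8) (n : ℕ) :
    ∀ s : Multiset L, s.card = n → s ≤ m → IsTate r s → s ∈ C := by
  induction n using Nat.strong_induction_on with
  | _ n ih =>
    intro s hn hs hT
    by_cases hp : ∃ a b : L, {a, b} ≤ s ∧ Bal r {a, b}
    · obtain ⟨a, b, hab, hb⟩ := hp
      obtain ⟨u, hu⟩ := Multiset.le_iff_exists_add.1 hab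
      have ha' : a ∈ m := Multiset.mem_of_le (hab.trans hs) (by simp)
      have hb' : b ∈ m := Multiset.mem_of_le (hab.trans hs) (by simp)
      have hc2 : ({a, b} : Multiset L).card = 2 := by simp
      have hcard := congrArg Multiset.card hu
      rw [Multiset.card_add, hc2] at hcard
      have hu' : u ≤ s := by rw [hu]; exact Multiset.le_add_left _ _
      have h1 : u ∈ C := by
        refine ih u.card (by omega) u rfl (hu'.trans hs) ⟨?_, ?_⟩
        · obtain ⟨k, hk⟩ := hT.1
          exact ⟨k - 1, by omega⟩
        · apply Bal.of_add hr (t := {a, b}) _ hb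
          rw [add_comm, ← hu]
          exact hT.2
      rw [hu]
      exact hC.add _ _ (hC.pair a b (h.weil a ha') (h.weil b hb') hb) h1
    · push Not at hp
      have hle := add_bars_le hr hv h hs hp
      have hc := Multiset.card_le_card hle
      rw [Multiset.card_add, card_bars] at hc
      obtain ⟨k, hk⟩ := hT.1
      have hk3 : k = 0 ∨ k = 1 ∨ k = 2 := by omega
      rcases hk3 with rfl | rfl | rfl
      · have : s = 0 := Multiset.card_eq_zero.1 (by omega)
        rw [this]
        exact hC.zero
      · exfalso
        obtain ⟨a, b, rfl⟩ := Multiset.card_eq_two.1 (show s.card = 2 by omega)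
        exact hp a b le_rfl hT.2
      · have he : s + bars r s = m := by
          apply Multiset.eq_of_le_of_card_le hle
          rw [Multiset.card_add, card_bars]
          omega
        by_cases hss : ∃ z ∈ s, IsSS r z
        · obtain ⟨z, hz, hzs⟩ := hss
          obtain ⟨t, rfl⟩ := Multiset.exists_cons_of_mem hz
          rw [← Multiset.singleton_add, add_comm] at *
          have htss : ∀ a ∈ t, ¬ IsSS r a := by
            intro a ha hass
            apply hp z a _ (bal_ss hzs hass)
            rw [Multiset.insert_eq_cons, ← Multiset.singleton_add, add_comm]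
            exact Multiset.add_le_add_right (Multiset.singleton_le.2 ha)
          have hzw : IsWeil r z := h.weil z (Multiset.mem_of_le hs hz)
          have hred : Red r t := by
            refine ⟨fun a ha => h.weil a (Multiset.mem_of_le hs (Multiset.mem_add.2 (Or.inl ha))), htss,
              fun a b hab => hp a b (hab.trans (Multiset.le_add_right _ _))⟩
          have hbt : Bal r t := Bal.of_add hr hT.2 (bal_singleton.2 hzs)
          have hzbar : IsSS r ((r : L) ^ 2 / z) := isSS_bar hr hzs
          have hfil : m.filter (NSS r) = t + bars r t := by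
            rw [← he, bars_add, Multiset.filter_add, Multiset.filter_add, Multiset.filter_add]
            have f1 : t.filter (NSS r) = t := by
              rw [Multiset.filter_eq_self]
              exact htss
            have f2 : ({z} : Multiset L).filter (NSS r) = 0 := by
              rw [Multiset.filter_eq_nil]
              intro a ha
              rw [Multiset.mem_singleton] at ha
              rw [ha]
              exact fun h' => h' hzs
            have f3 : (bars r t).filter (NSS r) = bars r t := by
              rw [Multiset.filter_eq_self]
              intro a ha h'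
              exact htss _ ((mem_bars hr).1 ha) (isSS_bar hr h')
            have f4 : (bars r {z}).filter (NSS r) = 0 := by
              rw [Multiset.filter_eq_nil]
              intro a ha
              unfold bars at ha
              rw [Multiset.map_singleton, Multiset.mem_singleton] at ha
              rw [ha]
              exact fun h' => h' hzbar
            rw [f1, f2, f3, f4]
            abel
          have hA : IsAV r v (t + bars r t) := by
            rw [← hfil]
            exact h.filter (NSS r) (fun g a => not_congr (isSS_map_iff g))
          have htc : t.card = 3 := by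
            rw [Multiset.card_add, Multiset.card_singleton] at hk
            omega
          have h1 := (ktype_mem hr hv hC hred hbt hA (by omega) (by omega)).2 (by omega)
          exact add_ss hr hC hzw hzs h1
        · push Not at hss
          have hred : Red r s := ⟨fun a ha => h.weil a (Multiset.mem_of_le hs ha), hss, hp⟩
          exact (ktype_mem hr hv hC hred hT.2 (by rw [he]; exact h) (by omega) (by omega)).1 (by omega)

end Pool.Agent.Lib.MP81632f.Mk
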