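import Pool.Agent.Lib.MP_81632f_ag.Mk.Defs

/-! # Classes generated by divisor classes and Weil classes -/

namespace Pool.Agent.Lib.MP81632f.Mk

open NumberField IsDedekindDomain
open scoped Classical

variable {L : Type} [Field L] [NumberField L]

/-- `Gen v r s`: the classes with the multiset `s` of Frobenius eigenvalues over the field with `r ^ 2`
elements are generated by divisor classes and Weil classes.  Divisor classes are the pairs with
balanced product (Tate).  Weil classes live on `B × E₁ × .. × E_k`, `B` given by `m`, with an action of an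
imaginary quadratic field `K` (`χ`, `κ`) and a lift to characteristic zero with CM type `φ`, the `E_i`
elliptic curves with CM by `K`, `j` of them of the first type and `k - j` of the second, `p` not split in
`K` if `k > 0` (so that the `E_i` are supersingular, with eigenvalues `r`, `r`); the total dimension is
`4` and the signature `(2, 2)`, or `k > 0` and they are `6` and `(3, 3)`.  The other rules are products,
removing a divisor class, and extension of the base field. -/
inductive Gen (v : HeightOneSpectrum (𝓞 L)) : ℕ → Multiset L → Prop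
  | zero (r : ℕ) : Gen v r 0
  | pair (r : ℕ) (a b : L) : IsWeil r a → IsWeil r b → Bal r {a, b} → Gen v r {a, b}
  | weil (r : ℕ) (m : Multiset L) (χ : (L ≃ₐ[ℚ] L) →* ℤˣ) (κ : L → ℤˣ) (φ : L → ℕ) (k j : ℕ) :
      IsAV r v m → IsKType r m χ κ → IsLift r v m φ → j ≤ k →
      (0 < k → ∃ d ∈ decomp v, χ d ≠ 1) →
      (m.card + 2 * k = 8 ∧ sig m κ φ + j = 2 ∨ m.card + 2 * k = 12 ∧ 0 < k ∧ sig m κ φ + j = 3) →
      Gen v r (half m κ + Multiset.replicate k (r : L))
  | add (r : ℕ) (s t : Multiset L) : Gen v r s → Gen v r t → Gen v r (s + t)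
  | remove (r : ℕ) (s : Multiset L) (a b : L) : IsWeil r a → IsWeil r b → Bal r {a, b} →
      Gen v r (s + {a, b}) → Gen v r s
  | base (r N : ℕ) (s : Multiset L) : 0 < N → Gen v (r ^ N) (s.map (fun a => a ^ N)) → Gen v r s

/-- The exceptional abelian varieties: some eigenvalues `y`, `g y`, `b` have balanced product, where all
powers of `y` and of `b` have at least four conjugates. -/
def IsExc (r : ℕ) (m : Multiset L) : Prop :=
  ∃ y ∈ m, ∃ b ∈ m, ∃ g : L ≃ₐ[ℚ] L, Bal r {y, g y, b} ∧ ∀ N : ℕ, 0 < N →
    4 ≤ (Finset.univ.image (fun h : L ≃ₐ[ℚ] L => h (y ^ N))).card ∧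
    4 ≤ (Finset.univ.image (fun h : L ≃ₐ[ℚ] L => h (b ^ N))).card

end Pool.Agent.Lib.MP81632f.Mk
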