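import Pool.Agent.Lib.MP_81632f_ag.Mk.Lift

namespace Pool.Agent.Lib.MP81632f.Mk

open NumberField IsDedekindDomain
open scoped Classical

variable {L : Type} [Field L] [NumberField L]

/-- the conjugate multiset -/
noncomputable def bars (r : ℕ) (s : Multiset L) : Multiset L := s.map (fun a => (r : L) ^ 2 / a)

/-- supersingular numbers -/
def IsSS (r : ℕ) (a : L) : Prop := ∃ N : ℕ, 0 < N ∧ a ^ N = (r : L) ^ N

/-- no supersingular element and no divisor class -/
structure Red (r : ℕ) (t : Multiset L) : Prop where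
  weil : ∀ a ∈ t, IsWeil r a
  ss : ∀ a ∈ t, ¬ IsSS r a
  pair : ∀ a b : L, {a, b} ≤ t → ¬ Bal r {a, b}

variable {r : ℕ}

section bal

theorem bal_zero : Bal r (0 : Multiset L) := ⟨1, one_pos, by simp⟩

theorem Bal.add {s t : Multiset L} (hs : Bal r s) (ht : Bal r t) : Bal r (s + t) := by
  obtain ⟨N, hN, h1⟩ := hs
  obtain ⟨M, hM, h2⟩ := ht
  refine ⟨N * M, Nat.mul_pos hN hM, ?_⟩
  rw [Multiset.prod_add, Multiset.card_add]
  calc (s.prod * t.prod) ^ (N * M) = (s.prod ^ N) ^ M * (t.prod ^ M) ^ N := by ring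
    _ = _ := by rw [h1, h2]; ring

theorem Bal.of_add (hr : 0 < r) {s t : Multiset L} (hst : Bal r (s + t)) (ht : Bal r t) : Bal r s := by
  obtain ⟨N, hN, h1⟩ := hst
  obtain ⟨M, hM, h2⟩ := ht
  have h0 : (r : L) ≠ 0 := by exact_mod_cast hr.ne'
  refine ⟨N * M, Nat.mul_pos hN hM, ?_⟩
  rw [Multiset.prod_add, mul_pow, Multiset.card_add] at h1
  have h3 : (s.prod ^ N) ^ M * (t.prod ^ M) ^ N = (r : L) ^ ((s.card + t.card) * N * M) := by
    rw [pow_mul (r : L), ← h1]
    ring
  rw [h2] at h3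
  have h4 : ((r : L) ^ (t.card * M)) ^ N ≠ 0 := pow_ne_zero _ (pow_ne_zero _ h0)
  apply mul_right_cancel₀ h4
  rw [pow_mul s.prod, h3, ← pow_mul, ← pow_add]
  congr 1
  ring

theorem Bal.double {s : Multiset L} (h : Bal r (s + s)) : Bal r s := by
  obtain ⟨N, hN, h1⟩ := h
  refine ⟨2 * N, by omega, ?_⟩
  rw [Multiset.prod_add, Multiset.card_add] at h1
  rw [show s.prod ^ (2 * N) = (s.prod * s.prod) ^ N by ring, h1]
  congr 1
  ring

theorem bal_singleton {a : L} : Bal r {a} ↔ IsSS r a := by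
  unfold Bal IsSS
  simp

theorem Bal.map {s : Multiset L} (h : Bal r s) (g : L ≃ₐ[ℚ] L) : Bal r (s.map g) := by
  obtain ⟨N, hN, h1⟩ := h
  refine ⟨N, hN, ?_⟩
  rw [Multiset.card_map]
  have h2 := congrArg g h1
  rw [map_pow, map_pow, map_natCast] at h2
  rw [← h2]
  congr 1
  exact (map_multiset_prod g s).symm

theorem isSS_map {a : L} (g : L ≃ₐ[ℚ] L) (h : IsSS r a) : IsSS r (g a) := by
  obtain ⟨N, hN, h1⟩ := h
  exact ⟨N, hN, by rw [← map_pow, h1, map_pow, map_natCast]⟩

theorem isSS_map_iff {a : L} (g : L ≃ₐ[ℚ] L) : IsSS r (g a) ↔ IsSS r a := by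
  refine ⟨fun h => ?_, isSS_map g⟩
  have := isSS_map g.symm h
  rwa [AlgEquiv.symm_apply_apply] at this

theorem isSS_bar (hr : 0 < r) {a : L} (h : IsSS r a) : IsSS r ((r : L) ^ 2 / a) := by
  obtain ⟨N, hN, h1⟩ := h
  have h0 : (r : L) ≠ 0 := by exact_mod_cast hr.ne'
  refine ⟨N, hN, ?_⟩
  rw [div_pow, h1]
  field_simp
  ring

theorem isSS_bar_iff (hr : 0 < r) {a : L} (ha : a ≠ 0) : IsSS r ((r : L) ^ 2 / a) ↔ IsSS r a := by
  refine ⟨fun h => ?_, isSS_bar hr⟩
  have := isSS_bar hr h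
  rwa [bar_bar hr ha] at this

/-- exact conjugates form a pair -/
theorem bal_bar (hr : 0 < r) {a : L} (ha : a ≠ 0) : Bal r {a, (r : L) ^ 2 / a} := by
  refine ⟨1, one_pos, ?_⟩
  rw [Multiset.insert_eq_cons, Multiset.prod_cons, Multiset.prod_singleton, Multiset.card_cons,
    Multiset.card_singleton, mul_div_cancel₀ _ ha]
  ring

theorem bal_ss {a b : L} (ha : IsSS r a) (hb : IsSS r b) : Bal r {a, b} := by
  have h := (bal_singleton.2 ha).add (bal_singleton.2 hb)
  rwa [Multiset.singleton_add] at h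

theorem self_ss {a : L} (h : (r : L) ^ 2 / a = a) (ha : a ≠ 0) : IsSS r a := by
  refine ⟨2, by norm_num, ?_⟩
  rw [div_eq_iff ha] at h
  rw [h]
  ring

theorem weil_r (_hr : 0 < r) : IsWeil r (r : L) := by
  refine ⟨?_, fun f => ?_⟩
  · have := isIntegral_algebraMap (R := ℤ) (A := L) (x := (r : ℤ))
    simpa using this
  · rw [map_natCast]
    simp

theorem ss_r : IsSS r (r : L) := ⟨1, one_pos, rfl⟩

end bal

section bars

theorem card_bars (s : Multiset L) : (bars r s).card = s.card := Multiset.card_map _ _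

theorem bars_add (s t : Multiset L) : bars r (s + t) = bars r s + bars r t := Multiset.map_add _ _ _

theorem map_bars (g : L ≃ₐ[ℚ] L) (s : Multiset L) : (bars r s).map g = bars r (s.map g) := by
  unfold bars
  rw [Multiset.map_map, Multiset.map_map]
  apply Multiset.map_congr rfl
  intro a _
  exact map_bar g a

theorem bb (hr : 0 < r) (a : L) : (r : L) ^ 2 / ((r : L) ^ 2 / a) = a := by
  by_cases h : a = 0
  · simp [h]
  · exact bar_bar hr h

theorem bar_injective (hr : 0 < r) : Function.Injective (fun a : L => (r : L) ^ 2 / a) := by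
  intro a b h
  have := congrArg (fun w => (r : L) ^ 2 / w) h
  simpa [bb hr] using this

theorem bars_bars (hr : 0 < r) (s : Multiset L) : bars r (bars r s) = s := by
  unfold bars
  rw [Multiset.map_map]
  conv_rhs => rw [← Multiset.map_id s]
  apply Multiset.map_congr rfl
  intro a _
  exact bb hr a

theorem count_bars (hr : 0 < r) (s : Multiset L) (x : L) :
    (bars r s).count x = s.count ((r : L) ^ 2 / x) := by
  have h1 := Multiset.count_map_eq_count' (fun a : L => (r : L) ^ 2 / a) s (bar_injective hr)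
    ((r : L) ^ 2 / x)
  simp only [bb hr] at h1
  exact h1

theorem mem_bars (hr : 0 < r) {s : Multiset L} {x : L} : x ∈ bars r s ↔ (r : L) ^ 2 / x ∈ s := by
  rw [← Multiset.count_pos, count_bars hr, Multiset.count_pos]

theorem prod_bars {s : Multiset L} (h : ∀ a ∈ s, a ≠ 0) :
    (bars r s).prod * s.prod = (r : L) ^ (2 * s.card) := by
  induction s using Multiset.induction_on with
  | empty => simp [bars]
  | cons a s ih =>
    have ih' := ih (fun b hb => h b (Multiset.mem_cons_of_mem hb))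
    have ha := h a (Multiset.mem_cons_self a s)
    have e : bars r (a ::ₘ s) = ((r : L) ^ 2 / a) ::ₘ bars r s := Multiset.map_cons _ _ _
    rw [e, Multiset.prod_cons, Multiset.prod_cons, Multiset.card_cons]
    calc (r : L) ^ 2 / a * (bars r s).prod * (a * s.prod)
        = ((r : L) ^ 2 / a * a) * ((bars r s).prod * s.prod) := by ring
      _ = _ := by rw [div_mul_cancel₀ _ ha, ih']; ring

theorem Bal.conj {s : Multiset L} (hr : 0 < r) (hs : Bal r s) (h : ∀ a ∈ s, a ≠ 0) :
    Bal r (bars r s) := by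
  obtain ⟨N, hN, h1⟩ := hs
  have h0 : (r : L) ≠ 0 := by exact_mod_cast hr.ne'
  refine ⟨N, hN, ?_⟩
  rw [card_bars]
  have h2 := prod_bars (r := r) h
  have h3 : (Mk.bars r s).prod ^ N * s.prod ^ N = (r : L) ^ (s.card * N) * (r : L) ^ (s.card * N) := by
    rw [← mul_pow, h2]
    ring
  rw [h1] at h3
  exact mul_right_cancel₀ (pow_ne_zero _ h0) h3

/-- if `s + bars t` and `s + t` are balanced then so is `t` -/
theorem Bal.swap (hr : 0 < r) {s t : Multiset L} (h : ∀ a ∈ t, a ≠ 0) (h1 : Bal r (s + t))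
    (h2 : Bal r (s + bars r t)) (hs : ∀ a ∈ s, a ≠ 0) : Bal r t := by
  obtain ⟨N, hN, e1⟩ := h1
  obtain ⟨M, hM, e2⟩ := h2
  have h0 : (r : L) ≠ 0 := by exact_mod_cast hr.ne'
  have hb := prod_bars (r := r) h
  have hsp : s.prod ≠ 0 := by
    rw [Ne, Multiset.prod_eq_zero_iff]
    exact fun h' => hs 0 h' rfl
  rw [Multiset.prod_add, Multiset.card_add] at e1 e2
  rw [card_bars] at e2
  refine ⟨2 * (N * M), by positivity, ?_⟩
  -- (s t)^(NM) = r^.., (s t')^(NM) = r^.. same, so t^(NM) = t'^(NM)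
  have f1 : (s.prod * t.prod) ^ (N * M) = (r : L) ^ ((s.card + t.card) * N * M) := by
    rw [pow_mul, e1, ← pow_mul]
  have f2 : (s.prod * (Mk.bars r t).prod) ^ (N * M) = (r : L) ^ ((s.card + t.card) * N * M) := by
    rw [mul_comm N M, pow_mul, e2, ← pow_mul]
    congr 1
    ring
  have f3 : t.prod ^ (N * M) = (Mk.bars r t).prod ^ (N * M) := by
    have := f1.trans f2.symm
    rw [mul_pow, mul_pow] at this
    exact mul_left_cancel₀ (pow_ne_zero _ hsp) this
  calc t.prod ^ (2 * (N * M)) = t.prod ^ (N * M) * t.prod ^ (N * M) := by ring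
    _ = ((Mk.bars r t).prod * t.prod) ^ (N * M) := by rw [mul_pow, ← f3]
    _ = _ := by rw [hb]; ring

end bars

end Pool.Agent.Lib.MP81632f.Mk
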