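import Pool.Agent.Lib.MP_81632f_ag.Mk.KT

namespace Pool.Agent.Lib.MP81632f.Mk

open NumberField IsDedekindDomain
open scoped Classical

variable {L : Type} [Field L] [NumberField L] {r : ℕ} {t : Multiset L}

theorem Red.ne_zero (hr : 0 < r) (h : Red r t) {a : L} (ha : a ∈ t) : a ≠ 0 :=
  (h.weil a ha).ne_zero hr

theorem Red.mono (h : Red r t) {s : Multiset L} (hs : s ≤ t) : Red r s :=
  ⟨fun a ha => h.weil a (Multiset.mem_of_le hs ha), fun a ha => h.ss a (Multiset.mem_of_le hs ha),
    fun a b hab => h.pair a b (hab.trans hs)⟩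

theorem Red.bar_notMem (hr : 0 < r) (h : Red r t) {a : L} (ha : a ∈ t) : (r : L) ^ 2 / a ∉ t := by
  intro hb
  have h0 := h.ne_zero hr ha
  by_cases he : (r : L) ^ 2 / a = a
  · exact h.ss a ha (self_ss he h0)
  · apply h.pair a ((r : L) ^ 2 / a) _ (bal_bar hr h0)
    rw [Multiset.insert_eq_cons, Multiset.cons_le_of_notMem]
    · exact ⟨ha, Multiset.singleton_le.2 hb⟩
    · rw [Multiset.mem_singleton]
      exact fun h' => he h'.symm

theorem Red.notMem_bars (hr : 0 < r) (h : Red r t) {a : L} (ha : a ∈ t) : a ∉ bars r t := by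
  rw [mem_bars hr]
  exact h.bar_notMem hr ha

theorem Red.notMem_of_bars (hr : 0 < r) (h : Red r t) {a : L} (ha : a ∈ bars r t) : a ∉ t :=
  fun h' => h.notMem_bars hr h' ha

theorem Red.small (h : Red r t) (hb : Bal r t) (hc : t.card ≤ 2) : t = 0 := by
  rcases Nat.lt_or_ge 0 t.card with h1 | h1
  · exfalso
    rcases Nat.lt_or_ge 1 t.card with h2 | h2
    · have h3 : t.card = 2 := by omega
      obtain ⟨a, b, rfl⟩ := Multiset.card_eq_two.1 h3
      exact h.pair a b le_rfl hb
    · have h3 : t.card = 1 := by omega
      obtain ⟨a, rfl⟩ := Multiset.card_eq_one.1 h3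
      exact h.ss a (Multiset.mem_singleton_self a) (bal_singleton.1 hb)
  · exact Multiset.card_eq_zero.1 (by omega)

/-- small balanced multisets without supersingular elements and pairs are of `K`-type -/
theorem ktype (hr : 0 < r) (h : Red r t) (hb : Bal r t) (hc : t.card ≤ 5)
    (hG : ∀ g : L ≃ₐ[ℚ] L, (t + bars r t).map g = t + bars r t) (g : L ≃ₐ[ℚ] L) :
    t.map g = t ∨ t.map g = bars r t := by
  have hcount : ∀ a, t.count a + (bars r t).count a = (t.map g).count a + (bars r (t.map g)).count a := by
    intro a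
    have h1 := congrArg (Multiset.count a) (hG g)
    rw [Multiset.map_add, map_bars, Multiset.count_add, Multiset.count_add] at h1
    exact h1.symm
  have hin : ∀ a ∈ t, t.count a = (t.map g).count a + (bars r (t.map g)).count a := by
    intro a ha
    have h1 := hcount a
    rw [Multiset.count_eq_zero_of_notMem (h.notMem_bars hr ha)] at h1
    omega
  have e1 : t ∩ t.map g + t ∩ bars r (t.map g) = t := by
    ext a
    rw [Multiset.count_add, Multiset.count_inter, Multiset.count_inter]
    by_cases ha : a ∈ t
    · have := hin a ha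
      omega
    · rw [Multiset.count_eq_zero_of_notMem ha]
      omega
  have e2 : t.map g = t ∩ t.map g + bars r (t ∩ bars r (t.map g)) := by
    ext a
    rw [Multiset.count_add, count_bars hr, Multiset.count_inter, Multiset.count_inter, count_bars hr,
      bb hr]
    by_cases ha : a ∈ t
    · have h1 := hin a ha
      rw [Multiset.count_eq_zero_of_notMem (h.bar_notMem hr ha)]
      omega
    · by_cases hb' : (r : L) ^ 2 / a ∈ t
      · have h1 := hin _ hb'
        rw [count_bars hr, bb hr] at h1
        rw [Multiset.count_eq_zero_of_notMem ha]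
        omega
      · have h1 := hcount a
        rw [count_bars hr, count_bars hr, Multiset.count_eq_zero_of_notMem ha,
          Multiset.count_eq_zero_of_notMem hb'] at h1
        rw [Multiset.count_eq_zero_of_notMem ha, Multiset.count_eq_zero_of_notMem hb']
        omega
  have hle1 : t ∩ t.map g ≤ t := Multiset.inter_le_left
  have hle2 : t ∩ bars r (t.map g) ≤ t := Multiset.inter_le_left
  have b2 : Bal r (t ∩ bars r (t.map g)) := by
    apply Bal.swap hr (s := t ∩ t.map g)
    · exact fun a ha => h.ne_zero hr (Multiset.mem_of_le hle2 ha)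
    · rw [e1]; exact hb
    · rw [← e2]; exact hb.map g
    · exact fun a ha => h.ne_zero hr (Multiset.mem_of_le hle1 ha)
  have b1 : Bal r (t ∩ t.map g) := by
    apply Bal.of_add hr _ b2
    rw [e1]; exact hb
  have hcard := congrArg Multiset.card e1
  rw [Multiset.card_add] at hcard
  by_cases hsm : (t ∩ bars r (t.map g)).card ≤ 2
  · have h0 := (h.mono hle2).small b2 hsm
    rw [h0, add_zero] at e1
    left
    rw [h0] at e2
    rw [e2, e1]
    simp [bars]
  · have h0 := (h.mono hle1).small b1 (by omega)
    rw [h0, zero_add] at e1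
    right
    rw [h0, zero_add, e1] at e2
    exact e2

/-- the character of `K` -/
noncomputable def chi (hr : 0 < r) (t : Multiset L)
    (h : ∀ g : L ≃ₐ[ℚ] L, t.map g = t ∨ t.map g = bars r t) (hne : t ≠ bars r t) :
    (L ≃ₐ[ℚ] L) →* ℤˣ where
  toFun g := if t.map g = t then 1 else -1
  map_one' := by
    have : t.map (1 : L ≃ₐ[ℚ] L) = t := by
      conv_rhs => rw [← Multiset.map_id t]
      rfl
    rw [if_pos this]
  map_mul' g k := by
    have e : t.map (g * k : L ≃ₐ[ℚ] L) = (t.map k).map g := by
      rw [Multiset.map_map]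
      rfl
    rw [e]
    rcases h k with hk | hk
    · rw [hk, if_pos rfl, mul_one]
    · have hn : ¬ bars r t = t := fun h' => hne h'.symm
      rw [hk, map_bars]
      rcases h g with hg | hg
      · rw [hg, if_neg hn, if_pos rfl, one_mul]
      · rw [hg, bars_bars hr, if_pos rfl, if_neg hn]
        decide

/-- the embedding of `K` -/
noncomputable def kap (t : Multiset L) (a : L) : ℤˣ := if a ∈ t then 1 else -1

theorem kap_pos {a : L} (h : a ∈ t) : kap t a = 1 := if_pos h
theorem kap_neg {a : L} (h : a ∉ t) : kap t a = -1 := if_neg h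

theorem isKType (hr : 0 < r) (h : Red r t)
    (hg : ∀ g : L ≃ₐ[ℚ] L, t.map g = t ∨ t.map g = bars r t) (hne : t ≠ bars r t) :
    IsKType r (t + bars r t) (chi hr t hg hne) (kap t) where
  equivariant g a ha := by
    have hchi : chi hr t hg hne g = if t.map g = t then 1 else -1 := rfl
    rw [hchi]
    rcases Multiset.mem_add.1 ha with ha | ha
    · rw [kap_pos ha, mul_one]
      have h1 : g a ∈ t.map g := Multiset.mem_map_of_mem _ ha
      by_cases hc : t.map g = t
      · rw [if_pos hc]
        rw [hc] at h1
        exact kap_pos h1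
      · rw [if_neg hc]
        rw [(hg g).resolve_left hc] at h1
        exact kap_neg (h.notMem_of_bars hr h1)
    · rw [kap_neg (h.notMem_of_bars hr ha)]
      have h1 : g ((r : L) ^ 2 / a) ∈ t.map g := Multiset.mem_map_of_mem _ ((mem_bars hr).1 ha)
      rw [map_bar] at h1
      by_cases hc : t.map g = t
      · rw [if_pos hc]
        rw [hc, ← mem_bars hr] at h1
        rw [kap_neg (h.notMem_of_bars hr h1)]
        decide
      · rw [if_neg hc]
        rw [(hg g).resolve_left hc, mem_bars hr, bb hr] at h1
        rw [kap_pos h1]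
        decide
  conj a ha := by
    rcases Multiset.mem_add.1 ha with ha | ha
    · rw [kap_pos ha, kap_neg (h.bar_notMem hr ha)]
    · rw [kap_neg (h.notMem_of_bars hr ha), kap_pos ((mem_bars hr).1 ha)]
      decide

theorem half_eq (hr : 0 < r) (h : Red r t) : half (t + bars r t) (kap t) = t := by
  unfold half
  rw [Multiset.filter_add]
  have e1 : t.filter (fun a => kap t a = 1) = t := by
    rw [Multiset.filter_eq_self]
    exact fun a ha => kap_pos ha
  have e2 : (bars r t).filter (fun a => kap t a = 1) = 0 := by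
    rw [Multiset.filter_eq_nil]
    intro a ha h'
    rw [kap_neg (h.notMem_of_bars hr ha)] at h'
    exact absurd h' (by decide)
  rw [e1, e2, add_zero]

theorem remove_rr {v : HeightOneSpectrum (𝓞 L)} {C : Set (Multiset L)} (hr : 0 < r)
    (hC : CycleFamily r v C) {s : Multiset L} (h : s + {(r : L), (r : L)} ∈ C) : s ∈ C :=
  hC.remove s _ _ (weil_r hr) (weil_r hr) (bal_ss ss_r ss_r) h

variable [IsGalois ℚ L] {v : HeightOneSpectrum (𝓞 L)}

/-- **Classes of `K`-type with at most five elements are algebraic.** -/
theorem ktype_mem {C : Set (Multiset L)} (hr : 0 < r) (hv : 0 < ord v (r : L))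
    (hC : CycleFamily r v C) (h : Red r t) (hb : Bal r t) (hA : IsAV r v (t + bars r t))
    (hc : 3 ≤ t.card) (hc' : t.card ≤ 5) :
    (t.card = 4 → t ∈ C) ∧ (t.card ≠ 4 → t + {(r : L)} ∈ C) := by
  have hg := fun g => ktype hr h hb hc' hA.galois g
  have hne : t ≠ bars r t := by
    intro he
    have hpos : 0 < t.card := by omega
    obtain ⟨a, ha⟩ := Multiset.card_pos_iff_exists_mem.1 hpos
    exact h.notMem_bars hr ha (he ▸ ha)
  have hk := isKType hr h hg hne
  have hhalf := half_eq hr h
  obtain ⟨φ, hφ, hns⟩ := exists_lift hr hv hA hk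
  rw [hhalf] at hns
  have hcard : (t + bars r t).card = 2 * t.card := by
    rw [Multiset.card_add, card_bars]; ring
  by_cases hsp : ∃ d ∈ decomp v, chi hr t hg hne d ≠ 1
  · have hd := hns hsp
    rw [abs_le] at hd
    have w := fun k j => hC.weil (t + bars r t) (chi hr t hg hne) (kap t) φ k j hA hk hφ
    rw [hhalf, hcard] at w
    constructor
    · intro h4
      have h5 := w 2 (3 - sig (t + bars r t) (kap t) φ) (by omega) (fun _ => hsp)
        (Or.inr ⟨by omega, by norm_num, by omega⟩)
      exact remove_rr hr hC h5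
    · intro h4
      rcases Nat.lt_or_ge t.card 4 with h3 | h3
      · have h5 := w 1 (2 - sig (t + bars r t) (kap t) φ) (by omega) (fun _ => hsp)
          (Or.inl ⟨by omega, by omega⟩)
        exact h5
      · have h5 := w 1 (3 - sig (t + bars r t) (kap t) φ) (by omega) (fun _ => hsp)
          (Or.inr ⟨by omega, by norm_num, by omega⟩)
        exact h5
  · have hsp' : ∀ d ∈ decomp v, chi hr t hg hne d = 1 := by
      intro d hd
      by_contra hne'
      exact hsp ⟨d, hd, hne'⟩
    have h2 := sig_split hA hr hv hk hφ hsp' (by rw [hhalf]; exact hb)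
    rw [hhalf] at h2
    constructor
    · intro h4
      have h5 := hC.weil (t + bars r t) (chi hr t hg hne) (kap t) φ 0 0 hA hk hφ le_rfl
        (fun h' => absurd h' (lt_irrefl 0)) (Or.inl ⟨by omega, by omega⟩)
      rw [hhalf, Multiset.replicate_zero, add_zero] at h5
      exact h5
    · intro h4
      omega

end Pool.Agent.Lib.MP81632f.Mk
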