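import Pool.Agent.Lib.MP_81632f_ag.Mk.Four

/-! # Weil numbers with the same slopes differ by a root of unity (Kronecker) -/

namespace Pool.Agent.Lib.MP81632f.Mk

open NumberField IsDedekindDomain
open scoped Classical Pointwise

variable {L : Type} [Field L] [NumberField L]

theorem smul_pow_ideal (g : L ≃ₐ[ℚ] L) (I : Ideal (𝓞 L)) (n : ℕ) : (g • I) ^ n = g • (I ^ n) :=
  (smul_pow' g I n).symm

theorem ord_coe (v : HeightOneSpectrum (𝓞 L)) (a : 𝓞 L) :
    ord v (a : L) = -WithZero.log (v.intValuation a) := by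
  unfold ord
  have h : v.valuation L (a : L) = v.intValuation a := v.valuation_of_algebraMap a
  rw [h]

theorem le_ord_iff (v : HeightOneSpectrum (𝓞 L)) {a : 𝓞 L} (ha : a ≠ 0) (n : ℕ) :
    (n : ℤ) ≤ ord v (a : L) ↔ a ∈ v.asIdeal ^ n := by
  rw [ord_coe, ← v.intValuation_le_pow_iff_mem]
  have h0 : v.intValuation a ≠ 0 := v.intValuation_ne_zero a ha
  rw [← WithZero.exp_log h0, WithZero.exp_le_exp, WithZero.log_exp]
  constructor <;> intro h <;> omega

/-- equality of orders at a conjugate prime -/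
theorem ord_eq_of_smul {v w : HeightOneSpectrum (𝓞 L)} {g : L ≃ₐ[ℚ] L}
    (hw : w.asIdeal = g • v.asIdeal) {a b : 𝓞 L} (ha : a ≠ 0) (hb : b ≠ 0)
    (h : ord v (g⁻¹ (a : L)) = ord v (g⁻¹ (b : L))) : ord w (a : L) = ord w (b : L) := by
  have key : ∀ (x : 𝓞 L), x ≠ 0 → ∀ n : ℕ, ((n : ℤ) ≤ ord w (x : L) ↔ (n : ℤ) ≤ ord v (g⁻¹ (x : L))) := by
    intro x hx n
    rw [le_ord_iff w hx, hw, smul_pow_ideal]
    have h1 : (g⁻¹ • x : 𝓞 L) ≠ 0 := by
      intro h'
      apply hx
      have := congrArg (fun y => g • y) h'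
      simpa using this
    have h2 : ((g⁻¹ • x : 𝓞 L) : L) = g⁻¹ (x : L) := rfl
    rw [← h2, le_ord_iff v h1]
    rw [← Ideal.smul_mem_pointwise_smul_iff (a := g) (x := g⁻¹ • x), smul_inv_smul]
  have na : 0 ≤ ord w (a : L) := ord_nonneg w a.2
  have nb : 0 ≤ ord w (b : L) := ord_nonneg w b.2
  have k1 := key a ha (ord w (a : L)).toNat
  have k2 := key b hb (ord w (b : L)).toNat
  have k3 := key a ha (ord w (b : L)).toNat
  have k4 := key b hb (ord w (a : L)).toNat
  rw [Int.toNat_of_nonneg na] at k1 k4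
  rw [Int.toNat_of_nonneg nb] at k2 k3
  apply le_antisymm
  · rw [k4, ← h]
    exact k1.1 le_rfl
  · rw [k3, h]
    exact k2.1 le_rfl

variable {p e r : ℕ}

/-- Weil numbers are units outside `p` -/
theorem IsWeil.ord_zero [IsGalois ℚ L] (hr : r = p ^ e) (hp : p.Prime) {w : HeightOneSpectrum (𝓞 L)}
    (hw : (p : 𝓞 L) ∉ w.asIdeal) {a : L} (ha : IsWeil r a) : ord w a = 0 := by
  have hr0 : 0 < r := by rw [hr]; exact pow_pos hp.pos e
  have hb := ha.conj hr0
  have h0 := ha.ne_zero hr0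
  have h1 := ord_nonneg w ha.1
  have h2 := ord_nonneg w hb.1
  rw [ord_bar hr0 h0, ord_q hr0] at h2
  have hp0 : ((p : ℕ) : L) ≠ 0 := by exact_mod_cast hp.ne_zero
  have h3 : ord w ((p : ℕ) : L) = 0 := by
    have e1 : (((p : ℕ) : 𝓞 L) : L) = ((p : ℕ) : L) := by simp
    have e2 : ((p : ℕ) : 𝓞 L) ≠ 0 := by exact_mod_cast hp.ne_zero
    have e3 : 0 ≤ ord w (((p : ℕ) : 𝓞 L) : L) := ord_nonneg w ((p : ℕ) : 𝓞 L).2
    have e4 := le_ord_iff w e2 1
    rw [pow_one] at e4
    rw [← e1]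
    have e5 : ¬ ((1 : ℕ) : ℤ) ≤ ord w (((p : ℕ) : 𝓞 L) : L) := fun h' => hw (e4.1 h')
    rw [Nat.cast_one] at e5
    omega
  have h4 : ord w (r : L) = 0 := by
    rw [hr]
    push_cast
    rw [ord_pow w hp0, h3]
    simp
  omega

/-- **Kronecker.** -/
theorem root_of_ord [IsGalois ℚ L] (hr : r = p ^ e) (hp : p.Prime) {v : HeightOneSpectrum (𝓞 L)}
    (hv : (p : 𝓞 L) ∈ v.asIdeal) {a b : L} (ha : IsWeil r a) (hb : IsWeil r b)
    (h : ∀ g : L ≃ₐ[ℚ] L, ord v (g a) = ord v (g b)) : ∃ N : ℕ, 0 < N ∧ a ^ N = b ^ N := by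
  have hr0 : 0 < r := by rw [hr]; exact pow_pos hp.pos e
  have ha0 := ha.ne_zero hr0
  have hb0 := hb.ne_zero hr0
  have hall : ∀ w : HeightOneSpectrum (𝓞 L), ord w a = ord w b := by
    intro w
    by_cases hw : (p : 𝓞 L) ∈ w.asIdeal
    · have hunder : v.asIdeal.under ℤ = w.asIdeal.under ℤ := by
        have hpz : Prime (p : ℤ) := Nat.prime_iff_prime_int.1 hp
        have hmax : (Ideal.span {(p : ℤ)}).IsMaximal :=
          PrincipalIdealRing.isMaximal_of_irreducible hpz.irreducible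
        have k : ∀ u : HeightOneSpectrum (𝓞 L), (p : 𝓞 L) ∈ u.asIdeal →
            Ideal.span {(p : ℤ)} = u.asIdeal.under ℤ := by
          intro u hu
          have hne : u.asIdeal.under ℤ ≠ ⊤ := by
            have := u.isPrime
            exact (inferInstance : (u.asIdeal.under ℤ).IsPrime).ne_top
          apply hmax.eq_of_le hne
          rw [Ideal.span_le, Set.singleton_subset_iff]
          show (p : ℤ) ∈ u.asIdeal.under ℤ
          rw [Ideal.mem_comap]
          simpa using hu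
        rw [← k v hv, ← k w hw]
      have := v.isPrime
      have := w.isPrime
      obtain ⟨g, hg⟩ := Algebra.IsInvariant.exists_smul_of_under_eq ℤ (𝓞 L) (L ≃ₐ[ℚ] L)
        v.asIdeal w.asIdeal hunder
      have ea : (⟨a, ha.1⟩ : 𝓞 L) ≠ 0 := by
        intro h'
        exact ha0 (congrArg Subtype.val h')
      have eb : (⟨b, hb.1⟩ : 𝓞 L) ≠ 0 := by
        intro h'
        exact hb0 (congrArg Subtype.val h')
      have h7 := ord_eq_of_smul (a := (⟨a, ha.1⟩ : 𝓞 L)) (b := (⟨b, hb.1⟩ : 𝓞 L)) hg ea eb (h g⁻¹)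
      exact h7
    · rw [ha.ord_zero hr hp hw, hb.ord_zero hr hp hw]
  have hint : IsIntegral ℤ (a / b) := by
    have h1 : a / b ∈ (algebraMap (𝓞 L) L).range := by
      apply HeightOneSpectrum.mem_integers_of_valuation_le_one L
      intro w
      have h2 := hall w
      have h3 := ord_div w ha0 hb0
      rw [h2, sub_self] at h3
      unfold ord at h3
      have h4 : w.valuation L (a / b) ≠ 0 := (Valuation.ne_zero_iff _).2 (div_ne_zero ha0 hb0)
      have h5 : WithZero.log (w.valuation L (a / b)) = 0 := by omega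
      rw [← WithZero.exp_log h4, h5]
      exact le_of_eq WithZero.exp_zero
    obtain ⟨x, hx⟩ := h1
    rw [← hx]
    exact x.2
  obtain ⟨N, hN, h1⟩ := NumberField.Embeddings.pow_eq_one_of_norm_eq_one L ℂ hint (by
    intro f
    rw [map_div₀, norm_div, ha.2 f, hb.2 f]
    have : (r : ℝ) ≠ 0 := by positivity
    exact div_self this)
  refine ⟨N, hN, ?_⟩
  rw [div_pow, div_eq_one_iff_eq (pow_ne_zero _ hb0)] at h1
  exact h1

end Pool.Agent.Lib.MP81632f.Mk
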