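import Pool.Agent.Lib.MP_81632f_ag.Mk.Sel2

namespace Pool.Agent.Lib.MP81632f.Mk.Sel

open scoped Classical

variable {α : Type} {O : α → Finset α} {bar : α → α} {κ : α → ℤˣ} {μ N : α → ℕ} {V : Finset α} {d : α → α}

/-- self-conjugate type -/
theorem step_self (h : Sys O bar κ μ N V) (hd : Flip O bar κ d V) {a : α} (ha : a ∈ V)
    (hp : bar a ∈ O a) :
    ∃ ψ : α → ℕ, Good O bar μ N (O a) ψ ∧ |dev κ μ (O a) ψ| ≤ 2 := by
  have hc := Flip.card_eq h hd ha
  have hs := card_split (O a) κ
  obtain ⟨f, hf, hsum⟩ := exists_fun_sum (μ a) ((O a).filter (fun x => κ x = 1))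
    ((((O a).filter (fun x => κ x = 1)).card * μ a) / 2) (Nat.div_le_self _ _)
  have hbarO : ∀ x ∈ O a, bar x ∈ O a := by
    intro x hx
    have h1 : O (bar a) = O a := h.eq a ha _ hp
    rw [← h1, h.orbbar a ha]
    exact Finset.mem_image_of_mem _ hx
  have hN : N a = ((O a).filter (fun x => κ x = 1)).card * μ a := by
    have h1 := h.total a ha
    have h2 := h.num a ha _ hp
    rw [h2] at h1
    have h3 : μ a * (O a).card = 2 * (((O a).filter (fun x => κ x = 1)).card * μ a) := by
      rw [← hs, ← hc]; ring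
    omega
  have hpos : ∀ x ∈ (O a).filter (fun x => κ x = 1),
      (if κ x = 1 then f x else μ a - f (bar x)) = f x := by
    intro x hx
    rw [if_pos (Finset.mem_filter.1 hx).2]
  have hneg : ∑ x ∈ (O a).filter (fun x => ¬ κ x = 1), (if κ x = 1 then f x else μ a - f (bar x)) =
      ∑ x ∈ (O a).filter (fun x => κ x = 1), (μ a - f x) := by
    refine Finset.sum_bij (fun x _ => bar x) ?_ ?_ ?_ ?_
    · intro x hx
      rw [Finset.mem_filter] at hx ⊢
      refine ⟨hbarO x hx.1, ?_⟩
      rw [h.kap x (h.mem a ha x hx.1)]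
      rcases kap_cases (κ x) with h3 | h3
      · exact absurd h3 hx.2
      · rw [h3]; decide
    · intro x hx y hy hxy
      rw [Finset.mem_filter] at hx hy
      exact h.bar_inj (h.mem a ha x hx.1) (h.mem a ha y hy.1) hxy
    · intro y hy
      rw [Finset.mem_filter] at hy
      refine ⟨bar y, ?_, h.barbar y (h.mem a ha y hy.1)⟩
      rw [Finset.mem_filter]
      refine ⟨hbarO y hy.1, ?_⟩
      rw [h.kap y (h.mem a ha y hy.1)]
      exact neg_ne_one_units hy.2
    · intro x hx
      rw [if_neg (Finset.mem_filter.1 hx).2]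
  have hneg2 : ∑ x ∈ (O a).filter (fun x => κ x = 1), (μ a - f x) +
      ∑ x ∈ (O a).filter (fun x => κ x = 1), f x = ((O a).filter (fun x => κ x = 1)).card * μ a := by
    rw [← Finset.sum_add_distrib]
    have : ∀ x ∈ (O a).filter (fun x => κ x = 1), μ a - f x + f x = μ a := by
      intro x _
      have := hf x
      omega
    rw [Finset.sum_congr rfl this, Finset.sum_const, smul_eq_mul]
  refine ⟨fun x => if κ x = 1 then f x else μ a - f (bar x), ⟨?_, ?_⟩, ?_⟩
  · intro x hx
    have hxV := h.mem a ha x hx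
    show (if κ x = 1 then f x else μ a - f (bar x)) +
      (if κ (bar x) = 1 then f (bar x) else μ a - f (bar (bar x))) = μ x
    rw [h.barbar x hxV, h.kap x hxV, h.mu a ha x hx]
    have h1 := hf x
    have h2 := hf (bar x)
    rcases kap_cases (κ x) with h3 | h3
    · rw [h3, if_pos rfl, if_neg (by decide)]
      omega
    · rw [h3, if_neg (by decide), if_pos (by decide)]
      omega
  · intro x hx
    rw [h.eq a ha x hx, h.num a ha x hx, ← sum_filter_split (O a) κ, hneg,
      Finset.sum_congr rfl hpos, hN, ← hneg2]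
    ring
  · unfold dev
    have f1 : ∑ x ∈ (O a).filter (fun x => κ x = 1),
        ((if κ x = 1 then f x else μ a - f (bar x) : ℕ) : ℤ) =
        (((((O a).filter (fun x => κ x = 1)).card * μ a) / 2 : ℕ) : ℤ) := by
      rw [← hsum, Nat.cast_sum]
      apply Finset.sum_congr rfl
      intro x hx
      rw [if_pos (Finset.mem_filter.1 hx).2]
    have f3 : ∑ x ∈ (O a).filter (fun x => κ x = 1), (μ x : ℤ) =
        ((((O a).filter (fun x => κ x = 1)).card * μ a : ℕ) : ℤ) := by
      rw [Finset.sum_congr rfl (fun x hx => by rw [h.mu a ha x (Finset.mem_filter.1 hx).1]),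
        Finset.sum_const, nsmul_eq_mul]
      push_cast
      rfl
    rw [f1, f3, abs_le]
    constructor <;> omega

theorem Sys.sub (h : Sys O bar κ μ N V) {W : Finset α} (hW : W ⊆ V)
    (h1 : ∀ a ∈ W, ∀ b ∈ O a, b ∈ W) (h2 : ∀ a ∈ W, bar a ∈ W) : Sys O bar κ μ N W :=
  ⟨fun a ha => h.self a (hW ha), h1, fun a ha => h.eq a (hW ha), h2, fun a ha => h.barbar a (hW ha),
    fun a ha => h.orbbar a (hW ha), fun a ha => h.mu a (hW ha), fun a ha => h.mubar a (hW ha),
    fun a ha => h.num a (hW ha), fun a ha => h.total a (hW ha), fun a ha => h.kap a (hW ha)⟩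

theorem Flip.sub (h : Flip O bar κ d V) {W : Finset α} (hW : W ⊆ V) : Flip O bar κ d W :=
  ⟨fun a ha => h.mem a (hW ha), fun a ha => h.kap a (hW ha), fun a ha => h.bar a (hW ha),
    fun a ha b hb => h.inj a (hW ha) b (hW hb)⟩

/-- both types -/
theorem step (h : Sys O bar κ μ N V) (hF : Flip O bar κ d V ∨ ∀ a ∈ V, ∀ b ∈ O a, κ b = κ a)
    {a : α} (ha : a ∈ V) :
    ∃ ψ : α → ℕ, Good O bar μ N (O a ∪ O (bar a)) ψ ∧
      (Flip O bar κ d V → |dev κ μ (O a ∪ O (bar a)) ψ| ≤ 2) := by
  by_cases hp : bar a ∈ O a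
  · rcases hF with hd | hs
    · have h1 : O (bar a) = O a := h.eq a ha _ hp
      rw [h1, Finset.union_self]
      obtain ⟨ψ, g1, g2⟩ := step_self h hd ha hp
      exact ⟨ψ, g1, fun _ => g2⟩
    · exfalso
      have h1 := hs a ha _ hp
      rw [h.kap a ha] at h1
      rcases kap_cases (κ a) with h3 | h3
      · rw [h3] at h1; exact absurd h1 (by decide)
      · rw [h3] at h1; exact absurd h1 (by decide)
  · exact step_pair h ha hp

theorem dev_union {W₁ W₂ : Finset α} (hdis : Disjoint W₁ W₂) (φ : α → ℕ) :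
    dev κ μ (W₁ ∪ W₂) φ = dev κ μ W₁ φ + dev κ μ W₂ φ := by
  unfold dev
  rw [Finset.filter_union, Finset.sum_union (Finset.disjoint_filter_filter hdis),
    Finset.sum_union (Finset.disjoint_filter_filter hdis)]
  ring

theorem dev_congr {W : Finset α} {φ ψ : α → ℕ} (h : ∀ x ∈ W, φ x = ψ x) :
    dev κ μ W φ = dev κ μ W ψ := by
  unfold dev
  rw [Finset.sum_congr rfl (fun x hx => by rw [h x (Finset.mem_filter.1 hx).1])]

/-- **Balanced selection.** -/
theorem exists_good (n : ℕ) : ∀ V : Finset α, V.card = n → Sys O bar κ μ N V →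
    (Flip O bar κ d V ∨ ∀ a ∈ V, ∀ b ∈ O a, κ b = κ a) →
    ∃ φ : α → ℕ, Good O bar μ N V φ ∧ (Flip O bar κ d V → |dev κ μ V φ| ≤ 2) := by
  induction n using Nat.strong_induction_on with
  | _ n ih =>
    intro V hn h hF
    by_cases hV : V.Nonempty
    · obtain ⟨a, ha⟩ := hV
      have hΩ : O a ∪ O (bar a) ⊆ V := by
        intro x hx
        rcases Finset.mem_union.1 hx with hx | hx
        · exact h.mem a ha x hx
        · exact h.mem _ (h.barmem a ha) x hx
      have hcl : ∀ x ∈ O a ∪ O (bar a), (∀ b ∈ O x, b ∈ O a ∪ O (bar a)) ∧ bar x ∈ O a ∪ O (bar a) := by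
        intro x hx
        rcases Finset.mem_union.1 hx with hx | hx
        · refine ⟨fun b hb => ?_, ?_⟩
          · rw [h.eq a ha x hx] at hb
            exact Finset.mem_union_left _ hb
          · apply Finset.mem_union_right
            rw [h.orbbar a ha]
            exact Finset.mem_image_of_mem _ hx
        · refine ⟨fun b hb => ?_, ?_⟩
          · rw [h.eq _ (h.barmem a ha) x hx] at hb
            exact Finset.mem_union_right _ hb
          · apply Finset.mem_union_left
            rw [h.orbbar a ha] at hx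
            obtain ⟨y, hy, rfl⟩ := Finset.mem_image.1 hx
            rw [h.barbar y (h.mem a ha y hy)]
            exact hy
      have hcl' : ∀ x ∈ V \ (O a ∪ O (bar a)), (∀ b ∈ O x, b ∈ V \ (O a ∪ O (bar a))) ∧
          bar x ∈ V \ (O a ∪ O (bar a)) := by
        intro x hx
        rw [Finset.mem_sdiff] at hx
        refine ⟨fun b hb => ?_, ?_⟩
        · rw [Finset.mem_sdiff]
          refine ⟨h.mem x hx.1 b hb, fun hb' => hx.2 ?_⟩
          have := (hcl b hb').1 x (by rw [h.eq x hx.1 b hb]; exact h.self x hx.1)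
          exact this
        · rw [Finset.mem_sdiff]
          refine ⟨h.barmem x hx.1, fun hb' => hx.2 ?_⟩
          have := (hcl _ hb').2
          rwa [h.barbar x hx.1] at this
      have hcard : (V \ (O a ∪ O (bar a))).card < n := by
        rw [← hn]
        apply Finset.card_lt_card
        refine ⟨Finset.sdiff_subset, fun hsub => ?_⟩
        have := hsub ha
        rw [Finset.mem_sdiff] at this
        exact this.2 (Finset.mem_union_left _ (h.self a ha))
      have hsubV : V \ (O a ∪ O (bar a)) ⊆ V := Finset.sdiff_subset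
      have h' : Sys O bar κ μ N (V \ (O a ∪ O (bar a))) :=
        h.sub hsubV (fun x hx => (hcl' x hx).1) (fun x hx => (hcl' x hx).2)
      have hF' : Flip O bar κ d (V \ (O a ∪ O (bar a))) ∨
          ∀ x ∈ V \ (O a ∪ O (bar a)), ∀ b ∈ O x, κ b = κ x := by
        rcases hF with hd | hs
        · exact Or.inl (hd.sub hsubV)
        · exact Or.inr (fun x hx => hs x (hsubV hx))
      obtain ⟨φ', g1, g2⟩ := ih _ hcard _ rfl h' hF'
      obtain ⟨ψ, k1, k2⟩ := step (d := d) h hF ha
      have hΩs : Sys O bar κ μ N (O a ∪ O (bar a)) :=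
        h.sub hΩ (fun x hx => (hcl x hx).1) (fun x hx => (hcl x hx).2)
      -- choose the sign
      have hsign : ∃ ψ : α → ℕ, Good O bar μ N (O a ∪ O (bar a)) ψ ∧
          (Flip O bar κ d V → |dev κ μ (V \ (O a ∪ O (bar a))) φ' + dev κ μ (O a ∪ O (bar a)) ψ| ≤ 2) := by
        by_cases hd : Flip O bar κ d V
        · have b1 := g2 (hd.sub hsubV)
          have b2 := k2 hd
          obtain ⟨q1, q2⟩ := flip_good hΩs (hd.sub hΩ) k1
          rw [abs_le] at b1 b2
          by_cases hs1 : 0 ≤ dev κ μ (V \ (O a ∪ O (bar a))) φ'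
          · by_cases hs2 : 0 ≤ dev κ μ (O a ∪ O (bar a)) ψ
            · refine ⟨_, q1, fun _ => ?_⟩
              rw [q2, abs_le]
              constructor <;> omega
            · refine ⟨_, k1, fun _ => ?_⟩
              rw [abs_le]
              constructor <;> omega
          · by_cases hs2 : 0 ≤ dev κ μ (O a ∪ O (bar a)) ψ
            · refine ⟨_, k1, fun _ => ?_⟩
              rw [abs_le]
              constructor <;> omega
            · refine ⟨_, q1, fun _ => ?_⟩
              rw [q2, abs_le]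
              constructor <;> omega
        · exact ⟨ψ, k1, fun h' => absurd h' hd⟩
      obtain ⟨ψ, k1, k2⟩ := hsign
      refine ⟨fun x => if x ∈ O a ∪ O (bar a) then ψ x else φ' x, ⟨fun x hx => ?_, fun x hx => ?_⟩,
        fun hd => ?_⟩
      · by_cases hxΩ : x ∈ O a ∪ O (bar a)
        · show (if x ∈ O a ∪ O (bar a) then ψ x else φ' x) +
            (if bar x ∈ O a ∪ O (bar a) then ψ (bar x) else φ' (bar x)) = μ x
          rw [if_pos hxΩ, if_pos (hcl x hxΩ).2]
          exact k1.conj x hxΩ
        · have hx' : x ∈ V \ (O a ∪ O (bar a)) := Finset.mem_sdiff.2 ⟨hx, hxΩ⟩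
          show (if x ∈ O a ∪ O (bar a) then ψ x else φ' x) +
            (if bar x ∈ O a ∪ O (bar a) then ψ (bar x) else φ' (bar x)) = μ x
          rw [if_neg hxΩ, if_neg (Finset.mem_sdiff.1 (hcl' x hx').2).2]
          exact g1.conj x hx'
      · by_cases hxΩ : x ∈ O a ∪ O (bar a)
        · rw [← k1.sum x hxΩ]
          apply Finset.sum_congr rfl
          intro y hy
          rw [if_pos ((hcl x hxΩ).1 y hy)]
        · have hx' : x ∈ V \ (O a ∪ O (bar a)) := Finset.mem_sdiff.2 ⟨hx, hxΩ⟩
          rw [← g1.sum x hx']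
          apply Finset.sum_congr rfl
          intro y hy
          rw [if_neg (Finset.mem_sdiff.1 ((hcl' x hx').1 y hy)).2]
      · have hu : V = (V \ (O a ∪ O (bar a))) ∪ (O a ∪ O (bar a)) :=
          (Finset.sdiff_union_of_subset hΩ).symm
        have e : dev κ μ V (fun x => if x ∈ O a ∪ O (bar a) then ψ x else φ' x) =
            dev κ μ (V \ (O a ∪ O (bar a))) φ' + dev κ μ (O a ∪ O (bar a)) ψ := by
          conv_lhs => rw [hu]
          rw [dev_union Finset.sdiff_disjoint]
          congr 1
          · apply dev_congr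
            intro x hx
            rw [if_neg (Finset.mem_sdiff.1 hx).2]
          · apply dev_congr
            intro x hx
            rw [if_pos hx]
        rw [e]
        exact k2 hd
    · rw [Finset.not_nonempty_iff_eq_empty] at hV
      subst hV
      exact ⟨fun _ => 0, ⟨by simp, by simp⟩, fun _ => by simp [dev]⟩

end Pool.Agent.Lib.MP81632f.Mk.Sel
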