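import Pool.Agent.Lib.MP_81632f_ag.Mk.Basic
import Pool.Agent.Lib.MP_81632f_ag.Mk.Sel3

namespace Pool.Agent.Lib.MP81632f.Mk

open NumberField IsDedekindDomain Sel
open scoped Classical

variable {L : Type} [Field L] [NumberField L] [IsGalois ℚ L] {r : ℕ} {v : HeightOneSpectrum (𝓞 L)}
  {m : Multiset L}

theorem units_ne {z : ℤˣ} (h : z ≠ 1) : z = -1 := (Int.units_eq_one_or z).resolve_left h

omit [IsGalois ℚ L] in
theorem count_map_of (h : ∀ g : L ≃ₐ[ℚ] L, m.map g = m) (g : L ≃ₐ[ℚ] L) (a : L) :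
    m.count (g a) = m.count a := by
  conv_lhs => rw [← h g]
  exact Multiset.count_map_eq_count' g m g.injective a

omit [IsGalois ℚ L] in
theorem IsAV.count_map (h : IsAV r v m) (g : L ≃ₐ[ℚ] L) (a : L) : m.count (g a) = m.count a :=
  count_map_of h.galois g a

theorem count_bar_of (hr : 0 < r) (h : ∀ g : L ≃ₐ[ℚ] L, m.map g = m) {a : L} (ha : IsWeil r a) :
    m.count ((r : L) ^ 2 / a) = m.count a := by
  obtain ⟨c, hc⟩ := exists_conj (L := L) hr
  rw [← hc a ha]
  exact count_map_of h c a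

theorem IsAV.count_bar (hr : 0 < r) (h : IsAV r v m) {a : L} (ha : IsWeil r a) :
    m.count ((r : L) ^ 2 / a) = m.count a := count_bar_of hr h.galois ha

omit [IsGalois ℚ L] in
theorem IsAV.mem_map (h : IsAV r v m) (g : L ≃ₐ[ℚ] L) {a : L} (ha : a ∈ m) : g a ∈ m := by
  rw [← Multiset.count_pos, h.count_map g a]
  exact Multiset.count_pos.2 ha

theorem IsAV.mem_bar (hr : 0 < r) (h : IsAV r v m) {a : L} (ha : a ∈ m) : (r : L) ^ 2 / a ∈ m := by
  rw [← Multiset.count_pos, h.count_bar hr (h.weil a ha)]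
  exact Multiset.count_pos.2 ha

omit [IsGalois ℚ L] in
theorem ord_q (hr : 0 < r) : ord v ((r : L) ^ 2) = 2 * ord v (r : L) := by
  have h : (r : L) ≠ 0 := by exact_mod_cast hr.ne'
  rw [ord_pow v h]
  norm_num

omit [IsGalois ℚ L] in
theorem ord_bar (hr : 0 < r) {a : L} (ha : a ≠ 0) :
    ord v ((r : L) ^ 2 / a) = ord v ((r : L) ^ 2) - ord v a := by
  have h : (r : L) ≠ 0 := by exact_mod_cast hr.ne'
  exact ord_div v (pow_ne_zero 2 h) ha

/-- the number of embeddings in the CM type over one orbit -/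
noncomputable def num (r : ℕ) (v : HeightOneSpectrum (𝓞 L)) (m : Multiset L) (a : L) : ℕ :=
  (((m.count a * (orb v a).card : ℕ) : ℤ) * ord v a / ord v ((r : L) ^ 2)).toNat

omit [IsGalois ℚ L] in
theorem num_spec (hr : 0 < r) (hv : 0 < ord v (r : L)) (h : IsAV r v m) {a : L} (ha : a ∈ m) :
    ((num r v m a : ℕ) : ℤ) * ord v ((r : L) ^ 2) =
      ((m.count a * (orb v a).card : ℕ) : ℤ) * ord v a := by
  unfold num
  have h1 := h.integral a ha
  have hq := ord_q (v := v) hr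
  have h0 : 0 < ord v ((r : L) ^ 2) := by omega
  have h2 : 0 ≤ ord v a := ord_nonneg v (h.weil a ha).1
  rw [Int.toNat_of_nonneg (Int.ediv_nonneg (mul_nonneg (by positivity) h2) h0.le)]
  exact Int.ediv_mul_cancel h1

theorem sys (hr : 0 < r) (hv : 0 < ord v (r : L)) (h : IsAV r v m) {χ : (L ≃ₐ[ℚ] L) →* ℤˣ}
    {κ : L → ℤˣ} (hk : IsKType r m χ κ) :
    Sys (orb v) (fun a => (r : L) ^ 2 / a) κ (fun a => m.count a) (num r v m) m.toFinset where
  self a _ := self_mem_orb v a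
  mem a ha b hb := by
    rw [Multiset.mem_toFinset] at ha ⊢
    obtain ⟨g, _, rfl⟩ := (mem_orb v).1 hb
    exact h.mem_map g ha
  eq a _ b hb := orb_eq v hb
  barmem a ha := by
    rw [Multiset.mem_toFinset] at ha ⊢
    exact h.mem_bar hr ha
  barbar a ha := by
    rw [Multiset.mem_toFinset] at ha
    exact bar_bar hr ((h.weil a ha).ne_zero hr)
  orbbar a _ := orb_bar v r a
  mu a _ b hb := by
    obtain ⟨g, _, rfl⟩ := (mem_orb v).1 hb
    exact h.count_map g a
  mubar a ha := by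
    rw [Multiset.mem_toFinset] at ha
    exact h.count_bar hr (h.weil a ha)
  num a _ b hb := by
    obtain ⟨g, hg, rfl⟩ := (mem_orb v).1 hb
    unfold num
    rw [h.count_map g a, orb_apply v hg, hg a]
  total a ha := by
    rw [Multiset.mem_toFinset] at ha
    have hb := h.mem_bar hr ha
    have hw := h.weil a ha
    have h1 := num_spec hr hv h ha
    have h2 := num_spec hr hv h hb
    rw [h.count_bar hr hw, orb_bar_card v hr (hw.ne_zero hr), ord_bar hr (hw.ne_zero hr)] at h2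
    have hq := ord_q (v := v) hr
    have h0 : 0 < ord v ((r : L) ^ 2) := by omega
    have h3 : (((num r v m a + num r v m ((r : L) ^ 2 / a) : ℕ)) : ℤ) * ord v ((r : L) ^ 2) =
        ((m.count a * (orb v a).card : ℕ) : ℤ) * ord v ((r : L) ^ 2) := by
      push_cast at h1 h2 ⊢
      linarith
    have h4 := mul_right_cancel₀ h0.ne' h3
    exact_mod_cast h4
  kap a ha := by
    rw [Multiset.mem_toFinset] at ha
    exact hk.conj a ha

omit [IsGalois ℚ L] in
theorem flip {χ : (L ≃ₐ[ℚ] L) →* ℤˣ} {κ : L → ℤˣ} (hk : IsKType r m χ κ) {d : L ≃ₐ[ℚ] L}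
    (hd : d ∈ decomp v) (hχ : χ d ≠ 1) :
    Flip (orb v) (fun a => (r : L) ^ 2 / a) κ (fun a => d a) m.toFinset where
  mem a _ b hb := by
    obtain ⟨g, hg, rfl⟩ := (mem_orb v).1 hb
    exact (mem_orb v).2 ⟨d * g, mul_mem hd hg, rfl⟩
  kap a ha := by
    rw [Multiset.mem_toFinset] at ha
    rw [hk.equivariant d a ha, units_ne hχ]
    exact neg_one_mul _
  bar a _ := map_bar d a
  inj a _ b _ hab := d.injective hab

omit [IsGalois ℚ L] in
theorem card_half (κ : L → ℤˣ) :
    ∑ x ∈ m.toFinset.filter (fun x => κ x = 1), (m.count x : ℤ) = ((half m κ).card : ℤ) := by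
  unfold half
  rw [← Nat.cast_sum]
  congr 1
  rw [← Multiset.toFinset_sum_count_eq (m.filter (fun a => κ a = 1))]
  rw [Multiset.toFinset_filter]
  apply Finset.sum_congr rfl
  intro x hx
  rw [Multiset.count_filter, if_pos (Finset.mem_filter.1 hx).2]

/-- existence of lifts, nearly balanced if `K` is not split -/
theorem exists_lift (hr : 0 < r) (hv : 0 < ord v (r : L)) (h : IsAV r v m)
    {χ : (L ≃ₐ[ℚ] L) →* ℤˣ} {κ : L → ℤˣ} (hk : IsKType r m χ κ) :
    ∃ φ : L → ℕ, IsLift r v m φ ∧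
      ((∃ d ∈ decomp v, χ d ≠ 1) → |2 * (sig m κ φ : ℤ) - ((half m κ).card : ℤ)| ≤ 2) := by
  have hs := sys hr hv h hk
  have key : ∀ φ : L → ℕ, Good (orb v) (fun a => (r : L) ^ 2 / a) (fun a => m.count a) (num r v m)
      m.toFinset φ → IsLift r v m φ := by
    intro φ hφ
    refine ⟨fun a ha => hφ.conj a (Multiset.mem_toFinset.2 ha), fun a ha => ?_⟩
    rw [hφ.sum a (Multiset.mem_toFinset.2 ha)]
    exact num_spec hr hv h ha
  by_cases hsp : ∃ d ∈ decomp v, χ d ≠ 1
  · obtain ⟨d, hd, hχ⟩ := hsp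
    have hf := flip (v := v) hk hd hχ
    obtain ⟨φ, g1, g2⟩ := exists_good _ _ rfl hs (Or.inl hf)
    refine ⟨φ, key φ g1, fun _ => ?_⟩
    have := g2 hf
    unfold dev at this
    rw [card_half] at this
    have e : ∑ x ∈ m.toFinset.filter (fun x => κ x = 1), (φ x : ℤ) = (sig m κ φ : ℤ) := by
      unfold sig
      rw [Nat.cast_sum]
    rwa [e] at this
  · have hs2 : ∀ a ∈ m.toFinset, ∀ b ∈ orb v a, κ b = κ a := by
      intro a ha b hb
      obtain ⟨g, hg, rfl⟩ := (mem_orb v).1 hb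
      rw [Multiset.mem_toFinset] at ha
      rw [hk.equivariant g a ha]
      have : χ g = 1 := by
        by_contra hne
        exact hsp ⟨g, hg, hne⟩
      rw [this, one_mul]
    obtain ⟨φ, g1, _⟩ := exists_good (d := id) _ _ rfl hs (Or.inr hs2)
    exact ⟨φ, key φ g1, fun h' => absurd h' hsp⟩

omit [IsGalois ℚ L] in
theorem prod_ne_zero {s : Multiset L} (h : ∀ a ∈ s, a ≠ 0) : s.prod ≠ 0 := by
  rw [Ne, Multiset.prod_eq_zero_iff]
  intro h0
  exact h 0 h0 rfl

omit [IsGalois ℚ L] in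
theorem ord_prod (v : HeightOneSpectrum (𝓞 L)) (s : Multiset L) (h : ∀ a ∈ s, a ≠ 0) :
    ord v s.prod = (s.map (ord v)).sum := by
  induction s using Multiset.induction_on with
  | empty => simp [ord_one]
  | cons a s ih =>
    rw [Multiset.prod_cons, Multiset.map_cons, Multiset.sum_cons,
      ord_mul v (h a (Multiset.mem_cons_self a s))
        (prod_ne_zero (fun b hb => h b (Multiset.mem_cons_of_mem hb))),
      ih (fun b hb => h b (Multiset.mem_cons_of_mem hb))]

omit [IsGalois ℚ L] in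
theorem Bal.ord (hr : 0 < r) {s : Multiset L} (hs : Bal r s) (h : ∀ a ∈ s, a ≠ 0) :
    ord v s.prod = s.card * ord v (r : L) := by
  obtain ⟨N, hN, hp⟩ := hs
  have h0 : (r : L) ≠ 0 := by exact_mod_cast hr.ne'
  have h1 : Mk.ord v (s.prod ^ N) = Mk.ord v ((r : L) ^ (s.card * N)) := by rw [hp]
  rw [ord_pow v (prod_ne_zero h), ord_pow v h0] at h1
  push_cast at h1
  have h2 : (N : ℤ) ≠ 0 := by exact_mod_cast hN.ne'
  apply mul_left_cancel₀ h2
  rw [h1]
  ring

omit [IsGalois ℚ L] in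
/-- the split case: the signature is determined by the slopes -/
theorem sig_split (h : IsAV r v m) (hr : 0 < r) (hv : 0 < Mk.ord v (r : L))
    {χ : (L ≃ₐ[ℚ] L) →* ℤˣ} {κ : L → ℤˣ} (hk : IsKType r m χ κ) {φ : L → ℕ} (hφ : IsLift r v m φ)
    (hsp : ∀ d ∈ decomp v, χ d = 1) (hb : Bal r (half m κ)) :
    2 * sig m κ φ = (half m κ).card := by
  set V := m.toFinset.filter (fun a => κ a = 1) with hV
  have hVm : ∀ a ∈ V, a ∈ m ∧ κ a = 1 := by
    intro a ha
    rw [hV, Finset.mem_filter, Multiset.mem_toFinset] at ha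
    exact ha
  have hcl : ∀ a ∈ V, ∀ b ∈ orb v a, b ∈ V := by
    intro a ha b hb
    obtain ⟨h1, h2⟩ := hVm a ha
    obtain ⟨g, hg, rfl⟩ := (mem_orb v).1 hb
    rw [hV, Finset.mem_filter, Multiset.mem_toFinset]
    exact ⟨h.mem_map g h1, by rw [hk.equivariant g a h1, hsp g hg, h2, one_mul]⟩
  have hsymm : ∀ a b : L, b ∈ orb v a → a ∈ orb v b := by
    intro a b hb
    rw [orb_eq v hb]
    exact self_mem_orb v a
  -- double counting
  have e1 : ∑ a ∈ V, (φ a : ℚ) = ∑ a ∈ V, ((∑ b ∈ orb v a, φ b : ℕ) : ℚ) / (orb v a).card := by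
    have s1 : ∀ a ∈ V, ((∑ b ∈ orb v a, φ b : ℕ) : ℚ) / (orb v a).card =
        ∑ b ∈ V, if b ∈ orb v a then (φ b : ℚ) / (orb v b).card else 0 := by
      intro a ha
      rw [Nat.cast_sum, Finset.sum_div, ← Finset.sum_filter]
      have : V.filter (fun b => b ∈ orb v a) = orb v a := by
        ext b
        rw [Finset.mem_filter]
        exact ⟨fun h' => h'.2, fun h' => ⟨hcl a ha b h', h'⟩⟩
      rw [this]
      apply Finset.sum_congr rfl
      intro b hb
      rw [orb_eq v hb]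
    rw [Finset.sum_congr rfl s1, Finset.sum_comm]
    apply Finset.sum_congr rfl
    intro b hb
    rw [← Finset.sum_filter]
    have : V.filter (fun a => b ∈ orb v a) = orb v b := by
      ext a
      rw [Finset.mem_filter]
      exact ⟨fun h' => hsymm a b h'.2, fun h' => ⟨hcl b hb a h', hsymm b a h'⟩⟩
    rw [this, Finset.sum_const, nsmul_eq_mul]
    have hpos : ((orb v b).card : ℚ) ≠ 0 := by exact_mod_cast (orb_card_pos v b).ne'
    field_simp
  have e2 : (∑ a ∈ V, (φ a : ℚ)) * (Mk.ord v ((r : L) ^ 2) : ℚ) =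
      ∑ a ∈ V, (m.count a : ℚ) * (Mk.ord v a : ℚ) := by
    rw [e1, Finset.sum_mul]
    apply Finset.sum_congr rfl
    intro a ha
    have s2 := hφ.slope a (hVm a ha).1
    have s3 : ((∑ b ∈ orb v a, φ b : ℕ) : ℚ) * (Mk.ord v ((r : L) ^ 2) : ℚ) =
        ((m.count a * (orb v a).card : ℕ) : ℚ) * (Mk.ord v a : ℚ) := by exact_mod_cast s2
    have hpos : ((orb v a).card : ℚ) ≠ 0 := by exact_mod_cast (orb_card_pos v a).ne'
    rw [div_mul_eq_mul_div, s3]
    push_cast
    field_simp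
  have hne : ∀ a ∈ half m κ, a ≠ 0 := by
    intro a ha
    exact (h.weil a (Multiset.mem_filter.1 ha).1).ne_zero hr
  have e3 : ∑ a ∈ V, (m.count a : ℚ) * (Mk.ord v a : ℚ) = (((half m κ).map (Mk.ord v)).sum : ℚ) := by
    rw [Finset.sum_multiset_map_count]
    have : (half m κ).toFinset = V := by
      unfold half
      rw [Multiset.toFinset_filter, hV]
    rw [this]
    push_cast
    apply Finset.sum_congr rfl
    intro a ha
    unfold half
    rw [Multiset.count_filter, if_pos (hVm a ha).2, nsmul_eq_mul]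
    push_cast
    rfl
  have e4 := hb.ord (v := v) hr hne
  rw [ord_prod v _ hne] at e4
  rw [e3, e4, ord_q hr] at e2
  have h0 : (Mk.ord v (r : L) : ℚ) ≠ 0 := by exact_mod_cast hv.ne'
  have e5 : (2 * ∑ a ∈ V, (φ a : ℚ)) * (Mk.ord v (r : L) : ℚ) =
      ((half m κ).card : ℚ) * (Mk.ord v (r : L) : ℚ) := by
    push_cast at e2
    linarith
  have e6 := mul_right_cancel₀ h0 e5
  unfold sig
  rw [← hV]
  exact_mod_cast e6

end Pool.Agent.Lib.MP81632f.Mk
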