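import Pool.Agent.Lib.MP_81632f_ag.Mk.Pow9

/-! # Powers: the theorem -/

namespace Pool.Agent.Lib.MP81632f.Mk

open NumberField IsDedekindDomain
open scoped Classical

variable {L : Type} [Field L] [NumberField L] [IsGalois ℚ L]
variable {p e r : ℕ} {v : HeightOneSpectrum (𝓞 L)} {m t : Multiset L}

omit [Field L] [NumberField L] [IsGalois ℚ L] in
theorem exists_pair {z : Multiset L} (h : 1 < z.card) : ∃ a b : L, {a, b} ≤ z := by
  obtain ⟨a, ha⟩ := Multiset.card_pos_iff_exists_mem.1 (show 0 < z.card by omega)
  obtain ⟨z', rfl⟩ := Multiset.exists_cons_of_mem ha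
  rw [Multiset.card_cons] at h
  obtain ⟨b, hb⟩ := Multiset.card_pos_iff_exists_mem.1 (show 0 < z'.card by omega)
  refine ⟨a, b, ?_⟩
  rw [Multiset.insert_eq_cons]
  exact Multiset.cons_le_cons a (Multiset.singleton_le.2 hb)

/-- **every relation contains one of `K`-type with three or four elements** -/
theorem exists_part (h : Ctx p e r v m) (hc : m.card ≤ 8) (hex : ¬ Exc r m) (hR : Red r t)
    (hb : Bal r t) (ht : ∀ x ∈ t, x ∈ m) (h0 : 0 < t.card) : ∃ S, Part r v t S := by
  by_cases hI : Ctx.PI r v m
  · have k : KCtx p e r v m t := ⟨h, hc, hR, hb, ht, h0, fun g =>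
      (Ctx.claimA h hc hI hR hb ht h0 g).resolve_right hex⟩
    exact k.claimB hI
  · unfold Ctx.PI at hI
    push Not at hI
    obtain ⟨a, ma, b, mb, h1, h2, α, h3⟩ := hI
    have k : Prp p e r v m a b α := ⟨h, hc, ma, mb, h1, h2, h3⟩
    obtain ⟨a', b', k'⟩ := k.nf
    exact k'.claimP hR hb ht h0

/-- **Tate classes on all powers** -/
theorem tate_powers_aux {C : Set (Multiset L)} (h : Ctx p e r v m) (hC : CycleFamily r v C)
    (hc : m.card ≤ 8) (hex : ¬ Exc r m) (n : ℕ) :
    ∀ s : Multiset L, s.card = n → (∀ a ∈ s, a ∈ m ∨ (IsWeil r a ∧ IsSS r a)) → IsTate r s → s ∈ C := by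
  have hr := h.r_pos
  have hv := h.rho_pos
  induction n using Nat.strong_induction_on with
  | _ n ih =>
    intro s hn hs hT
    have hW : ∀ a ∈ s, IsWeil r a := by
      intro a ha
      rcases hs a ha with h1 | h1
      · exact h.weil h1
      · exact h1.1
    by_cases hp : ∃ a b : L, {a, b} ≤ s ∧ Bal r {a, b}
    · obtain ⟨a, b, hab, hb⟩ := hp
      obtain ⟨u, rfl⟩ := Multiset.le_iff_exists_add.1 hab
      have ha' : a ∈ ({a, b} : Multiset L) + u := Multiset.mem_of_le hab (by simp)
      have hb' : b ∈ ({a, b} : Multiset L) + u := Multiset.mem_of_le hab (by simp)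
      have hcard : (({a, b} : Multiset L) + u).card = u.card + 2 := by
        rw [Multiset.card_add, Multiset.insert_eq_cons, Multiset.card_cons, Multiset.card_singleton]
        ring
      have hu : u ∈ C := by
        apply ih u.card (by omega) u rfl
        · intro x hx
          exact hs x (Multiset.mem_add.2 (Or.inr hx))
        · refine ⟨?_, ?_⟩
          · have h1 := hT.1
            rw [hcard] at h1
            rcases h1 with ⟨j, hj⟩
            exact ⟨j - 1, by omega⟩
          · apply Bal.of_add hr _ hb
            rw [add_comm]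
            exact hT.2
      exact hC.add _ _ (hC.pair a b (hW a ha') (hW b hb') hb) hu
    · have hp' : ∀ a b : L, {a, b} ≤ s → ¬ Bal r {a, b} := fun a b hab hb => hp ⟨a, b, hab, hb⟩
      -- the supersingular part
      set z := s.filter (fun a => ¬ NSS r a) with hz
      set t := s.filter (fun a => NSS r a) with htdef
      have hsplit : t + z = s := Multiset.filter_add_not (fun a => NSS r a) s
      have hzss : ∀ a ∈ z, IsSS r a := fun a ha => by
        have := (Multiset.mem_filter.1 ha).2
        unfold NSS at this
        exact not_not.1 this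
      have hz1 : z.card ≤ 1 := by
        by_contra hlt
        push Not at hlt
        obtain ⟨a, b, hw⟩ := exists_pair hlt
        exact hp' a b (hw.trans (Multiset.filter_le _ _)) (bal_ss (hzss a (Multiset.mem_of_le hw (by simp)))
          (hzss b (Multiset.mem_of_le hw (by simp))))
      have hzbal : Bal r z := by
        rcases Nat.lt_or_ge 0 z.card with h1 | h1
        · obtain ⟨a, ha⟩ := Multiset.card_eq_one.1 (show z.card = 1 by omega)
          rw [ha, bal_singleton]
          exact hzss a (by rw [ha]; simp)
        · have : z = 0 := Multiset.card_eq_zero.1 (by omega)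
          rw [this]
          exact bal_zero
      have htbal : Bal r t := by
        apply Bal.of_add hr _ hzbal
        rw [hsplit]
        exact hT.2
      have hRt : Red r t := by
        refine ⟨fun a ha => hW a (Multiset.mem_filter.1 ha).1, fun a ha => ?_, fun a b hab =>
          hp' a b (hab.trans (Multiset.filter_le _ _))⟩
        exact (Multiset.mem_filter.1 ha).2
      have htm : ∀ a ∈ t, a ∈ m := by
        intro a ha
        have h1 := Multiset.mem_filter.1 ha
        rcases hs a h1.1 with h2 | h2
        · exact h2
        · exact absurd h2.2 h1.2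
      by_cases h0 : t.card = 0
      · have ht0 : t = 0 := Multiset.card_eq_zero.1 h0
        rw [ht0, zero_add] at hsplit
        have h1 := hT.1
        rw [← hsplit] at h1
        have h2 : z.card = 0 := by
          rcases h1 with ⟨j, hj⟩
          omega
        rw [← hsplit, Multiset.card_eq_zero.1 h2]
        exact hC.zero
      · obtain ⟨S, hS⟩ := exists_part h hc hex hRt htbal htm (Nat.pos_of_ne_zero h0)
        have hSt := hRt.mono hS.le
        have hm := ktype_mem hr hv hC hSt hS.bal hS.av hS.three (by have := hS.four; omega)
        obtain ⟨t', ht'⟩ := Multiset.le_iff_exists_add.1 hS.le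
        have hse : s = S + (t' + z) := by rw [← hsplit, ht', add_assoc]
        have hcs : s.card = S.card + (t' + z).card := by rw [hse, Multiset.card_add]
        have hrest : ∀ a ∈ t' + z, a ∈ m ∨ (IsWeil r a ∧ IsSS r a) := by
          intro a ha
          apply hs
          rw [hse]
          exact Multiset.mem_add.2 (Or.inr ha)
        have hbr : Bal r (t' + z) := by
          apply Bal.of_add hr _ hS.bal
          rw [add_comm, ← hse]
          exact hT.2
        have h3 := hS.three
        have h4 := hS.four
        by_cases h5 : S.card = 4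
        · rw [hse]
          apply hC.add _ _ (hm.1 h5)
          apply ih (t' + z).card (by omega) _ rfl hrest
          refine ⟨?_, hbr⟩
          rcases hT.1 with ⟨j, hj⟩
          exact ⟨j - 2, by omega⟩
        · have h6 := hm.2 h5
          have h7 : (t' + z) + {(r : L)} ∈ C := by
            apply ih ((t' + z) + {(r : L)}).card _ _ rfl
            · intro a ha
              rcases Multiset.mem_add.1 ha with ha | ha
              · exact hrest a ha
              · rw [Multiset.mem_singleton] at ha
                rw [ha]
                exact Or.inr ⟨weil_r hr, ss_r⟩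
            · refine ⟨?_, hbr.add (bal_singleton.2 ss_r)⟩
              rw [Multiset.card_add, Multiset.card_singleton]
              rcases hT.1 with ⟨j, hj⟩
              exact ⟨j - 1, by omega⟩
            · rw [Multiset.card_add, Multiset.card_singleton]
              omega
          apply remove_rr hr hC
          have h8 := hC.add _ _ h6 h7
          have e1 : S + {(r : L)} + (t' + z + {(r : L)}) = s + {(r : L), (r : L)} := by
            rw [hse, Multiset.insert_eq_cons, ← Multiset.singleton_add]
            abel
          rw [e1] at h8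
          exact h8

/-- **Theorem Y: Tate classes on all powers of abelian varieties of dimension at most four** -/
theorem tate_powers {C : Set (Multiset L)} (hr : r = p ^ e) (he : 0 < e) (hp : p.Prime)
    (hv : (p : 𝓞 L) ∈ v.asIdeal) (hC : CycleFamily r v C) (hA : IsAV r v m) (hc : m.card ≤ 8)
    (hsep : ∀ a ∈ m, ∀ b ∈ m, (∃ N : ℕ, 0 < N ∧ a ^ N = b ^ N) → a = b) (hex : ¬ Exc r m)
    (s : Multiset L) (hs : ∀ a ∈ s, a ∈ m ∨ (IsWeil r a ∧ IsSS r a)) (hT : IsTate r s) : s ∈ C := by
  have hr0 : 0 < r := by rw [hr]; exact pow_pos hp.pos e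
  have hA' : IsAV r v (m.filter (fun a => NSS r a)) := hA.filter _ (fun g a => by
    unfold NSS
    rw [isSS_map_iff])
  have h : Ctx p e r v (m.filter (fun a => NSS r a)) :=
    ⟨hr, he, hp, hv, hA', fun a ha => (Multiset.mem_filter.1 ha).2, fun a ha b hb =>
      hsep a (Multiset.mem_filter.1 ha).1 b (Multiset.mem_filter.1 hb).1⟩
  apply tate_powers_aux h hC _ _ s.card s rfl _ hT
  · exact (Multiset.card_le_card (Multiset.filter_le _ _)).trans hc
  · rintro ⟨y, hy, b, hb, g, h1⟩
    exact hex ⟨y, (Multiset.mem_filter.1 hy).1, b, (Multiset.mem_filter.1 hb).1, g, h1⟩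
  · intro a ha
    by_cases hss : IsSS r a
    · right
      rcases hs a ha with h1 | h1
      · exact ⟨hA.weil a h1, hss⟩
      · exact h1
    · left
      rcases hs a ha with h1 | h1
      · exact Multiset.mem_filter.2 ⟨h1, hss⟩
      · exact absurd h1.2 hss

end Pool.Agent.Lib.MP81632f.Mk
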