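import Pool.Agent.Lib.MP_81632f_ag.Mk.Vect

/-! # Powers: plane configurations of Weil numbers -/

namespace Pool.Agent.Lib.MP81632f.Mk

open NumberField IsDedekindDomain
open scoped Classical

variable {L : Type} [Field L] [NumberField L] [IsGalois ℚ L]

/-- the standing hypotheses -/
structure Ctx (p e r : ℕ) (v : HeightOneSpectrum (𝓞 L)) (m : Multiset L) : Prop where
  hr : r = p ^ e
  he : 0 < e
  hp : p.Prime
  hv : (p : 𝓞 L) ∈ v.asIdeal
  hA : IsAV r v m
  hss : ∀ a ∈ m, ¬ IsSS r a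
  hsep : ∀ a ∈ m, ∀ b ∈ m, (∃ N : ℕ, 0 < N ∧ a ^ N = b ^ N) → a = b

variable {p e r : ℕ} {v : HeightOneSpectrum (𝓞 L)} {m : Multiset L}

namespace Ctx

theorem r_pos (h : Ctx p e r v m) : 0 < r := by rw [h.hr]; exact pow_pos h.hp.pos e

theorem rho_pos (h : Ctx p e r v m) : 0 < ord v (r : L) := by
  rw [h.hr]
  exact ord_r_pos v h.hp h.he h.hv

theorem q_eq (h : Ctx p e r v m) : ord v ((r : L) ^ 2) = 2 * ord v (r : L) := ord_q h.r_pos

theorem q_pos (h : Ctx p e r v m) : 0 < ord v ((r : L) ^ 2) := by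
  have := h.q_eq
  have := h.rho_pos
  omega

theorem weil (h : Ctx p e r v m) {a : L} (ha : a ∈ m) : IsWeil r a := h.hA.weil a ha

theorem ne_zero (h : Ctx p e r v m) {a : L} (ha : a ∈ m) : a ≠ 0 := (h.weil ha).ne_zero h.r_pos

theorem inj (h : Ctx p e r v m) {a b : L} (ha : a ∈ m) (hb : b ∈ m) (hX : X r v a = X r v b) : a = b :=
  h.hsep a ha b hb (pow_eq_of_X h.hr h.hp h.hv (h.weil ha) (h.weil hb) hX)

theorem Xne (h : Ctx p e r v m) {a : L} (ha : a ∈ m) : X r v a ≠ 0 := fun h' =>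
  h.hss a ha ((ss_iff h.hr h.hp h.hv (h.weil ha)).2 h')

theorem Xbar (h : Ctx p e r v m) {a : L} (ha : a ∈ m) : X r v ((r : L) ^ 2 / a) = -X r v a :=
  X_bar h.r_pos (h.ne_zero ha)

theorem bar_mem (h : Ctx p e r v m) {a : L} (ha : a ∈ m) : (r : L) ^ 2 / a ∈ m := h.hA.mem_bar h.r_pos ha

theorem inj_bar (h : Ctx p e r v m) {a b : L} (ha : a ∈ m) (hb : b ∈ m) (hX : X r v a = -X r v b) :
    a = (r : L) ^ 2 / b := h.inj ha (h.bar_mem hb) (by rw [hX, h.Xbar hb])

theorem bar_ne (h : Ctx p e r v m) {a : L} (ha : a ∈ m) : (r : L) ^ 2 / a ≠ a := fun h' =>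
  h.hss a ha (self_ss h' (h.ne_zero ha))

/-- evaluation at another place -/
theorem X_one (a : L) (g : L ≃ₐ[ℚ] L) : X r v (g a) 1 = X r v a g := by
  rw [X_map]
  unfold act
  rw [one_mul]

/-- any two non-conjugate elements span -/
def Plane (r : ℕ) (v : HeightOneSpectrum (𝓞 L)) (m : Multiset L) : Prop :=
  ∀ a ∈ m, ∀ b ∈ m, b ≠ a → b ≠ (r : L) ^ 2 / a → ∀ c ∈ m, ∃ α β : ℚ, ∀ g : L ≃ₐ[ℚ] L,
    (X r v c g : ℚ) = α * X r v a g + β * X r v b g

/-- the slope functions of non-conjugate elements are not proportional -/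
def PI (r : ℕ) (v : HeightOneSpectrum (𝓞 L)) (m : Multiset L) : Prop :=
  ∀ a ∈ m, ∀ b ∈ m, b ≠ a → b ≠ (r : L) ^ 2 / a → ∀ α : ℚ, ¬ ∀ g : L ≃ₐ[ℚ] L,
    (X r v b g : ℚ) = α * X r v a g

theorem norm_map (g : L ≃ₐ[ℚ] L) (a : L) : ip (X r v (g a)) (X r v (g a)) = ip (X r v a) (X r v a) := by
  rw [X_map, ip_act]

/-- rational bilinear form -/
theorem ip_cast (f f' : (L ≃ₐ[ℚ] L) → ℤ) : (ip f f' : ℚ) = ∑ g, (f g : ℚ) * (f' g : ℚ) := by
  unfold ip
  push_cast
  rfl

theorem orb_le_two (h : Ctx p e r v m) (hP : Plane r v m) {a : L} (ha : a ∈ m)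
    (h0 : X r v a 1 ≠ 0) : (orb v a).card ≤ 2 := by
  by_contra hlt
  push Not at hlt
  obtain ⟨x, y, z, hx, hy, hz, hxy, hxz, hyz⟩ := Finset.two_lt_card_iff.1 hlt
  have hmem : ∀ w ∈ orb v a, w ∈ m ∧ X r v w 1 = X r v a 1 ∧
      ip (X r v w) (X r v w) = ip (X r v a) (X r v a) := by
    intro w hw
    obtain ⟨g, hg, rfl⟩ := (mem_orb v).1 hw
    refine ⟨h.hA.mem_map g ha, ?_, norm_map g a⟩
    rw [X_one]
    have := X_dec (r := r) hg a 1
    rwa [mul_one] at this
  obtain ⟨mx, ex, nx⟩ := hmem x hx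
  obtain ⟨my, ey, ny⟩ := hmem y hy
  obtain ⟨mz, ez, nz⟩ := hmem z hz
  have hyx : y ≠ (r : L) ^ 2 / x := by
    intro h'
    have h1 := congrFun (h.Xbar mx) 1
    rw [← h', Pi.neg_apply, ex, ey] at h1
    omega
  obtain ⟨α, β, hαβ⟩ := hP x mx y my (Ne.symm hxy) hyx z mz
  have h1 := hαβ 1
  rw [ex, ey, ez] at h1
  have hc : (X r v a 1 : ℚ) ≠ 0 := by exact_mod_cast h0
  have hsum : α + β = 1 := by
    have : (X r v a 1 : ℚ) * (α + β) = (X r v a 1 : ℚ) * 1 := by linarith
    exact mul_left_cancel₀ hc this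
  set N : ℚ := (ip (X r v a) (X r v a) : ℚ) with hN
  set I : ℚ := (ip (X r v x) (X r v y) : ℚ) with hI
  have e1 : (ip (X r v x) (X r v x) : ℚ) = N := by rw [nx]
  have e2 : (ip (X r v y) (X r v y) : ℚ) = N := by rw [ny]
  have e3 : (ip (X r v z) (X r v z) : ℚ) = N := by rw [nz]
  have e4 : N = α ^ 2 * N + 2 * α * β * I + β ^ 2 * N := by
    have t : (ip (X r v z) (X r v z) : ℚ) = α ^ 2 * (ip (X r v x) (X r v x) : ℚ) +
        2 * α * β * (ip (X r v x) (X r v y) : ℚ) + β ^ 2 * (ip (X r v y) (X r v y) : ℚ) := by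
      rw [ip_cast, ip_cast, ip_cast, ip_cast, Finset.mul_sum, Finset.mul_sum, Finset.mul_sum,
        ← Finset.sum_add_distrib, ← Finset.sum_add_distrib]
      apply Finset.sum_congr rfl
      intro g _
      rw [hαβ g]
      ring
    rw [e3, e1, e2] at t
    exact t
  have e5 : α * β * (N - I) = 0 := by
    have hβ : β = 1 - α := by linarith
    rw [hβ] at e4 ⊢
    linear_combination e4 / 2
  have hNI : N - I ≠ 0 := by
    intro h'
    have h2 : ip (X r v x - X r v y) (X r v x - X r v y) = 0 := by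
      rw [ip_sub_left, ip_sub_right, ip_sub_right, ip_comm (X r v y) (X r v x)]
      have i1 : ip (X r v x) (X r v y) = ip (X r v a) (X r v a) := by
        have : (ip (X r v x) (X r v y) : ℚ) = (ip (X r v a) (X r v a) : ℚ) := by
          rw [← hI, ← hN]; linarith
        exact_mod_cast this
      rw [nx, ny, i1]
      ring
    have h3 := (ip_self_eq_zero _).1 h2
    exact hxy (h.inj mx my (sub_eq_zero.1 h3))
  rcases mul_eq_zero.1 e5 with h4 | h4
  · rcases mul_eq_zero.1 h4 with h5 | h5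
    · -- z = y
      apply hyz
      apply h.inj my mz
      ext g
      have h6 := hαβ g
      have h7 : β = 1 := by linarith
      rw [h5, h7, zero_mul, zero_add, one_mul] at h6
      exact_mod_cast h6.symm
    · apply hxz
      apply h.inj mx mz
      ext g
      have h6 := hαβ g
      have h7 : α = 1 := by linarith
      rw [h5, h7, zero_mul, add_zero, one_mul] at h6
      exact_mod_cast h6.symm
  · exact hNI h4

/-- values of the slope functions in a plane -/
theorem values (h : Ctx p e r v m) (hP : Plane r v m) (hμ : ∀ a ∈ m, m.count a = 1) {a : L}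
    (ha : a ∈ m) (g : L ≃ₐ[ℚ] L) : X r v a g = 0 ∨ X r v a g = ord v ((r : L) ^ 2) ∨
      X r v a g = -ord v ((r : L) ^ 2) := by
  rw [← X_one]
  have hga := h.hA.mem_map g ha
  by_cases h0 : X r v (g a) 1 = 0
  · exact Or.inl h0
  · right
    have h2 := orb_le_two h hP hga h0
    have h3 := orb_card_pos v (g a)
    have h4 := h.hA.integral _ hga
    rw [hμ _ hga, one_mul] at h4
    have h5 := ord_nonneg v (h.weil hga).1
    have h6 := ord_nonneg v ((h.weil hga).conj h.r_pos).1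
    rw [ord_bar h.r_pos (h.ne_zero hga)] at h6
    have hX : X r v (g a) 1 = 2 * ord v (g a) - ord v ((r : L) ^ 2) := rfl
    have hq := h.q_pos
    obtain ⟨k, hk⟩ := h4
    have hk' : (orb v (g a)).card = 1 ∨ (orb v (g a)).card = 2 := by omega
    rcases hk' with hk1 | hk1
    · rw [hk1] at hk
      push_cast at hk
      have hk0 : k = 0 ∨ k = 1 := by
        have a1 : 0 ≤ k := by
          by_contra hneg
          have : k ≤ -1 := by omega
          nlinarith
        have a2 : k ≤ 1 := by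
          by_contra hneg
          have : 2 ≤ k := by omega
          nlinarith
        omega
      rcases hk0 with rfl | rfl
      · right; rw [hX]; linarith
      · left; rw [hX]; linarith
    · rw [hk1] at hk
      push_cast at hk
      have hk0 : k = 0 ∨ k = 1 ∨ k = 2 := by
        have a1 : 0 ≤ k := by
          by_contra hneg
          have : k ≤ -1 := by omega
          nlinarith
        have a2 : k ≤ 2 := by
          by_contra hneg
          have : 3 ≤ k := by omega
          nlinarith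
        omega
      rcases hk0 with rfl | rfl | rfl
      · right; rw [hX]; linarith
      · exfalso
        apply h0
        rw [hX]; linarith
      · left; rw [hX]; linarith

/-- at most one pair vanishes at a place -/
theorem zero_unique (h : Ctx p e r v m) (hP : Plane r v m) {a b : L} (ha : a ∈ m) (hb : b ∈ m)
    (hab : b ≠ a) (hab' : b ≠ (r : L) ^ 2 / a) {g : L ≃ₐ[ℚ] L} (h1 : X r v a g = 0)
    (h2 : X r v b g = 0) : False := by
  apply h.Xne ha
  ext k
  -- X_a k = X_{k' a} g with g * k' = k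
  have hc := h.hA.mem_map (g⁻¹ * k) ha
  obtain ⟨α, β, hαβ⟩ := hP a ha b hb hab hab' _ hc
  have h3 := hαβ g
  rw [h1, h2, X_map] at h3
  unfold act at h3
  rw [mul_inv_cancel_left] at h3
  have h4 : (X r v a k : ℚ) = 0 := by rw [h3]; push_cast; ring
  exact_mod_cast h4

end Ctx

end Pool.Agent.Lib.MP81632f.Mk
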