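import Pool.Agent.Lib.MP_81632f_ag.Mk.Pow1

/-! # Powers: four pairs in a plane give the exceptional configuration -/

namespace Pool.Agent.Lib.MP81632f.Mk

open NumberField IsDedekindDomain
open scoped Classical

variable {L : Type} [Field L] [NumberField L]

/-- all conjugates -/
noncomputable def conjs (y : L) : Finset L := Finset.univ.image (fun g : L ≃ₐ[ℚ] L => g y)

/-- the exceptional configuration: two simple surfaces, two Frobenius eigenvalues `y`, `g y` of the
first and one of the second with balanced product -/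
def Exc (r : ℕ) (m : Multiset L) : Prop :=
  ∃ y ∈ m, ∃ b ∈ m, ∃ g : L ≃ₐ[ℚ] L, ¬ IsSS r y ∧ ¬ IsSS r b ∧ Bal r {y, g y, b} ∧
    (conjs y).card = 4 ∧ (conjs b).card = 4

/-- neither equal nor conjugate -/
def NC (r : ℕ) (a b : L) : Prop := b ≠ a ∧ b ≠ (r : L) ^ 2 / a

variable [IsGalois ℚ L] {p e r : ℕ} {v : HeightOneSpectrum (𝓞 L)} {m : Multiset L}

omit [IsGalois ℚ L] in
theorem NC.symm (hr : 0 < r) {a b : L} (h : NC r a b) : NC r b a :=
  ⟨fun h' => h.1 h'.symm, fun h' => h.2 (by rw [h', bb hr])⟩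

/-- four pairwise non-conjugate elements exhausting `m` -/
structure P4 (r : ℕ) (m : Multiset L) (a b c d : L) : Prop where
  ma : a ∈ m
  mb : b ∈ m
  mc : c ∈ m
  md : d ∈ m
  ab : NC r a b
  ac : NC r a c
  ad : NC r a d
  bc : NC r b c
  bd : NC r b d
  cd : NC r c d
  all : ∀ w ∈ m, (w = a ∨ w = (r : L) ^ 2 / a) ∨ (w = b ∨ w = (r : L) ^ 2 / b) ∨
    (w = c ∨ w = (r : L) ^ 2 / c) ∨ (w = d ∨ w = (r : L) ^ 2 / d)

omit [IsGalois ℚ L] in
theorem P4.swap12 (hr : 0 < r) {a b c d : L} (h : P4 r m a b c d) : P4 r m b a c d :=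
  ⟨h.mb, h.ma, h.mc, h.md, h.ab.symm hr, h.bc, h.bd, h.ac, h.ad, h.cd, fun w hw => by
    have := h.all w hw; tauto⟩

omit [IsGalois ℚ L] in
theorem P4.swap23 (hr : 0 < r) {a b c d : L} (h : P4 r m a b c d) : P4 r m a c b d :=
  ⟨h.ma, h.mc, h.mb, h.md, h.ac, h.ab, h.ad, h.bc.symm hr, h.cd, h.bd, fun w hw => by
    have := h.all w hw; tauto⟩

omit [IsGalois ℚ L] in
theorem P4.swap34 (hr : 0 < r) {a b c d : L} (h : P4 r m a b c d) : P4 r m a b d c :=
  ⟨h.ma, h.mb, h.md, h.mc, h.ab, h.ad, h.ac, h.bd, h.bc, h.cd.symm hr, fun w hw => by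
    have := h.all w hw; tauto⟩

/-- vanishes at some place -/
def Zr (r : ℕ) (v : HeightOneSpectrum (𝓞 L)) (a : L) : Prop := ∃ g : L ≃ₐ[ℚ] L, X r v a g = 0

namespace Ctx

theorem sq_of_ne (h : Ctx p e r v m) (hP : Plane r v m) (hμ : ∀ a ∈ m, m.count a = 1) {a : L}
    (ha : a ∈ m) {g : L ≃ₐ[ℚ] L} (h0 : X r v a g ≠ 0) :
    (X r v a g : ℚ) ^ 2 = (ord v ((r : L) ^ 2) : ℚ) ^ 2 := by
  rcases values h hP hμ ha g with h1 | h1 | h1
  · exact absurd h1 h0
  · rw [h1]
  · rw [h1]; push_cast; ring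

theorem coef_sq {x y β q : ℚ} (hy : y = β * x) (hx : x ^ 2 = q ^ 2) (hy2 : y ^ 2 = q ^ 2)
    (hq : q ^ 2 ≠ 0) : β ^ 2 = 1 := by
  have h1 : β ^ 2 * q ^ 2 = 1 * q ^ 2 := by
    rw [← hx, one_mul, ← mul_pow, ← hy, hy2, hx]
  exact mul_right_cancel₀ hq h1

theorem no_sum {x y z α β q : ℚ} (hz : z = α * x + β * y) (hx : x ^ 2 = q ^ 2) (hy : y ^ 2 = q ^ 2)
    (hz2 : z ^ 2 = q ^ 2) (hα : α ^ 2 = 1) (hβ : β ^ 2 = 1) (hq : q ^ 2 ≠ 0) : False := by
  have h1 : z ^ 2 = α ^ 2 * x ^ 2 + β ^ 2 * y ^ 2 + 2 * (α * β * x * y) := by rw [hz]; ring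
  have h2 : (α * β * x * y) ^ 2 = q ^ 2 * q ^ 2 := by
    calc (α * β * x * y) ^ 2 = α ^ 2 * β ^ 2 * x ^ 2 * y ^ 2 := by ring
      _ = _ := by rw [hα, hβ, hx, hy]; ring
  rw [hz2, hα, hβ, hx, hy] at h1
  have h3 : α * β * x * y = -(q ^ 2) / 2 := by linarith
  rw [h3] at h2
  have h4 : 3 * (q ^ 2 * q ^ 2) = 0 := by linarith
  have h5 : q ^ 2 * q ^ 2 = 0 := by linarith
  exact hq (mul_self_eq_zero.1 h5)

theorem nz (h : Ctx p e r v m) (hP : Plane r v m) {x y : L} (hx : x ∈ m) (hy : y ∈ m)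
    (hxy : NC r x y) {g : L ≃ₐ[ℚ] L} (h1 : X r v x g = 0) : X r v y g ≠ 0 := fun h2 =>
  zero_unique h hP hx hy hxy.1 hxy.2 h1 h2

theorem q2_ne (h : Ctx p e r v m) : (ord v ((r : L) ^ 2) : ℚ) ^ 2 ≠ 0 := by
  have hq : (ord v ((r : L) ^ 2) : ℚ) ≠ 0 := by exact_mod_cast h.q_pos.ne'
  exact pow_ne_zero 2 hq

theorem claim1 (h : Ctx p e r v m) (hP : Plane r v m) (hμ : ∀ a ∈ m, m.count a = 1)
    {a b c d : L} (hQ : P4 r m a b c d) (ha : Zr r v a) (hb : Zr r v b) (hc : Zr r v c) : False := by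
  obtain ⟨ga, hga⟩ := ha
  obtain ⟨gb, hgb⟩ := hb
  obtain ⟨gc, hgc⟩ := hc
  obtain ⟨α, β, hαβ⟩ := hP a hQ.ma b hQ.mb hQ.ab.1 hQ.ab.2 d hQ.md
  have hq2 := q2_ne h
  have s := fun {x : L} (hx : x ∈ m) {g : L ≃ₐ[ℚ] L} (h0 : X r v x g ≠ 0) => sq_of_ne h hP hμ hx h0
  have hβ : β ^ 2 = 1 := by
    have h1 := hαβ ga
    rw [hga, Int.cast_zero, mul_zero, zero_add] at h1
    exact coef_sq h1 (s hQ.mb (nz h hP hQ.ma hQ.mb hQ.ab hga)) (s hQ.md (nz h hP hQ.ma hQ.md hQ.ad hga)) hq2
  have hα : α ^ 2 = 1 := by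
    have h1 := hαβ gb
    rw [hgb, Int.cast_zero, mul_zero, add_zero] at h1
    exact coef_sq h1 (s hQ.ma (nz h hP hQ.mb hQ.ma (hQ.ab.symm h.r_pos) hgb))
      (s hQ.md (nz h hP hQ.mb hQ.md hQ.bd hgb)) hq2
  exact no_sum (hαβ gc) (s hQ.ma (nz h hP hQ.mc hQ.ma (hQ.ac.symm h.r_pos) hgc))
    (s hQ.mb (nz h hP hQ.mc hQ.mb (hQ.bc.symm h.r_pos) hgc))
    (s hQ.md (nz h hP hQ.mc hQ.md hQ.cd hgc)) hα hβ hq2

/-- the two types of coefficients -/
theorem typ (h : Ctx p e r v m) (hP : Plane r v m) (hI : PI r v m) (hμ : ∀ a ∈ m, m.count a = 1)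
    {a b c : L} (ma : a ∈ m) (mb : b ∈ m) (mc : c ∈ m) (ab : NC r a b) (ac : NC r a c)
    (bc : NC r b c) (na : ¬ Zr r v a) (nb : ¬ Zr r v b) :
    ∃ s : ℚ, s ^ 2 = 1 ∧ Zr r v c ∧
      ((∀ g, 2 * (X r v c g : ℚ) = s * ((X r v a g : ℚ) + X r v b g)) ∨
       (∀ g, 2 * (X r v c g : ℚ) = s * ((X r v a g : ℚ) - X r v b g))) := by
  obtain ⟨α, β, hαβ⟩ := hP a ma b mb ab.1 ab.2 c mc
  have hq2 := q2_ne h
  have hα0 : α ≠ 0 := by
    rintro rfl
    exact hI b mb c mc bc.1 bc.2 β (fun g => by rw [hαβ g]; ring)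
  have hβ0 : β ≠ 0 := by
    rintro rfl
    exact hI a ma c mc ac.1 ac.2 α (fun g => by rw [hαβ g]; ring)
  have sa : ∀ g, (X r v a g : ℚ) ^ 2 = (ord v ((r : L) ^ 2) : ℚ) ^ 2 := fun g =>
    sq_of_ne h hP hμ ma (fun h' => na ⟨g, h'⟩)
  have sb : ∀ g, (X r v b g : ℚ) ^ 2 = (ord v ((r : L) ^ 2) : ℚ) ^ 2 := fun g =>
    sq_of_ne h hP hμ mb (fun h' => nb ⟨g, h'⟩)
  have hor : ∀ g, X r v b g = X r v a g ∨ X r v b g = -X r v a g := by
    intro g
    have h1 : (X r v b g : ℚ) ^ 2 = (X r v a g : ℚ) ^ 2 := by rw [sa g, sb g]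
    rcases sq_eq_sq_iff_eq_or_eq_neg.1 h1 with h2 | h2
    · left; exact_mod_cast h2
    · right; exact_mod_cast h2
  have hplus : ∃ g, X r v b g = X r v a g := by
    by_contra hne
    push Not at hne
    apply ab.2
    apply h.inj_bar mb ma
    ext g
    exact (hor g).resolve_left (hne g)
  have hminus : ∃ g, X r v b g = -X r v a g := by
    by_contra hne
    push Not at hne
    apply ab.1
    apply h.inj mb ma
    ext g
    exact (hor g).resolve_right (hne g)
  obtain ⟨gp, hgp⟩ := hplus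
  obtain ⟨gm, hgm⟩ := hminus
  have ep : (X r v c gp : ℚ) = (α + β) * X r v a gp := by rw [hαβ gp, hgp]; ring
  have em : (X r v c gm : ℚ) = (α - β) * X r v a gm := by rw [hαβ gm, hgm]; push_cast; ring
  have vp : (α + β) = 0 ∨ (α + β) ^ 2 = 1 := by
    by_cases h0 : X r v c gp = 0
    · left
      rw [h0, Int.cast_zero] at ep
      rcases mul_eq_zero.1 ep.symm with h1 | h1
      · exact h1
      · exfalso
        have := sa gp
        rw [h1] at this
        exact hq2 (by rw [← this]; ring)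
    · right
      exact coef_sq ep (sa gp) (sq_of_ne h hP hμ mc h0) hq2
  have vm : (α - β) = 0 ∨ (α - β) ^ 2 = 1 := by
    by_cases h0 : X r v c gm = 0
    · left
      rw [h0, Int.cast_zero] at em
      rcases mul_eq_zero.1 em.symm with h1 | h1
      · exact h1
      · exfalso
        have := sa gm
        rw [h1] at this
        exact hq2 (by rw [← this]; ring)
    · right
      exact coef_sq em (sa gm) (sq_of_ne h hP hμ mc h0) hq2
  have hmul : α * β ≠ 0 := mul_ne_zero hα0 hβ0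
  rcases vp with vp | vp
  · -- α = - β
    have hb : β = -α := by linarith
    refine ⟨2 * α, ?_, ⟨gp, ?_⟩, Or.inr ?_⟩
    · rcases vm with vm | vm
      · exfalso
        apply hα0
        rw [hb] at vm
        linarith
      · rw [hb] at vm
        linarith [vm, show (α - -α) ^ 2 = (2 * α) ^ 2 by ring]
    · rw [vp, zero_mul] at ep
      exact_mod_cast ep
    · intro g
      rw [hαβ g, hb]
      ring
  · rcases vm with vm | vm
    · have hb : β = α := by linarith
      refine ⟨2 * α, ?_, ⟨gm, ?_⟩, Or.inl ?_⟩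
      · rw [hb] at vp
        linarith [vp, show (α + α) ^ 2 = (2 * α) ^ 2 by ring]
      · rw [vm, zero_mul] at em
        exact_mod_cast em
      · intro g
        rw [hαβ g, hb]
        ring
    · exfalso
      apply hmul
      have : 4 * (α * β) = (α + β) ^ 2 - (α - β) ^ 2 := by ring
      rw [vp, vm] at this
      linarith

/-- signs as elements -/
theorem exists_sign (h : Ctx p e r v m) {c : L} (mc : c ∈ m) {s : ℚ} (hs : s ^ 2 = 1) :
    ∃ c' ∈ m, (c' = c ∨ c' = (r : L) ^ 2 / c) ∧ ∀ g, (X r v c' g : ℚ) = s * X r v c g := by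
  have h1 : (s - 1) * (s + 1) = 0 := by linear_combination hs
  rcases mul_eq_zero.1 h1 with h2 | h2
  · have h3 : s = 1 := by linarith
    exact ⟨c, mc, Or.inl rfl, fun g => by rw [h3, one_mul]⟩
  · have h3 : s = -1 := by linarith
    refine ⟨_, h.bar_mem mc, Or.inr rfl, fun g => ?_⟩
    rw [h3, h.Xbar mc, Pi.neg_apply]
    push_cast
    ring

omit [IsGalois ℚ L] in
theorem Zr_map {a : L} (hz : Zr r v a) (g : L ≃ₐ[ℚ] L) : Zr r v (g a) := by
  obtain ⟨k, hk⟩ := hz
  refine ⟨k * g⁻¹, ?_⟩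
  rw [X_map]
  unfold act
  rw [inv_mul_cancel_right, hk]

theorem Zr_bar (h : Ctx p e r v m) {a : L} (ha : a ∈ m) (hz : Zr r v ((r : L) ^ 2 / a)) : Zr r v a := by
  obtain ⟨k, hk⟩ := hz
  refine ⟨k, ?_⟩
  rw [h.Xbar ha, Pi.neg_apply] at hk
  omega

omit [IsGalois ℚ L] in
theorem mem_conjs {x y : L} : x ∈ conjs y ↔ ∃ g : L ≃ₐ[ℚ] L, g y = x := by
  unfold conjs
  simp

theorem bar_conj (h : Ctx p e r v m) {a : L} (ha : a ∈ m) {b : L} (hb : b ∈ conjs a) :
    (r : L) ^ 2 / b ∈ conjs a := by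
  obtain ⟨c, hc⟩ := exists_conj (L := L) h.r_pos
  obtain ⟨g, rfl⟩ := mem_conjs.1 hb
  rw [mem_conjs]
  exact ⟨c * g, hc _ ((h.weil ha).map g)⟩

/-- two conjugates and a zero: supersingular -/
theorem zr_two (h : Ctx p e r v m) {a : L} (ha : a ∈ m) (hz : Zr r v a)
    (h2 : ∀ g : L ≃ₐ[ℚ] L, g a = a ∨ g a = (r : L) ^ 2 / a) : False := by
  obtain ⟨k, hk⟩ := hz
  have h1 : X r v a 1 = 0 := by
    have h3 : X r v (k a) 1 = 0 := by rw [X_one, hk]
    rcases h2 k with h4 | h4
    · rw [h4] at h3; exact h3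
    · rw [h4, h.Xbar ha, Pi.neg_apply] at h3; omega
  apply h.Xne ha
  ext g
  rw [← X_one]
  rcases h2 g with h4 | h4
  · rw [h4, h1]; rfl
  · rw [h4, h.Xbar ha, Pi.neg_apply, h1]; rfl

/-- the four conjugates -/
theorem four_conjs (h : Ctx p e r v m) {c d c' : L} (hc : c ∈ m) (hd : d ∈ m) (hcd : NC r c d)
    (hc' : c' = c ∨ c' = (r : L) ^ 2 / c) (hz : Zr r v c')
    (hsub : conjs c' ⊆ ({c, (r : L) ^ 2 / c, d, (r : L) ^ 2 / d} : Finset L)) :
    (conjs c').card = 4 ∧ d ∈ conjs c' ∧ (r : L) ^ 2 / d ∈ conjs c' := by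
  have mc' : c' ∈ m := by
    rcases hc' with rfl | rfl
    · exact hc
    · exact h.bar_mem hc
  have self : c' ∈ conjs c' := mem_conjs.2 ⟨1, rfl⟩
  have sbar := bar_conj h mc' self
  have hd' : d ∈ conjs c' := by
    by_contra hnd
    have hnd' : (r : L) ^ 2 / d ∉ conjs c' := by
      intro h'
      have := bar_conj h mc' h'
      rw [bb h.r_pos] at this
      exact hnd this
    apply zr_two h mc' hz
    intro g
    have h1 : g c' ∈ conjs c' := mem_conjs.2 ⟨g, rfl⟩
    have h2 := hsub h1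
    simp only [Finset.mem_insert, Finset.mem_singleton] at h2
    have h3 : g c' ≠ d := fun h' => hnd (h' ▸ h1)
    have h4 : g c' ≠ (r : L) ^ 2 / d := fun h' => hnd' (h' ▸ h1)
    rcases hc' with rfl | rfl
    · tauto
    · rw [bb h.r_pos]
      tauto
  have hdb := bar_conj h mc' hd'
  refine ⟨?_, hd', hdb⟩
  have hcc : c ∈ conjs c' ∧ (r : L) ^ 2 / c ∈ conjs c' := by
    rcases hc' with rfl | rfl
    · exact ⟨self, sbar⟩
    · rw [bb h.r_pos] at sbar
      exact ⟨sbar, self⟩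
  have heq : conjs c' = ({c, (r : L) ^ 2 / c, d, (r : L) ^ 2 / d} : Finset L) := by
    apply Finset.Subset.antisymm hsub
    intro x hx
    simp only [Finset.mem_insert, Finset.mem_singleton] at hx
    rcases hx with rfl | rfl | rfl | rfl
    · exact hcc.1
    · exact hcc.2
    · exact hd'
    · exact hdb
  rw [heq]
  have i1 : c ∉ ({(r : L) ^ 2 / c, d, (r : L) ^ 2 / d} : Finset L) := by
    simp only [Finset.mem_insert, Finset.mem_singleton, not_or]
    refine ⟨fun h' => h.bar_ne hc h'.symm, fun h' => hcd.1 h'.symm, fun h' => ?_⟩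
    apply hcd.2
    rw [h', bb h.r_pos]
  have i2 : (r : L) ^ 2 / c ∉ ({d, (r : L) ^ 2 / d} : Finset L) := by
    simp only [Finset.mem_insert, Finset.mem_singleton, not_or]
    exact ⟨fun h' => hcd.2 h'.symm, fun h' => hcd.1 (bar_injective h.r_pos h'.symm)⟩
  have i3 : d ∉ ({(r : L) ^ 2 / d} : Finset L) := by
    rw [Finset.mem_singleton]
    exact fun h' => h.bar_ne hd h'.symm
  rw [Finset.card_insert_of_notMem i1, Finset.card_insert_of_notMem i2,
    Finset.card_insert_of_notMem i3, Finset.card_singleton]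

/-- the decomposition group acts trivially: impossible -/
theorem not_both (h : Ctx p e r v m) (hP : Plane r v m) (hI : PI r v m) (hμ : ∀ a ∈ m, m.count a = 1)
    {a b c d : L} (hQ : P4 r m a b c d) (na : ¬ Zr r v a) (nb : ¬ Zr r v b)
    (hga : ∀ g : L ≃ₐ[ℚ] L, g a = a ∨ g a = (r : L) ^ 2 / a) : False := by
  obtain ⟨s, hs, zc, tc⟩ := typ h hP hI hμ hQ.ma hQ.mb hQ.mc hQ.ab hQ.ac hQ.bc na nb
  obtain ⟨t, ht, zd, td⟩ := typ h hP hI hμ hQ.ma hQ.mb hQ.md hQ.ab hQ.ad hQ.bd na nb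
  have inv : ∀ {x y : L} {g : L ≃ₐ[ℚ] L}, g x = y → g⁻¹ y = x := by
    intro x y g hxy
    rw [← hxy]
    exact AlgEquiv.symm_apply_apply g x
  have hgb : ∀ g : L ≃ₐ[ℚ] L, g b = b ∨ g b = (r : L) ^ 2 / b := by
    intro g
    have hm := h.hA.mem_map g hQ.mb
    have nz' : ¬ Zr r v (g b) := by
      intro hz
      apply nb
      have := Zr_map hz g⁻¹
      rwa [inv rfl] at this
    rcases hQ.all _ hm with h2 | h2 | h2 | h2
    · exfalso
      rcases h2 with h2 | h2
      · have h3 := inv h2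
        rcases hga g⁻¹ with h4 | h4
        · exact hQ.ab.1 (h3.symm.trans h4)
        · exact hQ.ab.2 (h3.symm.trans h4)
      · have h3 := inv h2
        rw [map_bar] at h3
        rcases hga g⁻¹ with h4 | h4
        · rw [h4] at h3
          exact hQ.ab.2 h3.symm
        · rw [h4, bb h.r_pos] at h3
          exact hQ.ab.1 h3.symm
    · exact h2
    · exfalso
      rcases h2 with h2 | h2
      · rw [h2] at nz'; exact nz' zc
      · apply nz'
        rw [h2]
        obtain ⟨k, hk⟩ := zc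
        exact ⟨k, by rw [h.Xbar hQ.mc, Pi.neg_apply, hk]; rfl⟩
    · exfalso
      rcases h2 with h2 | h2
      · rw [h2] at nz'; exact nz' zd
      · apply nz'
        rw [h2]
        obtain ⟨k, hk⟩ := zd
        exact ⟨k, by rw [h.Xbar hQ.md, Pi.neg_apply, hk]; rfl⟩
  -- the decomposition group fixes a and b
  have fixd : ∀ {x : L}, x ∈ m → ¬ Zr r v x → (∀ g : L ≃ₐ[ℚ] L, g x = x ∨ g x = (r : L) ^ 2 / x) →
      ∀ δ ∈ decomp v, δ x = x := by
    intro x hx nx hgx δ hδ
    rcases hgx δ with h1 | h1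
    · exact h1
    · exfalso
      apply nx
      refine ⟨1, ?_⟩
      have h2 := X_dec (r := r) hδ x 1
      have h3 : X r v x (δ * 1) = X r v (δ x) 1 := by rw [X_one, mul_one]
      rw [h3, h1, h.Xbar hx, Pi.neg_apply] at h2
      omega
  have fa := fixd hQ.ma na hga
  have fb := fixd hQ.mb nb hgb
  obtain ⟨k, hk⟩ := zc
  have mkc := h.hA.mem_map k hQ.mc
  have hfix : ∀ δ ∈ decomp v, δ (k c) = k c := by
    intro δ hδ
    have ea : δ (k a) = k a := by
      rcases hga k with h1 | h1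
      · rw [h1]; exact fa δ hδ
      · rw [h1, map_bar, fa δ hδ]
    have eb : δ (k b) = k b := by
      rcases hgb k with h1 | h1
      · rw [h1]; exact fb δ hδ
      · rw [h1, map_bar, fb δ hδ]
    apply h.inj (h.hA.mem_map δ mkc) mkc
    ext g
    have ea' : X r v a (g * δ * k) = X r v a (g * k) := congrArg (fun z => X r v z g) ea
    have eb' : X r v b (g * δ * k) = X r v b (g * k) := congrArg (fun z => X r v z g) eb
    show X r v c (g * δ * k) = X r v c (g * k)
    rcases tc with tc | tc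
    · have h1 := tc (g * δ * k)
      have h2 := tc (g * k)
      rw [ea', eb', ← h2] at h1
      have h3 : 2 * X r v c (g * δ * k) = 2 * X r v c (g * k) := by exact_mod_cast h1
      omega
    · have h1 := tc (g * δ * k)
      have h2 := tc (g * k)
      rw [ea', eb', ← h2] at h1
      have h3 : 2 * X r v c (g * δ * k) = 2 * X r v c (g * k) := by exact_mod_cast h1
      omega
  have horb : orb v (k c) = {k c} := by
    ext x
    rw [Finset.mem_singleton]
    constructor
    · intro hx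
      obtain ⟨δ, hδ, rfl⟩ := (mem_orb v).1 hx
      exact hfix δ hδ
    · rintro rfl
      exact self_mem_orb v _
  have h4 := h.hA.integral _ mkc
  rw [hμ _ mkc, horb, Finset.card_singleton] at h4
  have h5 : X r v (k c) 1 = 0 := by rw [X_one, hk]
  have h6 : X r v (k c) 1 = 2 * ord v (k c) - ord v ((r : L) ^ 2) := rfl
  have hq := h.q_pos
  obtain ⟨j, hj⟩ := h4
  push_cast at hj
  rw [h6] at h5
  have h7 : ord v ((r : L) ^ 2) * (2 * j - 1) = 0 := by linarith
  rcases mul_eq_zero.1 h7 with h8 | h8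
  · omega
  · omega

/-- the four conjugates of the element without zeros -/
theorem four_conjs' (h : Ctx p e r v m) (hP : Plane r v m) (hI : PI r v m)
    (hμ : ∀ a ∈ m, m.count a = 1)
    {a b c d : L} (hQ : P4 r m a b c d) (na : ¬ Zr r v a) (nb : ¬ Zr r v b) (zc : Zr r v c)
    (zd : Zr r v d) : (conjs a).card = 4 := by
  have hsub : conjs a ⊆ ({a, (r : L) ^ 2 / a, b, (r : L) ^ 2 / b} : Finset L) := by
    intro x hx
    obtain ⟨g, rfl⟩ := mem_conjs.1 hx
    have hm := h.hA.mem_map g hQ.ma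
    have nz' : ¬ Zr r v (g a) := by
      intro hz
      apply na
      have := Zr_map hz g⁻¹
      have e : g⁻¹ (g a) = a := AlgEquiv.symm_apply_apply g a
      rwa [e] at this
    simp only [Finset.mem_insert, Finset.mem_singleton]
    rcases hQ.all _ hm with h2 | h2 | h2 | h2
    · tauto
    · tauto
    · exfalso
      rcases h2 with h2 | h2
      · rw [h2] at nz'; exact nz' zc
      · apply nz'
        rw [h2]
        obtain ⟨k, hk⟩ := zc
        exact ⟨k, by rw [h.Xbar hQ.mc, Pi.neg_apply, hk]; rfl⟩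
    · exfalso
      rcases h2 with h2 | h2
      · rw [h2] at nz'; exact nz' zd
      · apply nz'
        rw [h2]
        obtain ⟨k, hk⟩ := zd
        exact ⟨k, by rw [h.Xbar hQ.md, Pi.neg_apply, hk]; rfl⟩
  have self : a ∈ conjs a := mem_conjs.2 ⟨1, rfl⟩
  have sbar := bar_conj h hQ.ma self
  have hb' : b ∈ conjs a := by
    by_contra hnb
    have hnb' : (r : L) ^ 2 / b ∉ conjs a := by
      intro h'
      have := bar_conj h hQ.ma h'
      rw [bb h.r_pos] at this
      exact hnb this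
    apply not_both h hP hI hμ hQ na nb
    intro g
    have h1 : g a ∈ conjs a := mem_conjs.2 ⟨g, rfl⟩
    have h2 := hsub h1
    simp only [Finset.mem_insert, Finset.mem_singleton] at h2
    have h3 : g a ≠ b := fun h' => hnb (h' ▸ h1)
    have h4 : g a ≠ (r : L) ^ 2 / b := fun h' => hnb' (h' ▸ h1)
    tauto
  have hbb := bar_conj h hQ.ma hb'
  have heq : conjs a = ({a, (r : L) ^ 2 / a, b, (r : L) ^ 2 / b} : Finset L) := by
    apply Finset.Subset.antisymm hsub
    intro x hx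
    simp only [Finset.mem_insert, Finset.mem_singleton] at hx
    rcases hx with rfl | rfl | rfl | rfl
    · exact self
    · exact sbar
    · exact hb'
    · exact hbb
  rw [heq]
  have i1 : a ∉ ({(r : L) ^ 2 / a, b, (r : L) ^ 2 / b} : Finset L) := by
    simp only [Finset.mem_insert, Finset.mem_singleton, not_or]
    refine ⟨fun h' => h.bar_ne hQ.ma h'.symm, fun h' => hQ.ab.1 h'.symm, fun h' => ?_⟩
    apply hQ.ab.2
    rw [h', bb h.r_pos]
  have i2 : (r : L) ^ 2 / a ∉ ({b, (r : L) ^ 2 / b} : Finset L) := by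
    simp only [Finset.mem_insert, Finset.mem_singleton, not_or]
    exact ⟨fun h' => hQ.ab.2 h'.symm, fun h' => hQ.ab.1 (bar_injective h.r_pos h'.symm)⟩
  have i3 : b ∉ ({(r : L) ^ 2 / b} : Finset L) := by
    rw [Finset.mem_singleton]
    exact fun h' => h.bar_ne hQ.mb h'.symm
  rw [Finset.card_insert_of_notMem i1, Finset.card_insert_of_notMem i2,
    Finset.card_insert_of_notMem i3, Finset.card_singleton]

theorem conjs_bar (h : Ctx p e r v m) {a : L} (ha : a ∈ m) : conjs ((r : L) ^ 2 / a) = conjs a := by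
  have h1 : (r : L) ^ 2 / a ∈ conjs a := bar_conj h ha (mem_conjs.2 ⟨1, rfl⟩)
  obtain ⟨c, hc⟩ := mem_conjs.1 h1
  ext x
  rw [mem_conjs, mem_conjs]
  constructor
  · rintro ⟨g, rfl⟩
    exact ⟨g * c, congrArg g hc⟩
  · rintro ⟨g, rfl⟩
    refine ⟨g * c⁻¹, ?_⟩
    show g (c⁻¹ ((r : L) ^ 2 / a)) = g a
    rw [← hc]
    congr 1
    exact AlgEquiv.symm_apply_apply c a

/-- **two without zeros, two with zeros: the exceptional configuration** -/
theorem exc_of (h : Ctx p e r v m) (hP : Plane r v m) (hI : PI r v m) (hμ : ∀ a ∈ m, m.count a = 1)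
    {a b c d : L} (hQ : P4 r m a b c d) (na : ¬ Zr r v a) (nb : ¬ Zr r v b) : Exc r m := by
  obtain ⟨s, hs, zc, tc⟩ := typ h hP hI hμ hQ.ma hQ.mb hQ.mc hQ.ab hQ.ac hQ.bc na nb
  obtain ⟨t, ht, zd, td⟩ := typ h hP hI hμ hQ.ma hQ.mb hQ.md hQ.ab hQ.ad hQ.bd na nb
  have hsub : ∀ {c' : L}, (c' = c ∨ c' = (r : L) ^ 2 / c) →
      (conjs c').card = 4 ∧ d ∈ conjs c' ∧ (r : L) ^ 2 / d ∈ conjs c' := by
    intro c' hc'
    have mc' : c' ∈ m := by
      rcases hc' with rfl | rfl
      · exact hQ.mc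
      · exact h.bar_mem hQ.mc
    have zc' : Zr r v c' := by
      rcases hc' with rfl | rfl
      · exact zc
      · apply Zr_bar h (h.bar_mem hQ.mc)
        rw [bb h.r_pos]
        exact zc
    have h1 : conjs c' ⊆ ({c, (r : L) ^ 2 / c, d, (r : L) ^ 2 / d} : Finset L) := by
      intro x hx
      obtain ⟨g, rfl⟩ := mem_conjs.1 hx
      have hz := Zr_map zc' g
      have hm := h.hA.mem_map g mc'
      simp only [Finset.mem_insert, Finset.mem_singleton]
      rcases hQ.all _ hm with h2 | h2 | h2 | h2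
      · exfalso
        rcases h2 with h2 | h2
        · rw [h2] at hz; exact na hz
        · rw [h2] at hz; exact na (Zr_bar h hQ.ma hz)
      · exfalso
        rcases h2 with h2 | h2
        · rw [h2] at hz; exact nb hz
        · rw [h2] at hz; exact nb (Zr_bar h hQ.mb hz)
      · tauto
      · tauto
    exact four_conjs h hQ.mc hQ.md hQ.cd hc' zc' h1
  have key : ∀ s' t' : ℚ, s' ^ 2 = 1 → t' ^ 2 = 1 →
      (∀ g, (X r v a g : ℚ) = s' * X r v c g + t' * X r v d g) → Exc r m := by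
    intro s' t' hs' ht' hX
    obtain ⟨c', mc', oc, ec⟩ := exists_sign h hQ.mc hs'
    obtain ⟨d', md', od, ed⟩ := exists_sign h hQ.md ht'
    have hdc : d' ∈ conjs c' := by
      rcases od with rfl | rfl
      · exact (hsub oc).2.1
      · exact (hsub oc).2.2
    obtain ⟨k, hk⟩ := mem_conjs.1 hdc
    refine ⟨c', mc', _, h.bar_mem hQ.ma, k, h.hss _ mc', h.hss _ (h.bar_mem hQ.ma), ?_, (hsub oc).1,
      by rw [conjs_bar h hQ.ma]; exact four_conjs' h hP hI hμ hQ na nb zc zd⟩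
    rw [hk, bal_iff h.hr h.hp h.hv]
    · intro g
      rw [Multiset.insert_eq_cons, Multiset.insert_eq_cons, XS_cons, XS_cons, XS_singleton,
        h.Xbar hQ.ma, Pi.neg_apply]
      have h1 := hX g
      rw [← ec, ← ed] at h1
      have h2 : X r v a g = X r v c' g + X r v d' g := by exact_mod_cast h1
      omega
    · intro x hx
      rw [Multiset.insert_eq_cons, Multiset.insert_eq_cons, Multiset.mem_cons, Multiset.mem_cons,
        Multiset.mem_singleton] at hx
      rcases hx with rfl | rfl | rfl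
      · exact h.weil mc'
      · exact h.weil md'
      · exact h.weil (h.bar_mem hQ.ma)
  have hs0 : s ≠ 0 := by
    rintro rfl
    norm_num at hs
  have ht0 : t ≠ 0 := by
    rintro rfl
    norm_num at ht
  rcases tc with tc | tc <;> rcases td with td | td
  · exfalso
    apply hI c hQ.mc d hQ.md hQ.cd.1 hQ.cd.2 (t * s)
    intro g
    have h1 := tc g
    have h2 := td g
    have h3 : (X r v a g : ℚ) + X r v b g = s * (2 * X r v c g) := by
      rw [h1, ← mul_assoc, ← pow_two, hs, one_mul]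
    rw [h3] at h2
    linarith
  · apply key s t hs ht
    intro g
    have h1 := tc g
    have h2 := td g
    have h3 : (X r v a g : ℚ) + X r v b g = s * (2 * X r v c g) := by
      rw [h1, ← mul_assoc, ← pow_two, hs, one_mul]
    have h4 : (X r v a g : ℚ) - X r v b g = t * (2 * X r v d g) := by
      rw [h2, ← mul_assoc, ← pow_two, ht, one_mul]
    linarith
  · apply key s t hs ht
    intro g
    have h1 := tc g
    have h2 := td g
    have h3 : (X r v a g : ℚ) - X r v b g = s * (2 * X r v c g) := by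
      rw [h1, ← mul_assoc, ← pow_two, hs, one_mul]
    have h4 : (X r v a g : ℚ) + X r v b g = t * (2 * X r v d g) := by
      rw [h2, ← mul_assoc, ← pow_two, ht, one_mul]
    linarith
  · exfalso
    apply hI c hQ.mc d hQ.md hQ.cd.1 hQ.cd.2 (t * s)
    intro g
    have h1 := tc g
    have h2 := td g
    have h3 : (X r v a g : ℚ) - X r v b g = s * (2 * X r v c g) := by
      rw [h1, ← mul_assoc, ← pow_two, hs, one_mul]
    rw [h3] at h2
    linarith

/-- **four pairs in a plane** -/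
theorem exc_four (h : Ctx p e r v m) (hP : Plane r v m) (hI : PI r v m) (hμ : ∀ a ∈ m, m.count a = 1)
    {a b c d : L} (hQ : P4 r m a b c d) : Exc r m := by
  have hr := h.r_pos
  by_cases za : Zr r v a
  · by_cases zb : Zr r v b
    · have nc : ¬ Zr r v c := fun zc => claim1 h hP hμ hQ za zb zc
      have nd : ¬ Zr r v d := fun zd => claim1 h hP hμ (hQ.swap34 hr) za zb zd
      -- c d a b
      have hQ2 : P4 r m c d a b :=
        ((((hQ.swap23 hr).swap12 hr).swap34 hr).swap23 hr)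
      exact exc_of h hP hI hμ hQ2 nc nd
    · by_cases zc : Zr r v c
      · -- b, d without
        have nd : ¬ Zr r v d := fun zd => claim1 h hP hμ ((hQ.swap23 hr).swap34 hr) za zc zd
        have hQ2 : P4 r m b d a c := (((hQ.swap12 hr).swap34 hr).swap23 hr)
        exact exc_of h hP hI hμ hQ2 zb nd
      · have hQ2 : P4 r m b c a d := (hQ.swap12 hr).swap23 hr
        exact exc_of h hP hI hμ hQ2 zb zc
  · by_cases zb : Zr r v b
    · by_cases zc : Zr r v c
      · have nd : ¬ Zr r v d := fun zd => claim1 h hP hμ (((hQ.swap12 hr).swap23 hr).swap34 hr) zb zc zd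
        have hQ2 : P4 r m a d b c := (hQ.swap34 hr).swap23 hr
        exact exc_of h hP hI hμ hQ2 za nd
      · exact exc_of h hP hI hμ (hQ.swap23 hr) za zc
    · exact exc_of h hP hI hμ hQ za zb

end Ctx

end Pool.Agent.Lib.MP81632f.Mk
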