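import Pool.Agent.Lib.MP_81632f_ag.Mk.Pow2

/-! # Powers: relations of non-proportional slope functions are of `K`-type -/

namespace Pool.Agent.Lib.MP81632f.Mk

open NumberField IsDedekindDomain
open scoped Classical

variable {L : Type} [Field L] [NumberField L]

/-- a half system -/
noncomputable def hs (r : ℕ) (m : Multiset L) : Finset L :=
  m.toFinset.filter (fun a => WellOrderingRel a ((r : L) ^ 2 / a))

/-- the coefficient of a pair -/
noncomputable def kk (r : ℕ) (u : Multiset L) (a : L) : ℤ :=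
  (u.count a : ℤ) - u.count ((r : L) ^ 2 / a)

variable [IsGalois ℚ L] {p e r : ℕ} {v : HeightOneSpectrum (𝓞 L)} {m : Multiset L}

namespace Ctx

omit [NumberField L] [IsGalois ℚ L] in
theorem hs_mem (a : L) (ha : a ∈ hs r m) : a ∈ m := by
  unfold hs at ha
  rw [Finset.mem_filter, Multiset.mem_toFinset] at ha
  exact ha.1

theorem hs_or (h : Ctx p e r v m) {a : L} (ha : a ∈ m) :
    (a ∈ hs r m ∧ (r : L) ^ 2 / a ∉ hs r m) ∨ (a ∉ hs r m ∧ (r : L) ^ 2 / a ∈ hs r m) := by
  have hb := h.bar_mem ha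
  have hne := h.bar_ne ha
  unfold hs
  rw [Finset.mem_filter, Finset.mem_filter, Multiset.mem_toFinset, Multiset.mem_toFinset, bb h.r_pos]
  rcases trichotomous_of (WellOrderingRel (α := L)) a ((r : L) ^ 2 / a) with h1 | h1 | h1
  · exact Or.inl ⟨⟨ha, h1⟩, fun h2 => asymm_of (WellOrderingRel (α := L)) h1 h2.2⟩
  · exact absurd h1.symm hne
  · exact Or.inr ⟨fun h2 => asymm_of (WellOrderingRel (α := L)) h1 h2.2, hb, h1⟩

theorem sum_hs (h : Ctx p e r v m) {M : Type} [AddCommMonoid M] (f : L → M) :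
    ∑ a ∈ m.toFinset, f a = ∑ a ∈ hs r m, (f a + f ((r : L) ^ 2 / a)) := by
  rw [Finset.sum_add_distrib, ← Finset.sum_filter_add_sum_filter_not m.toFinset
    (fun a => WellOrderingRel a ((r : L) ^ 2 / a)) f]
  have e1 : m.toFinset.filter (fun a => WellOrderingRel a ((r : L) ^ 2 / a)) = hs r m := rfl
  rw [e1]
  have e2 : ∑ a ∈ m.toFinset.filter (fun a => ¬ WellOrderingRel a ((r : L) ^ 2 / a)), f a =
      ∑ a ∈ hs r m, f ((r : L) ^ 2 / a) := by
    apply Finset.sum_nbij' (fun a => (r : L) ^ 2 / a) (fun a => (r : L) ^ 2 / a)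
    · intro a ha
      rw [Finset.mem_filter, Multiset.mem_toFinset] at ha
      rcases hs_or h ha.1 with h1 | h1
      · exfalso
        have h2 := h1.1
        unfold hs at h2
        exact ha.2 (Finset.mem_filter.1 h2).2
      · exact h1.2
    · intro a ha
      have ham := hs_mem a ha
      rw [Finset.mem_filter, Multiset.mem_toFinset]
      refine ⟨h.bar_mem ham, fun h2 => ?_⟩
      rcases hs_or h ham with h1 | h1
      · apply h1.2
        unfold hs
        rw [Finset.mem_filter, Multiset.mem_toFinset]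
        exact ⟨h.bar_mem ham, h2⟩
      · exact h1.1 ha
    · intro a _
      exact bb h.r_pos a
    · intro a _
      exact bb h.r_pos a
    · intro a _
      rw [bb h.r_pos]
  rw [e2]

omit [IsGalois ℚ L] in
theorem XS_count {u : Multiset L} (hu : ∀ a ∈ u, a ∈ m) (g : L ≃ₐ[ℚ] L) :
    XS r v u g = ∑ a ∈ m.toFinset, (u.count a : ℤ) * X r v a g := by
  unfold XS
  rw [Finset.sum_multiset_map_count]
  have hsub : u.toFinset ⊆ m.toFinset := by
    intro a ha
    rw [Multiset.mem_toFinset] at ha ⊢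
    exact hu a ha
  rw [Finset.sum_subset hsub]
  · exact Finset.sum_congr rfl (fun a _ => by rw [nsmul_eq_mul])
  · intro a _ ha
    rw [Multiset.mem_toFinset] at ha
    rw [Multiset.count_eq_zero_of_notMem ha, zero_smul]

omit [Field L] [NumberField L] [IsGalois ℚ L] in
theorem card_count {u : Multiset L} (hu : ∀ a ∈ u, a ∈ m) :
    u.card = ∑ a ∈ m.toFinset, u.count a := by
  rw [← Multiset.toFinset_sum_count_eq]
  have hsub : u.toFinset ⊆ m.toFinset := by
    intro a ha
    rw [Multiset.mem_toFinset] at ha ⊢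
    exact hu a ha
  apply Finset.sum_subset hsub
  intro a _ ha
  rw [Multiset.mem_toFinset] at ha
  exact Multiset.count_eq_zero_of_notMem ha

theorem XS_hs (h : Ctx p e r v m) {u : Multiset L} (hu : ∀ a ∈ u, a ∈ m) (g : L ≃ₐ[ℚ] L) :
    XS r v u g = ∑ a ∈ hs r m, kk r u a * X r v a g := by
  rw [XS_count hu, sum_hs h]
  apply Finset.sum_congr rfl
  intro a ha
  rw [h.Xbar (hs_mem a ha), Pi.neg_apply]
  unfold kk
  ring

omit [IsGalois ℚ L] in
theorem red_or (hr : 0 < r) {u : Multiset L} (hR : Red r u) (a : L) :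
    u.count a = 0 ∨ u.count ((r : L) ^ 2 / a) = 0 := by
  by_cases ha : a ∈ u
  · exact Or.inr (Multiset.count_eq_zero_of_notMem (hR.bar_notMem hr ha))
  · exact Or.inl (Multiset.count_eq_zero_of_notMem ha)

theorem card_hs (h : Ctx p e r v m) {u : Multiset L} (hR : Red r u) (hu : ∀ a ∈ u, a ∈ m) :
    (u.card : ℤ) = ∑ a ∈ hs r m, |kk r u a| := by
  rw [card_count hu, sum_hs h]
  push_cast
  apply Finset.sum_congr rfl
  intro a ha
  unfold kk
  rcases red_or h.r_pos hR a with h1 | h1
  · rw [h1]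
    push_cast
    rw [zero_sub, abs_neg, abs_of_nonneg (by positivity), zero_add]
  · rw [h1]
    push_cast
    rw [sub_zero, abs_of_nonneg (by positivity), add_zero]

theorem eq_of_kk (h : Ctx p e r v m) {u w : Multiset L} (hR : Red r u) (hR' : Red r w)
    (hu : ∀ a ∈ u, a ∈ m) (hw : ∀ a ∈ w, a ∈ m) (hk : ∀ a ∈ hs r m, kk r u a = kk r w a) : u = w := by
  ext a
  by_cases ha : a ∈ m
  · rcases hs_or h ha with h1 | h1
    · have h2 := hk a h1.1
      unfold kk at h2
      have h3 := red_or h.r_pos hR a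
      have h4 := red_or h.r_pos hR' a
      omega
    · have h2 := hk _ h1.2
      unfold kk at h2
      rw [bb h.r_pos] at h2
      have h3 := red_or h.r_pos hR a
      have h4 := red_or h.r_pos hR' a
      omega
  · rw [Multiset.count_eq_zero_of_notMem (fun h' => ha (hu a h')),
      Multiset.count_eq_zero_of_notMem (fun h' => ha (hw a h'))]

omit [IsGalois ℚ L] in
theorem kk_bars (hr : 0 < r) (u : Multiset L) (a : L) : kk r (bars r u) a = -kk r u a := by
  unfold kk
  rw [count_bars hr, count_bars hr, bb hr]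
  ring

end Ctx

end Pool.Agent.Lib.MP81632f.Mk
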