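import Pool.Agent.Lib.MP_81632f_ag.Mk.Pow3

/-! # Powers: relations of non-proportional slope functions are of `K`-type, continued -/

namespace Pool.Agent.Lib.MP81632f.Mk

open NumberField IsDedekindDomain
open scoped Classical

variable {L : Type} [Field L] [NumberField L] {r : ℕ}

theorem Red.map_of {u : Multiset L} (h : Red r u) (g : L ≃ₐ[ℚ] L) : Red r (u.map g) where
  weil a ha := by
    obtain ⟨b, hb, rfl⟩ := Multiset.mem_map.1 ha
    exact (h.weil b hb).map g
  ss a ha := by
    obtain ⟨b, hb, rfl⟩ := Multiset.mem_map.1 ha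
    rw [isSS_map_iff]
    exact h.ss b hb
  pair a b hab hbal := by
    have h1 := Multiset.map_le_map (f := (g.symm : L → L)) hab
    rw [Multiset.map_map] at h1
    have e : (g.symm : L → L) ∘ (g : L → L) = id := by
      ext x
      exact AlgEquiv.symm_apply_apply g x
    rw [e, Multiset.map_id] at h1
    have h2 := hbal.map g.symm
    have e2 : ({a, b} : Multiset L).map (g.symm : L → L) = {g.symm a, g.symm b} := by
      rw [Multiset.insert_eq_cons, Multiset.map_cons, Multiset.map_singleton, Multiset.insert_eq_cons]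
    rw [e2] at h1 h2
    exact h.pair _ _ h1 h2

variable [IsGalois ℚ L]

theorem Red.bars_of (hr : 0 < r) {u : Multiset L} (h : Red r u) : Red r (bars r u) := by
  obtain ⟨c, hc⟩ := exists_conj (L := L) hr
  have e : bars r u = u.map c := by
    unfold bars
    apply Multiset.map_congr rfl
    intro a ha
    exact (hc a (h.weil a ha)).symm
  rw [e]
  exact h.map_of c

variable {p e : ℕ} {v : HeightOneSpectrum (𝓞 L)} {m : Multiset L}

namespace Ctx

/-- the slope function with rational values -/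
noncomputable def XQ (r : ℕ) (v : HeightOneSpectrum (𝓞 L)) (a : L) : (L ≃ₐ[ℚ] L) → ℚ :=
  fun g => (X r v a g : ℚ)

/-- relations -/
noncomputable def Phi (r : ℕ) (v : HeightOneSpectrum (𝓞 L)) (m : Multiset L) :
    ((hs r m) → ℚ) →ₗ[ℚ] ((L ≃ₐ[ℚ] L) → ℚ) :=
  Fintype.linearCombination ℚ (fun a : hs r m => XQ r v (a : L))

theorem indep (h : Ctx p e r v m) (hI : PI r v m) {a b : L} (ha : a ∈ m) (hb : b ∈ m)
    (h1 : b ≠ a) (h2 : b ≠ (r : L) ^ 2 / a) : LinearIndependent ℚ ![XQ r v a, XQ r v b] := by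
  rw [LinearIndependent.pair_iff]
  intro s t hst
  have hX : ∀ g, s * (X r v a g : ℚ) + t * (X r v b g : ℚ) = 0 := fun g => congrFun hst g
  have ht : t = 0 := by
    by_contra ht
    apply hI a ha b hb h1 h2 (-s / t)
    intro g
    have := hX g
    field_simp
    linarith
  refine ⟨?_, ht⟩
  by_contra hs'
  apply h.Xne ha
  ext g
  have := hX g
  rw [ht, zero_mul, add_zero] at this
  have h3 := (mul_eq_zero.1 this).resolve_left hs'
  exact_mod_cast h3

theorem XQ_range (h : Ctx p e r v m) {a : L} (ha : a ∈ m) :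
    XQ r v a ∈ LinearMap.range (Phi r v m) := by
  unfold Phi
  rw [Fintype.range_linearCombination]
  rcases hs_or h ha with h1 | h1
  · exact Submodule.subset_span ⟨⟨a, h1.1⟩, rfl⟩
  · have h2 : XQ r v ((r : L) ^ 2 / a) ∈
        Submodule.span ℚ (Set.range (fun a : hs r m => XQ r v (a : L))) :=
      Submodule.subset_span ⟨⟨_, h1.2⟩, rfl⟩
    have e : XQ r v a = -XQ r v ((r : L) ^ 2 / a) := by
      ext g
      unfold XQ
      rw [Pi.neg_apply, h.Xbar ha, Pi.neg_apply]
      push_cast
      ring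
    rw [e]
    exact Submodule.neg_mem _ h2

theorem ker_mem (h : Ctx p e r v m) {u : Multiset L} (hu : ∀ a ∈ u, a ∈ m) (hb : Bal r u) :
    (fun a : hs r m => (kk r u (a : L) : ℚ)) ∈ LinearMap.ker (Phi r v m) := by
  rw [LinearMap.mem_ker]
  unfold Phi
  rw [Fintype.linearCombination_apply]
  ext g
  rw [Finset.sum_apply, Pi.zero_apply]
  have h1 := (bal_iff h.hr h.hp h.hv (fun a ha => h.weil (hu a ha))).1 hb g
  rw [XS_hs h hu] at h1
  have h2 : ∑ a : hs r m, (kk r u (a : L) : ℚ) * (X r v (a : L) g : ℚ) = 0 := by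
    rw [Finset.sum_coe_sort (hs r m) (fun a => (kk r u a : ℚ) * (X r v a g : ℚ))]
    exact_mod_cast h1
  exact h2

/-- independent relations -/
theorem ker_indep (h : Ctx p e r v m) {u w : Multiset L} (hR : Red r u) (hR' : Red r w)
    (hu : ∀ a ∈ u, a ∈ m) (hw : ∀ a ∈ w, a ∈ m) (hc : u.card = w.card) (h0 : 0 < u.card)
    (h1 : w ≠ u) (h2 : w ≠ bars r u) :
    LinearIndependent ℚ ![(fun a : hs r m => (kk r u (a : L) : ℚ)),
      (fun a : hs r m => (kk r w (a : L) : ℚ))] := by
  have hbu : ∀ a ∈ bars r u, a ∈ m := by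
    intro a ha
    rw [mem_bars h.r_pos] at ha
    have := h.bar_mem (hu _ ha)
    rwa [bb h.r_pos] at this
  rw [LinearIndependent.pair_iff]
  intro s t hst
  have hX : ∀ a ∈ hs r m, s * (kk r u a : ℚ) + t * (kk r w a : ℚ) = 0 :=
    fun a ha => congrFun hst ⟨a, ha⟩
  have hcu := card_hs h hR hu
  have hcw := card_hs h hR' hw
  have hs1 : |s| * (u.card : ℚ) = |t| * (w.card : ℚ) := by
    have e1 : (u.card : ℚ) = ∑ a ∈ hs r m, |(kk r u a : ℚ)| := by
      have : ((u.card : ℤ) : ℚ) = ((∑ a ∈ hs r m, |kk r u a| : ℤ) : ℚ) := by rw [hcu]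
      push_cast at this
      exact this
    have e2 : (w.card : ℚ) = ∑ a ∈ hs r m, |(kk r w a : ℚ)| := by
      have : ((w.card : ℤ) : ℚ) = ((∑ a ∈ hs r m, |kk r w a| : ℤ) : ℚ) := by rw [hcw]
      push_cast at this
      exact this
    rw [e1, e2, Finset.mul_sum, Finset.mul_sum]
    apply Finset.sum_congr rfl
    intro a ha
    rw [← abs_mul, ← abs_mul]
    have : s * (kk r u a : ℚ) = -(t * (kk r w a : ℚ)) := by linarith [hX a ha]
    rw [this, abs_neg]
  have hpos : (0 : ℚ) < u.card := by exact_mod_cast h0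
  rw [← hc] at hs1
  have hs2 : |s| = |t| := mul_right_cancel₀ hpos.ne' hs1
  have ht : t = 0 := by
    by_contra ht
    rcases abs_eq_abs.1 hs2 with h3 | h3
    · -- s = t, so kk w = - kk u
      apply h2
      apply eq_of_kk h hR' (hR.bars_of h.r_pos) hw hbu
      intro a ha
      rw [kk_bars h.r_pos]
      have h4 := hX a ha
      rw [h3, ← mul_add] at h4
      have h5 := (mul_eq_zero.1 h4).resolve_left ht
      have h6 : kk r u a + kk r w a = 0 := by exact_mod_cast h5
      omega
    · apply h1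
      apply eq_of_kk h hR' hR hw hu
      intro a ha
      have h4 := hX a ha
      have h5 : t * ((kk r w a : ℚ) - (kk r u a : ℚ)) = 0 := by rw [h3] at h4; linarith
      have h6 := (mul_eq_zero.1 h5).resolve_left ht
      have h7 : (kk r w a : ℚ) = (kk r u a : ℚ) := by linarith
      exact_mod_cast h7
  refine ⟨?_, ht⟩
  rw [ht, abs_zero, abs_eq_zero] at hs2
  exact hs2

theorem two_le_ker {V W : Type} [AddCommGroup V] [Module ℚ V] [AddCommGroup W] [Module ℚ W]
    [FiniteDimensional ℚ V] (f : V →ₗ[ℚ] W) {x y : V} (hx : x ∈ LinearMap.ker f)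
    (hy : y ∈ LinearMap.ker f) (hI : LinearIndependent ℚ ![x, y]) :
    2 ≤ Module.finrank ℚ (LinearMap.ker f) := by
  have h1 : Module.finrank ℚ (Submodule.span ℚ (Set.range ![x, y])) = 2 := by
    rw [finrank_span_eq_card hI, Fintype.card_fin]
  rw [← h1]
  apply Submodule.finrank_mono
  rw [Submodule.span_le]
  rintro z ⟨i, rfl⟩
  fin_cases i
  · exact hx
  · exact hy

/-- **Claim A**: relations are of `K`-type, or the exceptional configuration occurs -/
theorem claimA (h : Ctx p e r v m) (hc : m.card ≤ 8) (hI : PI r v m) {u : Multiset L} (hR : Red r u)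
    (hb : Bal r u) (hu : ∀ a ∈ u, a ∈ m) (h0 : 0 < u.card) (g : L ≃ₐ[ℚ] L) :
    (u.map g = u ∨ u.map g = bars r u) ∨ Exc r m := by
  by_cases hg : u.map g = u ∨ u.map g = bars r u
  · exact Or.inl hg
  right
  push Not at hg
  have hw : ∀ a ∈ u.map g, a ∈ m := by
    intro a ha
    obtain ⟨b, hb', rfl⟩ := Multiset.mem_map.1 ha
    exact h.hA.mem_map g (hu b hb')
  have hk := two_le_ker (Phi r v m) (ker_mem h hu hb) (ker_mem h hw (hb.map g))
    (ker_indep h hR (hR.map_of g) hu hw (Multiset.card_map _ _).symm h0 hg.1 hg.2)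
  have hrn := LinearMap.finrank_range_add_finrank_ker (Phi r v m)
  rw [Module.finrank_fintype_fun_eq_card, Fintype.card_coe] at hrn
  -- plane
  have hle8 : 2 * (hs r m).card ≤ m.card := by
    have h1 := Multiset.toFinset_card_le m
    have h2 := sum_hs h (fun _ => 1)
    rw [← Finset.card_eq_sum_ones] at h2
    rw [Finset.sum_const, smul_eq_mul] at h2
    omega
  have hspan : ∀ a ∈ m, ∀ b ∈ m, b ≠ a → b ≠ (r : L) ^ 2 / a →
      Module.finrank ℚ (Submodule.span ℚ (Set.range ![XQ r v a, XQ r v b])) = 2 ∧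
      Submodule.span ℚ (Set.range ![XQ r v a, XQ r v b]) ≤ LinearMap.range (Phi r v m) := by
    intro a ha b hb' h1 h2
    refine ⟨?_, ?_⟩
    · rw [finrank_span_eq_card (indep h hI ha hb' h1 h2), Fintype.card_fin]
    · rw [Submodule.span_le]
      rintro z ⟨i, rfl⟩
      fin_cases i
      · exact XQ_range h ha
      · exact XQ_range h hb'
  have hP : Plane r v m := by
    intro a ha b hb' h1 h2 c hc'
    obtain ⟨e1, e2⟩ := hspan a ha b hb' h1 h2
    have e3 := Submodule.eq_of_le_of_finrank_le e2 (by omega)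
    have e4 := XQ_range h hc'
    rw [← e3, Matrix.range_cons, Matrix.range_cons, Matrix.range_empty, Set.union_empty,
      Set.singleton_union, Submodule.mem_span_pair] at e4
    obtain ⟨α, β, hαβ⟩ := e4
    exact ⟨α, β, fun k => (congrFun hαβ k).symm⟩
  -- at least four
  have h4 : (hs r m).card = 4 := by
    have h2 : 2 ≤ (hs r m).card := by omega
    obtain ⟨x, hx, y, hy, hxy⟩ := Finset.one_lt_card.1 (show 1 < (hs r m).card by omega)
    have mx := hs_mem x hx
    have my := hs_mem y hy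
    have hyx : y ≠ (r : L) ^ 2 / x := by
      intro h'
      rcases hs_or h mx with h1 | h1
      · exact h1.2 (h' ▸ hy)
      · exact h1.1 hx
    obtain ⟨e1, e2⟩ := hspan x mx y my (Ne.symm hxy) hyx
    have e3 := Submodule.finrank_mono e2
    omega
  have hnd : m.Nodup := by
    rw [← Multiset.toFinset_card_eq_card_iff_nodup]
    have h1 := Multiset.toFinset_card_le m
    have h2 := sum_hs h (fun _ => 1)
    rw [← Finset.card_eq_sum_ones] at h2
    rw [Finset.sum_const, smul_eq_mul] at h2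
    omega
  have hμ : ∀ a ∈ m, m.count a = 1 := fun a ha => Multiset.count_eq_one_of_mem hnd ha
  obtain ⟨a, b, c, d, hab, hac, had, hbc, hbd, hcd, hH⟩ := Finset.card_eq_four.1 h4
  have mm : ∀ x ∈ hs r m, ∀ y ∈ hs r m, x ≠ y → NC r x y := by
    intro x hx y hy hxy
    refine ⟨Ne.symm hxy, ?_⟩
    intro h'
    rcases hs_or h (hs_mem x hx) with h1 | h1
    · exact h1.2 (h' ▸ hy)
    · exact h1.1 hx
  have ia : a ∈ hs r m := by rw [hH]; simp
  have ib : b ∈ hs r m := by rw [hH]; simp
  have ic : c ∈ hs r m := by rw [hH]; simp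
  have id' : d ∈ hs r m := by rw [hH]; simp
  have hQ : P4 r m a b c d := by
    refine ⟨hs_mem a ia, hs_mem b ib, hs_mem c ic, hs_mem d id', mm a ia b ib hab, mm a ia c ic hac,
      mm a ia d id' had, mm b ib c ic hbc, mm b ib d id' hbd, mm c ic d id' hcd, ?_⟩
    intro w hw'
    have : ∀ x : L, x ∈ hs r m → x = a ∨ x = b ∨ x = c ∨ x = d := by
      intro x hx
      rw [hH] at hx
      simpa using hx
    rcases hs_or h hw' with h1 | h1
    · rcases this w h1.1 with h2 | h2 | h2 | h2 <;> tauto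
    · have e : w = (r : L) ^ 2 / ((r : L) ^ 2 / w) := (bb h.r_pos w).symm
      rcases this _ h1.2 with h2 | h2 | h2 | h2 <;> rw [h2] at e <;> tauto
  exact exc_four h hP hI hμ hQ

end Ctx

end Pool.Agent.Lib.MP81632f.Mk
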