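import Pool.Agent.Lib.MP_81632f_ag.Mk.Pow4

/-! # Powers: splitting off a reduced class of `K`-type -/

namespace Pool.Agent.Lib.MP81632f.Mk

open NumberField IsDedekindDomain
open scoped Classical

variable {L : Type} [Field L] [NumberField L]

/-- sums over unions of orbits of the decomposition group -/
theorem sum_dvd (v : HeightOneSpectrum (𝓞 L)) (Q : ℤ) (μ : L → ℕ) (n : ℕ) :
    ∀ U : Finset L, U.card = n → (∀ a ∈ U, ∀ b ∈ orb v a, b ∈ U) →
    (∀ a ∈ U, ∀ b ∈ orb v a, μ b = μ a) →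
    (∀ a ∈ U, Q ∣ ((μ a * (orb v a).card : ℕ) : ℤ) * ord v a) →
    Q ∣ ∑ a ∈ U, (μ a : ℤ) * ord v a := by
  induction n using Nat.strong_induction_on with
  | _ n ih =>
    intro U hU h1 h2 h3
    by_cases hne : U = ∅
    · rw [hne, Finset.sum_empty]
      exact dvd_zero Q
    · obtain ⟨a, ha⟩ := Finset.nonempty_iff_ne_empty.2 hne
      have hsub : orb v a ⊆ U := fun b hb => h1 a ha b hb
      rw [← Finset.sum_sdiff hsub]
      apply dvd_add
      · apply ih (U \ orb v a).card _ (U \ orb v a) rfl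
        · intro x hx b hb
          rw [Finset.mem_sdiff] at hx ⊢
          refine ⟨h1 x hx.1 b hb, fun hb' => hx.2 ?_⟩
          have e1 := orb_eq v hb
          have e2 := orb_eq v hb'
          rw [← e2, e1]
          exact self_mem_orb v x
        · intro x hx
          exact h2 x (Finset.mem_sdiff.1 hx).1
        · intro x hx
          exact h3 x (Finset.mem_sdiff.1 hx).1
        · rw [← hU]
          apply Finset.card_lt_card
          rw [Finset.ssubset_iff_subset_ne]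
          refine ⟨Finset.sdiff_subset, fun h' => ?_⟩
          have := h' ▸ ha
          exact (Finset.mem_sdiff.1 this).2 (self_mem_orb v a)
      · have e : ∑ b ∈ orb v a, (μ b : ℤ) * ord v b = ((μ a * (orb v a).card : ℕ) : ℤ) * ord v a := by
          rw [Finset.sum_congr rfl (fun b hb => by rw [h2 a ha b hb, ord_of_mem v hb]),
            Finset.sum_const]
          push_cast
          rw [nsmul_eq_mul]
          ring
        rw [e]
        exact h3 a ha

variable [IsGalois ℚ L]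

/-- a relation of `K`-type -/
structure KCtx (p e r : ℕ) (v : HeightOneSpectrum (𝓞 L)) (m t : Multiset L) : Prop where
  h : Ctx p e r v m
  hc : m.card ≤ 8
  hR : Red r t
  hb : Bal r t
  ht : ∀ a ∈ t, a ∈ m
  h0 : 0 < t.card
  hg : ∀ g : L ≃ₐ[ℚ] L, t.map g = t ∨ t.map g = bars r t

variable {p e r : ℕ} {v : HeightOneSpectrum (𝓞 L)} {m t : Multiset L}

omit [NumberField L] [IsGalois ℚ L] in
/-- invariant subsets -/
def Inv (t : Multiset L) (U : Finset L) : Prop :=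
  (∀ b ∈ U, b ∈ t) ∧ ∀ b ∈ U, ∀ g : L ≃ₐ[ℚ] L, g b ∈ t → g b ∈ U

/-- the conjugates in `t` -/
noncomputable def O (t : Multiset L) (a : L) : Finset L :=
  t.toFinset.filter (fun b => ∃ g : L ≃ₐ[ℚ] L, g a = b)

omit [IsGalois ℚ L] in
theorem mem_O {a b : L} : b ∈ O t a ↔ b ∈ t ∧ ∃ g : L ≃ₐ[ℚ] L, g a = b := by
  unfold O
  rw [Finset.mem_filter, Multiset.mem_toFinset]

omit [IsGalois ℚ L] in
theorem inv_O (a : L) : Inv t (O t a) := by
  refine ⟨fun b hb => (mem_O.1 hb).1, fun b hb g hgb => ?_⟩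
  obtain ⟨_, k, rfl⟩ := mem_O.1 hb
  exact mem_O.2 ⟨hgb, g * k, rfl⟩

omit [IsGalois ℚ L] in
theorem inv_T : Inv t t.toFinset :=
  ⟨fun _ hb => Multiset.mem_toFinset.1 hb, fun _ _ _ hgb => Multiset.mem_toFinset.2 hgb⟩

omit [IsGalois ℚ L] in
theorem fix_mem {g : L ≃ₐ[ℚ] L} (hg : t.map g = t) {b : L} (hb : b ∈ t) : g b ∈ t := by
  have h1 : g b ∈ t.map g := Multiset.mem_map_of_mem _ hb
  rwa [hg] at h1

omit [IsGalois ℚ L] in
theorem image_inv {g : L ≃ₐ[ℚ] L} (hg : t.map g = t) {U : Finset L} (hU : Inv t U) :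
    U.image g = U := by
  apply Finset.eq_of_subset_of_card_le
  · intro x hx
    obtain ⟨b, hb, rfl⟩ := Finset.mem_image.1 hx
    exact hU.2 b hb g (fix_mem hg (hU.1 b hb))
  · rw [Finset.card_image_of_injective U g.injective]

omit [IsGalois ℚ L] in
theorem sum_inv {g : L ≃ₐ[ℚ] L} (hg : t.map g = t) {U : Finset L} (hU : Inv t U) (f : L → ℤ) :
    ∑ b ∈ U, f (g b) = ∑ b ∈ U, f b := by
  conv_rhs => rw [← image_inv hg hU]
  rw [Finset.sum_image (fun x _ y _ hxy => g.injective hxy)]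

namespace KCtx

theorem exists_c (k : KCtx p e r v m t) (g : L ≃ₐ[ℚ] L) (hg : t.map g = bars r t) :
    ∃ g' : L ≃ₐ[ℚ] L, t.map g' = t ∧ ∀ b ∈ m, g' b = (r : L) ^ 2 / g b := by
  obtain ⟨c, hc⟩ := exists_conj (L := L) k.h.r_pos
  have e : ∀ b ∈ m, (c * g) b = (r : L) ^ 2 / g b := fun b hb => hc _ ((k.h.weil hb).map g)
  refine ⟨c * g, ?_, e⟩
  have e2 : t.map (c * g : L ≃ₐ[ℚ] L) = bars r (t.map g) := by
    unfold bars
    rw [Multiset.map_map]
    apply Multiset.map_congr rfl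
    intro a ha
    exact e a (k.ht a ha)
  rw [e2, hg, bars_bars k.h.r_pos]

/-- values at other places -/
theorem exists_fix (k : KCtx p e r v m t) (g : L ≃ₐ[ℚ] L) :
    ∃ (g' : L ≃ₐ[ℚ] L) (s : ℤ), t.map g' = t ∧ (s = 1 ∨ s = -1) ∧ (t.map g = bars r t → s = -1) ∧
      ∀ b ∈ m, X r v b g = s * X r v (g' b) 1 := by
  by_cases hb : t.map g = bars r t
  · obtain ⟨g', h1, h2⟩ := k.exists_c g hb
    refine ⟨g', -1, h1, Or.inr rfl, fun _ => rfl, fun b hb' => ?_⟩
    rw [h2 b hb', k.h.Xbar (k.h.hA.mem_map g hb'), Pi.neg_apply, Ctx.X_one]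
    ring
  · rcases k.hg g with h1 | h1
    · exact ⟨g, 1, h1, Or.inl rfl, fun h' => absurd h' hb, fun b _ => by rw [Ctx.X_one]; ring⟩
    · exact absurd h1 hb

/-- the sum over an invariant set -/
theorem sum_X (k : KCtx p e r v m t) {U : Finset L} (hU : Inv t U) (g : L ≃ₐ[ℚ] L) :
    ∃ s : ℤ, (s = 1 ∨ s = -1) ∧ (t.map g = bars r t → s = -1) ∧
      ∑ b ∈ U, X r v b g = s * ∑ b ∈ U, X r v b 1 := by
  obtain ⟨g', s, h1, h2, h3, h4⟩ := k.exists_fix g
  refine ⟨s, h2, h3, ?_⟩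
  rw [Finset.sum_congr rfl (fun b hb => h4 b (k.ht b (hU.1 b hb))), ← Finset.mul_sum,
    sum_inv h1 hU (fun b => X r v b 1)]

theorem bal_of_sum (k : KCtx p e r v m t) {U : Finset L} (hU : Inv t U)
    (h0 : ∑ b ∈ U, X r v b 1 = 0) (g : L ≃ₐ[ℚ] L) : ∑ b ∈ U, X r v b g = 0 := by
  obtain ⟨s, _, _, h3⟩ := k.sum_X hU g
  rw [h3, h0, mul_zero]

/-- constant slopes -/
theorem const (k : KCtx p e r v m t) {U : Finset L} (hU : Inv t U) {x : ℤ}
    (hx : ∀ b ∈ U, X r v b 1 = x) : U.card ≤ 1 := by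
  rw [Finset.card_le_one]
  intro a ha b hb
  apply k.h.inj (k.ht a (hU.1 a ha)) (k.ht b (hU.1 b hb))
  ext g
  obtain ⟨g', s, h1, _, _, h4⟩ := k.exists_fix g
  rw [h4 a (k.ht a (hU.1 a ha)), h4 b (k.ht b (hU.1 b hb)),
    hx _ (hU.2 a ha g' (fix_mem h1 (hU.1 a ha))), hx _ (hU.2 b hb g' (fix_mem h1 (hU.1 b hb)))]

theorem ne_bar (k : KCtx p e r v m t) {a b : L} (ha : a ∈ t) (hb : b ∈ t) : b ≠ (r : L) ^ 2 / a :=
  fun h' => k.hR.bar_notMem k.h.r_pos ha (h' ▸ hb)

theorem ge_three (k : KCtx p e r v m t) {U : Finset L} (hU : Inv t U) (hne : U.Nonempty)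
    (h0 : ∑ b ∈ U, X r v b 1 = 0) : 3 ≤ U.card := by
  have hpos := Finset.card_pos.2 hne
  by_contra hlt
  have hcase : U.card = 1 ∨ U.card = 2 := by omega
  have hz := k.bal_of_sum hU h0
  rcases hcase with h1 | h1
  · obtain ⟨a, rfl⟩ := Finset.card_eq_one.1 h1
    apply k.h.Xne (k.ht a (hU.1 a (Finset.mem_singleton_self a)))
    ext g
    have := hz g
    rw [Finset.sum_singleton] at this
    exact this
  · obtain ⟨a, b, hab, rfl⟩ := Finset.card_eq_two.1 h1
    have ma : a ∈ t := hU.1 a (by simp)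
    have mb : b ∈ t := hU.1 b (by simp)
    apply k.ne_bar ma mb
    apply k.h.inj_bar (k.ht b mb) (k.ht a ma)
    ext g
    have := hz g
    rw [Finset.sum_pair hab] at this
    rw [Pi.neg_apply]
    omega

theorem flip_zero (k : KCtx p e r v m t) {U : Finset L} (hU : Inv t U) {d : L ≃ₐ[ℚ] L}
    (hd : d ∈ decomp v) (hdt : t.map d = bars r t) : ∑ b ∈ U, X r v b 1 = 0 := by
  obtain ⟨s, _, h2, h3⟩ := k.sum_X hU d
  rw [h2 hdt] at h3
  have h4 : ∑ b ∈ U, X r v b d = ∑ b ∈ U, X r v b 1 := by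
    apply Finset.sum_congr rfl
    intro b _
    have := X_dec (r := r) hd b 1
    rwa [mul_one] at this
  omega

omit [IsGalois ℚ L] in
theorem self_O {a : L} (ha : a ∈ t) : a ∈ O t a := mem_O.2 ⟨ha, 1, rfl⟩

/-- the counts on a set of conjugates -/
theorem count_O (k : KCtx p e r v m t) {a b : L} (hb : b ∈ O t a) (ha : a ∈ t) : t.count b = t.count a := by
  obtain ⟨hbt, g, rfl⟩ := mem_O.1 hb
  rcases k.hg g with h1 | h1
  · conv_lhs => rw [← h1]
    exact Multiset.count_map_eq_count' g t g.injective a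
  · exfalso
    have h2 : g a ∈ t.map g := Multiset.mem_map_of_mem _ ha
    rw [h1] at h2
    exact k.hR.notMem_bars k.h.r_pos hbt h2

end KCtx

omit [IsGalois ℚ L] in
theorem conjs_map (a : L) (g : L ≃ₐ[ℚ] L) : g a ∈ conjs a := Ctx.mem_conjs.2 ⟨g, rfl⟩

namespace Ctx

omit [IsGalois ℚ L] in
theorem count_of_conjs (h : Ctx p e r v m) {a b : L} (hb : b ∈ conjs a) : m.count b = m.count a := by
  obtain ⟨g, rfl⟩ := mem_conjs.1 hb
  exact h.hA.count_map g a

omit [IsGalois ℚ L] in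
/-- counting conjugates -/
theorem conjs_count (h : Ctx p e r v m) {a : L} (ha : a ∈ m) :
    (conjs a).card * m.count a ≤ m.card := by
  have h1 : ∑ b ∈ conjs a, m.count b = (conjs a).card * m.count a := by
    rw [Finset.sum_congr rfl (fun b hb => count_of_conjs h hb), Finset.sum_const, smul_eq_mul]
  rw [← h1, ← Multiset.toFinset_sum_count_eq]
  apply Finset.sum_le_sum_of_subset
  intro b hb
  obtain ⟨g, rfl⟩ := mem_conjs.1 hb
  exact Multiset.mem_toFinset.2 (h.hA.mem_map g ha)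

omit [IsGalois ℚ L] in
theorem conjs_count2 (h : Ctx p e r v m) {a c : L} (ha : a ∈ m) (hc : c ∈ m) (hac : c ∉ conjs a) :
    (conjs a).card * m.count a + (conjs c).card * m.count c ≤ m.card := by
  have h1 : ∀ {x : L}, x ∈ m → ∑ b ∈ conjs x, m.count b = (conjs x).card * m.count x := by
    intro x _
    rw [Finset.sum_congr rfl (fun b hb => count_of_conjs h hb), Finset.sum_const, smul_eq_mul]
  have hdis : Disjoint (conjs a) (conjs c) := by
    rw [Finset.disjoint_left]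
    intro x hx hx'
    obtain ⟨g, hg⟩ := mem_conjs.1 hx
    obtain ⟨k, hk⟩ := mem_conjs.1 hx'
    apply hac
    rw [mem_conjs]
    refine ⟨k⁻¹ * g, ?_⟩
    show k⁻¹ (g a) = c
    rw [hg, ← hk]
    exact AlgEquiv.symm_apply_apply k c
  rw [← h1 ha, ← h1 hc, ← Finset.sum_union hdis, ← Multiset.toFinset_sum_count_eq]
  apply Finset.sum_le_sum_of_subset
  intro b hb
  rcases Finset.mem_union.1 hb with hb | hb
  · obtain ⟨g, rfl⟩ := mem_conjs.1 hb
    exact Multiset.mem_toFinset.2 (h.hA.mem_map g ha)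
  · obtain ⟨g, rfl⟩ := mem_conjs.1 hb
    exact Multiset.mem_toFinset.2 (h.hA.mem_map g hc)

end Ctx

end Pool.Agent.Lib.MP81632f.Mk
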