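import Pool.Agent.Lib.MP_81632f_ag.Mk.Pow5

/-! # Powers: splitting off a reduced class of `K`-type, continued -/

namespace Pool.Agent.Lib.MP81632f.Mk

open NumberField IsDedekindDomain
open scoped Classical

variable {L : Type} [Field L] [NumberField L] [IsGalois ℚ L]
variable {p e r : ℕ} {v : HeightOneSpectrum (𝓞 L)} {m t : Multiset L}

/-- a class of `K`-type with three or four elements, part of `t` -/
structure Part (r : ℕ) (v : HeightOneSpectrum (𝓞 L)) (t S : Multiset L) : Prop where
  le : S ≤ t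
  bal : Bal r S
  av : IsAV r v (S + bars r S)
  three : 3 ≤ S.card
  four : S.card ≤ 4

namespace KCtx

theorem bar_conj (h : Ctx p e r v m) {a : L} (ha : a ∈ m) {b : L} (hb : b ∈ conjs a) :
    (r : L) ^ 2 / b ∈ conjs a := by
  obtain ⟨c, hc⟩ := exists_conj (L := L) h.r_pos
  obtain ⟨g, rfl⟩ := Ctx.mem_conjs.1 hb
  rw [Ctx.mem_conjs]
  exact ⟨c * g, hc _ ((h.weil ha).map g)⟩

theorem two_O_le (k : KCtx p e r v m t) {a : L} (ha : a ∈ t) : 2 * (O t a).card ≤ (conjs a).card := by
  have hdis : Disjoint (O t a) ((O t a).image (fun b => (r : L) ^ 2 / b)) := by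
    rw [Finset.disjoint_left]
    intro x hx hx'
    obtain ⟨y, hy, hyx⟩ := Finset.mem_image.1 hx'
    exact k.ne_bar (mem_O.1 hy).1 (mem_O.1 hx).1 hyx.symm
  have h1 : (O t a ∪ (O t a).image (fun b => (r : L) ^ 2 / b)).card = 2 * (O t a).card := by
    rw [Finset.card_union_of_disjoint hdis, Finset.card_image_of_injective _ (bar_injective k.h.r_pos)]
    ring
  rw [← h1]
  apply Finset.card_le_card
  have h2 : O t a ⊆ conjs a := fun b hb => Ctx.mem_conjs.2 (mem_O.1 hb).2
  apply Finset.union_subset h2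
  intro x hx
  obtain ⟨y, hy, rfl⟩ := Finset.mem_image.1 hx
  exact bar_conj k.h (k.ht a ha) (h2 hy)

theorem two_T_le (k : KCtx p e r v m t) : 2 * t.toFinset.card ≤ m.card := by
  have hdis : Disjoint t.toFinset (t.toFinset.image (fun b => (r : L) ^ 2 / b)) := by
    rw [Finset.disjoint_left]
    intro x hx hx'
    obtain ⟨y, hy, hyx⟩ := Finset.mem_image.1 hx'
    exact k.ne_bar (Multiset.mem_toFinset.1 hy) (Multiset.mem_toFinset.1 hx) hyx.symm
  have h1 : (t.toFinset ∪ t.toFinset.image (fun b => (r : L) ^ 2 / b)).card = 2 * t.toFinset.card := by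
    rw [Finset.card_union_of_disjoint hdis, Finset.card_image_of_injective _ (bar_injective k.h.r_pos)]
    ring
  rw [← h1]
  refine le_trans (Finset.card_le_card ?_) (Multiset.toFinset_card_le m)
  apply Finset.union_subset
  · intro x hx
    exact Multiset.mem_toFinset.2 (k.ht x (Multiset.mem_toFinset.1 hx))
  · intro x hx
    obtain ⟨y, hy, rfl⟩ := Finset.mem_image.1 hx
    exact Multiset.mem_toFinset.2 (k.h.bar_mem (k.ht y (Multiset.mem_toFinset.1 hy)))

omit [IsGalois ℚ L] in
theorem mu_pos (k : KCtx p e r v m t) {a : L} (ha : a ∈ t) : 0 < m.count a :=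
  Multiset.count_pos.2 (k.ht a ha)

theorem mu_one (k : KCtx p e r v m t) {a : L} (ha : a ∈ t) (h3 : 3 ≤ (O t a).card) :
    m.count a = 1 := by
  have h1 := k.two_O_le ha
  have h2 := k.h.conjs_count (k.ht a ha)
  have h4 := k.hc
  have h5 := k.mu_pos ha
  by_contra hne
  have h6 : 2 ≤ m.count a := by omega
  have h7 : 6 * 2 ≤ (conjs a).card * m.count a := Nat.mul_le_mul (by omega) h6
  omega

omit [IsGalois ℚ L] in
theorem mu_O (k : KCtx p e r v m t) {a b : L} (hb : b ∈ O t a) : m.count b = m.count a :=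
  Ctx.count_of_conjs k.h (Ctx.mem_conjs.2 (mem_O.1 hb).2)

/-- **splitting off an invariant set with balanced slopes** -/
theorem fin_of (k : KCtx p e r v m t) {U : Finset L} (hU : Inv t U) (hne : U.Nonempty)
    (h0 : ∑ b ∈ U, X r v b 1 = 0) (hμ : ∀ b ∈ U, m.count b = 1) : Part r v t U.val := by
  have hUT : U ⊆ t.toFinset := fun b hb => Multiset.mem_toFinset.2 (hU.1 b hb)
  have hfix : ∀ g : L ≃ₐ[ℚ] L, t.map g = t → U.val.map g = U.val := by
    intro g hg
    have h1 := congrArg Finset.val (image_inv hg hU)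
    rw [Finset.image_val_of_injOn (fun x _ y _ hxy => g.injective hxy)] at h1
    exact h1
  refine ⟨?_, ?_, ⟨?_, ?_, ?_⟩, ?_, ?_⟩
  · exact (Finset.val_le_iff.2 hUT).trans (Multiset.dedup_le t)
  · rw [bal_iff k.h.hr k.h.hp k.h.hv (fun a ha => k.h.weil (k.ht a (hU.1 a ha)))]
    intro g
    exact k.bal_of_sum hU h0 g
  · intro a ha
    rcases Multiset.mem_add.1 ha with ha | ha
    · exact k.h.weil (k.ht a (hU.1 a ha))
    · rw [mem_bars k.h.r_pos] at ha
      have h1 := k.h.weil (k.h.bar_mem (k.ht _ (hU.1 _ ha)))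
      rwa [bb k.h.r_pos] at h1
  · intro g
    rw [Multiset.map_add, map_bars]
    rcases k.hg g with h1 | h1
    · rw [hfix g h1]
    · obtain ⟨g', h2, h3⟩ := k.exists_c g h1
      have e0 : bars r (U.val.map g) = U.val.map g' := by
        unfold bars
        rw [Multiset.map_map]
        apply Multiset.map_congr rfl
        intro a ha
        exact (h3 a (k.ht a (hU.1 a ha))).symm
      have e1 : bars r (U.val.map g) = U.val := e0.trans (hfix g' h2)
      have e2 : U.val.map g = bars r U.val := by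
        rw [← bars_bars k.h.r_pos (U.val.map g), e1]
      rw [e2, bars_bars k.h.r_pos]
      exact add_comm _ _
  · intro a ha
    have hcount : (U.val + bars r U.val).count a = 1 := by
      rw [Multiset.count_add, count_bars k.h.r_pos]
      rcases Multiset.mem_add.1 ha with ha | ha
      · have h2 : (r : L) ^ 2 / a ∉ U.val := fun h' =>
          k.hR.bar_notMem k.h.r_pos (hU.1 a ha) (hU.1 _ h')
        rw [Multiset.count_eq_zero_of_notMem h2, Multiset.count_eq_one_of_mem U.nodup ha]
      · rw [mem_bars k.h.r_pos] at ha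
        have h2 : a ∉ U.val := fun h' =>
          k.hR.bar_notMem k.h.r_pos (hU.1 a h') (hU.1 _ ha)
        rw [Multiset.count_eq_zero_of_notMem h2, Multiset.count_eq_one_of_mem U.nodup ha]
    have hm1 : a ∈ m ∧ m.count a = 1 := by
      rcases Multiset.mem_add.1 ha with ha | ha
      · exact ⟨k.ht a (hU.1 a ha), hμ a ha⟩
      · rw [mem_bars k.h.r_pos] at ha
        have h2 := hμ _ ha
        have h3 := k.h.bar_mem (k.ht _ (hU.1 _ ha))
        rw [bb k.h.r_pos] at h3
        rw [k.h.hA.count_bar k.h.r_pos (k.h.weil h3)] at h2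
        exact ⟨h3, h2⟩
    have h4 := k.h.hA.integral a hm1.1
    rw [hm1.2] at h4
    rw [hcount]
    exact h4
  · exact k.ge_three hU hne h0
  · have h1 := k.two_T_le
    have h2 := Finset.card_le_card hUT
    have h3 := k.hc
    have h4 : U.val.card = U.card := rfl
    omega

/-- the decomposition group flips `t` -/
theorem flip (k : KCtx p e r v m t) {d : L ≃ₐ[ℚ] L} (hd : d ∈ decomp v)
    (hdt : t.map d = bars r t) : ∃ S, Part r v t S := by
  obtain ⟨a, ha⟩ := Multiset.card_pos_iff_exists_mem.1 k.h0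
  have h0 := k.flip_zero (inv_O a) hd hdt
  have hne : (O t a).Nonempty := ⟨a, self_O ha⟩
  refine ⟨_, k.fin_of (inv_O a) hne h0 (fun b hb => ?_)⟩
  rw [k.mu_O hb]
  exact k.mu_one ha (k.ge_three (inv_O a) hne h0)

omit [IsGalois ℚ L] in
/-- orbits of the decomposition group in `t` -/
theorem orb_sub (_ : KCtx p e r v m t) (hD : ∀ d ∈ decomp v, t.map d = t) {a : L} (ha : a ∈ t) :
    orb v a ⊆ O t a := by
  intro x hx
  obtain ⟨g, hg, rfl⟩ := (mem_orb v).1 hx
  exact mem_O.2 ⟨fix_mem (hD g hg) ha, g, rfl⟩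

theorem extreme (h : Ctx p e r v m) {a : L} (ha : a ∈ m) (h1 : m.count a = 1) (h2 : orb v a = {a}) :
    X r v a 1 = ord v ((r : L) ^ 2) ∨ X r v a 1 = -ord v ((r : L) ^ 2) := by
  have h4 := h.hA.integral a ha
  rw [h1, h2, Finset.card_singleton] at h4
  have h5 := ord_nonneg v (h.weil ha).1
  have h6 := ord_nonneg v ((h.weil ha).conj h.r_pos).1
  rw [ord_bar h.r_pos (h.ne_zero ha)] at h6
  have hX : X r v a 1 = 2 * ord v a - ord v ((r : L) ^ 2) := rfl
  have hq := h.q_pos
  obtain ⟨j, hj⟩ := h4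
  push_cast at hj
  have hj0 : j = 0 ∨ j = 1 := by
    have a1 : 0 ≤ j := by
      by_contra hneg
      have : j ≤ -1 := by omega
      nlinarith
    have a2 : j ≤ 1 := by
      by_contra hneg
      have : 2 ≤ j := by omega
      nlinarith
    omega
  rcases hj0 with rfl | rfl
  · right; rw [hX]; linarith
  · left; rw [hX]; linarith

/-- no two conjugates alone -/
theorem no_two (k : KCtx p e r v m t) (hD : ∀ d ∈ decomp v, t.map d = t) (h3 : 3 ≤ t.toFinset.card)
    {a : L} (ha : a ∈ t) : (O t a).card ≠ 2 := by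
  intro h2
  obtain ⟨x, y, hxy, hO⟩ := Finset.card_eq_two.1 h2
  have mx : x ∈ O t a := by rw [hO]; simp
  have my : y ∈ O t a := by rw [hO]; simp
  have tx := (mem_O.1 mx).1
  have ty := (mem_O.1 my).1
  -- multiplicity one
  have hμa : m.count a = 1 := by
    obtain ⟨c, hc, hca⟩ : ∃ c ∈ t.toFinset, c ∉ O t a := by
      by_contra hne
      push Not at hne
      have := Finset.card_le_card (fun c hc => hne c hc : t.toFinset ⊆ O t a)
      omega
    rw [Multiset.mem_toFinset] at hc
    have hcc : c ∉ conjs a := fun h' => hca (mem_O.2 ⟨hc, Ctx.mem_conjs.1 h'⟩)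
    have h4 := k.h.conjs_count2 (k.ht a ha) (k.ht c hc) hcc
    have h5 := k.two_O_le ha
    have h6 := k.two_O_le hc
    have h7 : 0 < (O t c).card := Finset.card_pos.2 ⟨c, self_O hc⟩
    have h8 := k.mu_pos ha
    have h9 := k.mu_pos hc
    have h10 := k.hc
    by_contra hne
    have h11 : 4 * 2 ≤ (conjs a).card * m.count a := Nat.mul_le_mul (by omega) (by omega)
    have h12 : 2 * 1 ≤ (conjs c).card * m.count c := Nat.mul_le_mul (by omega) (by omega)
    omega
  have horb : ∀ {z w : L}, z ∈ O t a → w ∈ O t a → z ≠ w → O t a = {z, w} →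
      orb v z = {z} := by
    intro z w hz hw hzw hOz
    have hzt := (mem_O.1 hz).1
    ext b
    rw [Finset.mem_singleton]
    constructor
    · intro hb
      by_contra hbz
      have h4 : b ∈ O t a := by
        obtain ⟨hbt, g, rfl⟩ := mem_O.1 (k.orb_sub hD hzt hb)
        exact (inv_O a).2 z hz g hbt
      rw [hOz, Finset.mem_insert, Finset.mem_singleton] at h4
      have hbw : b = w := h4.resolve_left hbz
      subst hbw
      -- X z 1 = X b 1
      have h5 : ∀ u ∈ O t a, X r v u 1 = X r v z 1 := by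
        intro u hu
        rw [hOz, Finset.mem_insert, Finset.mem_singleton] at hu
        rcases hu with rfl | rfl
        · rfl
        · unfold X
          have h6 := ord_of_mem v hb
          have e1 : (1 : L ≃ₐ[ℚ] L) u = u := rfl
          have e2 : (1 : L ≃ₐ[ℚ] L) z = z := rfl
          rw [e1, e2, h6]
      have h6 := k.const (inv_O a) h5
      omega
    · rintro rfl
      exact self_mem_orb v b
  have ex := extreme k.h (k.ht x tx) (by rw [k.mu_O mx, hμa]) (horb mx my hxy hO)
  have ey := extreme k.h (k.ht y ty) (by rw [k.mu_O my, hμa])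
    (horb my mx (Ne.symm hxy) (by rw [hO]; exact Finset.pair_comm x y))
  have hcase : X r v x 1 = X r v y 1 ∨ X r v x 1 = -X r v y 1 := by omega
  rcases hcase with h5 | h5
  · have h6 : ∀ u ∈ O t a, X r v u 1 = X r v y 1 := by
      intro u hu
      rw [hO, Finset.mem_insert, Finset.mem_singleton] at hu
      rcases hu with rfl | rfl
      · exact h5
      · rfl
    have := k.const (inv_O a) h6
    omega
  · have h6 : ∑ b ∈ O t a, X r v b 1 = 0 := by
      rw [hO, Finset.sum_pair hxy]
      omega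
    have := k.ge_three (inv_O a) ⟨x, mx⟩ h6
    omega

omit [IsGalois ℚ L] in
/-- a single conjugate -/
theorem one_scalar (_ : KCtx p e r v m t) {a : L} (ha : a ∈ t) (h1 : (O t a).card = 1)
    (g' : L ≃ₐ[ℚ] L) (hg : t.map g' = t) : g' a = a := by
  obtain ⟨x, hx⟩ := Finset.card_eq_one.1 h1
  have h2 := self_O ha
  have h3 : g' a ∈ O t a := mem_O.2 ⟨fix_mem hg ha, g', rfl⟩
  rw [hx, Finset.mem_singleton] at h2 h3
  rw [h3, ← h2]

theorem no_ones (k : KCtx p e r v m t) (hI : Ctx.PI r v m) {a b : L} (ha : a ∈ t) (hb : b ∈ t)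
    (hab : b ≠ a) (h1 : (O t a).card = 1) (h2 : (O t b).card = 1) : False := by
  have ma := k.ht a ha
  have mb := k.ht b hb
  have key : ∀ g, X r v b g * X r v a 1 = X r v a g * X r v b 1 := by
    intro g
    obtain ⟨g', s, h3, _, _, h4⟩ := k.exists_fix g
    rw [h4 a ma, h4 b mb, k.one_scalar ha h1 g' h3, k.one_scalar hb h2 g' h3]
    ring
  have hne : (X r v a 1 : ℚ) ≠ 0 := by
    intro h0
    have h0' : X r v a 1 = 0 := by exact_mod_cast h0
    apply k.h.Xne ma
    ext g
    obtain ⟨g', s, h3, _, _, h4⟩ := k.exists_fix g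
    rw [h4 a ma, k.one_scalar ha h1 g' h3, h0', mul_zero]
    rfl
  apply hI a ma b mb hab (k.ne_bar ha hb) ((X r v b 1 : ℚ) / X r v a 1)
  intro g
  have h5 : (X r v b g : ℚ) * X r v a 1 = X r v a g * X r v b 1 := by exact_mod_cast key g
  field_simp
  linarith

/-- at least three elements -/
theorem three_le (k : KCtx p e r v m t) (hI : Ctx.PI r v m) : 3 ≤ t.toFinset.card := by
  have hpos : 0 < t.toFinset.card := by
    obtain ⟨a, ha⟩ := Multiset.card_pos_iff_exists_mem.1 k.h0
    exact Finset.card_pos.2 ⟨a, Multiset.mem_toFinset.2 ha⟩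
  have hX : ∀ g, ∑ a ∈ t.toFinset, (t.count a : ℤ) * X r v a g = 0 := by
    intro g
    have h1 := (bal_iff k.h.hr k.h.hp k.h.hv (fun a ha => k.h.weil (k.ht a ha))).1 k.hb g
    unfold XS at h1
    rw [Finset.sum_multiset_map_count] at h1
    rw [← h1]
    exact Finset.sum_congr rfl (fun a _ => by rw [nsmul_eq_mul])
  by_contra hlt
  have hcase : t.toFinset.card = 1 ∨ t.toFinset.card = 2 := by omega
  rcases hcase with h1 | h1
  · obtain ⟨a, hT⟩ := Finset.card_eq_one.1 h1
    have ha : a ∈ t := by rw [← Multiset.mem_toFinset, hT]; simp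
    apply k.h.Xne (k.ht a ha)
    ext g
    have h2 := hX g
    rw [hT, Finset.sum_singleton] at h2
    have h3 : (t.count a : ℤ) ≠ 0 := by
      have := Multiset.count_pos.2 ha
      omega
    exact (mul_eq_zero.1 h2).resolve_left h3
  · obtain ⟨a, b, hab, hT⟩ := Finset.card_eq_two.1 h1
    have ha : a ∈ t := by rw [← Multiset.mem_toFinset, hT]; simp
    have hb : b ∈ t := by rw [← Multiset.mem_toFinset, hT]; simp
    have pa := Multiset.count_pos.2 ha
    have pb := Multiset.count_pos.2 hb
    apply hI a (k.ht a ha) b (k.ht b hb) (Ne.symm hab) (k.ne_bar ha hb)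
      (-(t.count a : ℚ) / t.count b)
    intro g
    have h2 := hX g
    rw [hT, Finset.sum_pair hab] at h2
    have h3 : (t.count a : ℚ) * X r v a g + (t.count b : ℚ) * X r v b g = 0 := by exact_mod_cast h2
    have h4 : (t.count b : ℚ) ≠ 0 := by
      have : (0 : ℚ) < t.count b := by exact_mod_cast pb
      exact this.ne'
    field_simp
    linarith

end KCtx

end Pool.Agent.Lib.MP81632f.Mk
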