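import Pool.Agent.Lib.MP_81632f_ag.Mk.Pow6

/-! # Powers: splitting off a reduced class of `K`-type, the case without flips -/

namespace Pool.Agent.Lib.MP81632f.Mk

open NumberField IsDedekindDomain
open scoped Classical

variable {L : Type} [Field L] [NumberField L] [IsGalois ℚ L]
variable {p e r : ℕ} {v : HeightOneSpectrum (𝓞 L)} {m t : Multiset L}

/-- the case `3 + 1` -/
theorem three_one {Q A B n k : ℤ} (hQ : 0 < Q) (hn : 0 < n) (hk : 0 < k)
    (hA : A = Q ∨ A = -Q) (hB : B = Q ∨ B = -Q) (h : n * A + k * B = 0) : A + B = 0 := by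
  rcases hA with rfl | rfl <;> rcases hB with rfl | rfl
  · nlinarith
  · omega
  · omega
  · nlinarith

namespace KCtx

/-- the sum over three elements -/
theorem sum_three (k : KCtx p e r v m t) (hD : ∀ d ∈ decomp v, t.map d = t) {U : Finset L}
    (hU : Inv t U) (hc : U.card = 3) (hμ : ∀ b ∈ U, m.count b = 1) :
    ∑ b ∈ U, X r v b 1 = ord v ((r : L) ^ 2) ∨ ∑ b ∈ U, X r v b 1 = -ord v ((r : L) ^ 2) := by
  have hq := k.h.q_pos
  have horb : ∀ a ∈ U, ∀ b ∈ orb v a, b ∈ U := by
    intro a ha b hb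
    obtain ⟨hbt, g, rfl⟩ := mem_O.1 (k.orb_sub hD (hU.1 a ha) hb)
    exact hU.2 a ha g hbt
  have hdvd := sum_dvd v (ord v ((r : L) ^ 2)) (fun _ => 1) U.card U rfl horb (fun _ _ _ _ => rfl)
    (by
      intro a ha
      have h1 := k.h.hA.integral a (k.ht a (hU.1 a ha))
      rw [hμ a ha] at h1
      exact h1)
  obtain ⟨j, hj⟩ := hdvd
  have hX : ∀ b, X r v b 1 = 2 * ord v b - ord v ((r : L) ^ 2) := fun b => rfl
  have hsum : ∑ b ∈ U, X r v b 1 = 2 * ∑ b ∈ U, ord v b - 3 * ord v ((r : L) ^ 2) := by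
    rw [Finset.sum_congr rfl (fun b _ => hX b), Finset.sum_sub_distrib, Finset.sum_const, hc,
      ← Finset.mul_sum]
    simp
  have hj' : ∑ b ∈ U, ord v b = ord v ((r : L) ^ 2) * j := by
    rw [← hj]
    exact Finset.sum_congr rfl (fun b _ => by push_cast; ring)
  have hb0 : ∀ b ∈ U, 0 ≤ ord v b := fun b hb => ord_nonneg v (k.h.weil (k.ht b (hU.1 b hb))).1
  have hb1 : ∀ b ∈ U, ord v b ≤ ord v ((r : L) ^ 2) := by
    intro b hb
    have h1 := k.ht b (hU.1 b hb)
    have h6 := ord_nonneg v ((k.h.weil h1).conj k.h.r_pos).1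
    rw [ord_bar k.h.r_pos (k.h.ne_zero h1)] at h6
    omega
  have hs0 : 0 ≤ ∑ b ∈ U, ord v b := Finset.sum_nonneg hb0
  have hs3 : ∑ b ∈ U, ord v b ≤ 3 * ord v ((r : L) ^ 2) := by
    have := Finset.sum_le_sum hb1
    rw [Finset.sum_const, hc] at this
    simpa using this
  have hj0 : 0 ≤ j := by
    by_contra hneg
    have : j ≤ -1 := by omega
    nlinarith
  have hj3 : j ≤ 3 := by
    by_contra hneg
    have : 4 ≤ j := by omega
    nlinarith
  have hcase : j = 0 ∨ j = 1 ∨ j = 2 ∨ j = 3 := by omega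
  rcases hcase with rfl | rfl | rfl | rfl
  · exfalso
    rw [mul_zero] at hj'
    have h1 := (Finset.sum_eq_zero_iff_of_nonneg hb0).1 hj'
    have h2 := k.const hU (x := -ord v ((r : L) ^ 2)) (fun b hb => by rw [hX, h1 b hb]; ring)
    omega
  · right
    rw [hsum, hj']
    ring
  · left
    rw [hsum, hj']
    ring
  · exfalso
    have h0 : ∑ b ∈ U, (ord v ((r : L) ^ 2) - ord v b) = 0 := by
      rw [Finset.sum_sub_distrib, Finset.sum_const, hc, hj']
      simp
      ring
    have h1 := (Finset.sum_eq_zero_iff_of_nonneg (fun b hb => by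
      have := hb1 b hb
      omega)).1 h0
    have h2 := k.const hU (x := ord v ((r : L) ^ 2)) (fun b hb => by
      have := h1 b hb
      rw [hX]
      omega)
    omega

/-- the decomposition group preserves `t` -/
theorem noflip (k : KCtx p e r v m t) (hI : Ctx.PI r v m) (hD : ∀ d ∈ decomp v, t.map d = t) :
    ∃ S, Part r v t S := by
  have h3 := k.three_le hI
  have h4 := k.two_T_le
  have hc8 := k.hc
  -- a large orbit
  obtain ⟨a, ha, hO⟩ : ∃ a ∈ t, 3 ≤ (O t a).card := by
    by_contra hne
    push Not at hne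
    have hone : ∀ a ∈ t, (O t a).card = 1 := by
      intro a ha
      have h5 := hne a ha
      have h6 := k.no_two hD h3 ha
      have h7 : 0 < (O t a).card := Finset.card_pos.2 ⟨a, self_O ha⟩
      omega
    obtain ⟨x, hx, y, hy, hxy⟩ := Finset.one_lt_card.1 (show 1 < t.toFinset.card by omega)
    rw [Multiset.mem_toFinset] at hx hy
    exact k.no_ones hI hx hy (Ne.symm hxy) (hone x hx) (hone y hy)
  have hμ : ∀ b ∈ O t a, m.count b = 1 := fun b hb => by rw [k.mu_O hb, k.mu_one ha hO]
  have hpa : (0 : ℤ) < t.count a := by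
    have := Multiset.count_pos.2 ha
    omega
  have hXS : ∑ b ∈ t.toFinset, (t.count b : ℤ) * X r v b 1 = 0 := by
    have h1 := (bal_iff k.h.hr k.h.hp k.h.hv (fun a ha => k.h.weil (k.ht a ha))).1 k.hb 1
    unfold XS at h1
    rw [Finset.sum_multiset_map_count] at h1
    rw [← h1]
    exact Finset.sum_congr rfl (fun a _ => by rw [nsmul_eq_mul])
  have hOsub : O t a ⊆ t.toFinset := fun b hb => Multiset.mem_toFinset.2 (mem_O.1 hb).1
  have hOsum : ∑ b ∈ O t a, (t.count b : ℤ) * X r v b 1 = t.count a * ∑ b ∈ O t a, X r v b 1 := by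
    rw [Finset.mul_sum]
    exact Finset.sum_congr rfl (fun b hb => by rw [k.count_O hb ha])
  by_cases hT : t.toFinset = O t a
  · refine ⟨_, k.fin_of (inv_O a) ⟨a, self_O ha⟩ ?_ hμ⟩
    rw [hT, hOsum] at hXS
    exact (mul_eq_zero.1 hXS).resolve_left hpa.ne'
  · obtain ⟨c, hc, hca⟩ : ∃ c ∈ t.toFinset, c ∉ O t a := by
      by_contra hne
      push Not at hne
      exact hT (Finset.Subset.antisymm (fun c hc => hne c hc) hOsub)
    have hct := Multiset.mem_toFinset.1 hc
    have hins : insert c (O t a) ⊆ t.toFinset := Finset.insert_subset hc hOsub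
    have h5 := Finset.card_le_card hins
    rw [Finset.card_insert_of_notMem hca] at h5
    have hT4 : t.toFinset.card = 4 := by omega
    have hO3 : (O t a).card = 3 := by omega
    have hTe : insert c (O t a) = t.toFinset := by
      apply Finset.eq_of_subset_of_card_le hins
      rw [Finset.card_insert_of_notMem hca]
      omega
    have hcc : c ∉ conjs a := fun h' => hca (mem_O.2 ⟨hct, Ctx.mem_conjs.1 h'⟩)
    have hμc : m.count c = 1 := by
      have e1 := k.h.conjs_count2 (k.ht a ha) (k.ht c hct) hcc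
      have e2 := k.two_O_le ha
      have e3 := k.two_O_le hct
      have e4 : 0 < (O t c).card := Finset.card_pos.2 ⟨c, self_O hct⟩
      have e5 := k.mu_pos ha
      have e6 := k.mu_pos hct
      by_contra hne
      have h11 : 6 * 1 ≤ (conjs a).card * m.count a := Nat.mul_le_mul (by omega) (by omega)
      have h12 : 2 * 2 ≤ (conjs c).card * m.count c := Nat.mul_le_mul (by omega) (by omega)
      omega
    have horbc : orb v c = {c} := by
      ext x
      rw [Finset.mem_singleton]
      constructor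
      · intro hx
        have h6 := k.orb_sub hD hct hx
        obtain ⟨hxt, g, hg⟩ := mem_O.1 h6
        have h7 : x ∈ insert c (O t a) := by rw [hTe]; exact Multiset.mem_toFinset.2 hxt
        rcases Finset.mem_insert.1 h7 with h8 | h8
        · exact h8
        · exfalso
          apply hca
          obtain ⟨_, k', hk'⟩ := mem_O.1 h8
          refine mem_O.2 ⟨hct, g⁻¹ * k', ?_⟩
          show g⁻¹ (k' a) = c
          rw [hk', ← hg]
          exact AlgEquiv.symm_apply_apply g c
      · rintro rfl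
        exact self_mem_orb v x
    have hXc := extreme k.h (k.ht c hct) hμc horbc
    have hXO := k.sum_three hD (inv_O a) hO3 hμ
    have hpc : (0 : ℤ) < t.count c := by
      have := Multiset.count_pos.2 hct
      omega
    rw [← hTe, Finset.sum_insert hca, hOsum, add_comm] at hXS
    have h9 := three_one k.h.q_pos hpa hpc hXO hXc hXS
    refine ⟨_, k.fin_of inv_T ⟨c, hc⟩ ?_ ?_⟩
    · rw [← hTe, Finset.sum_insert hca, add_comm]
      exact h9
    · intro b hb
      rw [← hTe, Finset.mem_insert] at hb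
      rcases hb with rfl | hb
      · exact hμc
      · exact hμ b hb

/-- **Claim B** -/
theorem claimB (k : KCtx p e r v m t) (hI : Ctx.PI r v m) : ∃ S, Part r v t S := by
  by_cases hD : ∃ d ∈ decomp v, t.map d = bars r t
  · obtain ⟨d, hd, hdt⟩ := hD
    exact k.flip hd hdt
  · apply k.noflip hI
    intro d hd
    rcases k.hg d with h1 | h1
    · exact h1
    · exact absurd ⟨d, hd, h1⟩ hD

end KCtx

end Pool.Agent.Lib.MP81632f.Mk
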