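import Pool.Agent.Lib.MP_81632f_ag.Mk.Pow7

/-! # Powers: proportional slope functions -/

namespace Pool.Agent.Lib.MP81632f.Mk

open NumberField IsDedekindDomain
open scoped Classical

variable {L : Type} [Field L] [NumberField L] [IsGalois ℚ L]
variable {p e r : ℕ} {v : HeightOneSpectrum (𝓞 L)} {m t : Multiset L}

/-- proportional slope functions -/
structure Prp (p e r : ℕ) (v : HeightOneSpectrum (𝓞 L)) (m : Multiset L) (a b : L) (α : ℚ) : Prop where
  h : Ctx p e r v m
  hc : m.card ≤ 8
  ma : a ∈ m
  mb : b ∈ m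
  ne : b ≠ a
  ne' : b ≠ (r : L) ^ 2 / a
  eq : ∀ g, (X r v b g : ℚ) = α * X r v a g

namespace Prp

variable {a b : L} {α : ℚ}

theorem α_ne (k : Prp p e r v m a b α) : α ≠ 0 := by
  rintro rfl
  apply k.h.Xne k.mb
  ext g
  have h1 := k.eq g
  rw [zero_mul] at h1
  exact_mod_cast h1

theorem symm (k : Prp p e r v m a b α) : Prp p e r v m b a α⁻¹ where
  h := k.h
  hc := k.hc
  ma := k.mb
  mb := k.ma
  ne := k.ne.symm
  ne' := fun h' => k.ne' (by rw [h', bb k.h.r_pos])
  eq g := by
    rw [k.eq g, ← mul_assoc, inv_mul_cancel₀ k.α_ne, one_mul]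

theorem map_eq (k : Prp p e r v m a b α) {g l : L ≃ₐ[ℚ] L} (hgl : g a = l a) : g b = l b := by
  apply k.h.inj (k.h.hA.mem_map g k.mb) (k.h.hA.mem_map l k.mb)
  ext x
  have h1 : (X r v (g b) x : ℚ) = α * X r v (g a) x := k.eq (x * g)
  have h2 : (X r v (l b) x : ℚ) = α * X r v (l a) x := k.eq (x * l)
  rw [hgl, ← h2] at h1
  exact_mod_cast h1

theorem card_le (k : Prp p e r v m a b α) : (conjs b).card ≤ (conjs a).card := by
  have hex : ∀ x ∈ conjs a, ∃ g : L ≃ₐ[ℚ] L, g a = x := fun x hx => Ctx.mem_conjs.1 hx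
  choose! G hG using hex
  have h1 : conjs b ⊆ (conjs a).image (fun x => G x b) := by
    intro y hy
    obtain ⟨l, rfl⟩ := Ctx.mem_conjs.1 hy
    rw [Finset.mem_image]
    refine ⟨l a, conjs_map a l, ?_⟩
    exact k.map_eq (hG (l a) (conjs_map a l))
  exact (Finset.card_le_card h1).trans Finset.card_image_le

theorem card_eq (k : Prp p e r v m a b α) : (conjs b).card = (conjs a).card :=
  le_antisymm k.card_le k.symm.card_le

theorem sq_ne (k : Prp p e r v m a b α) : α ^ 2 ≠ 1 := by
  intro h1
  have h2 : (α - 1) * (α + 1) = 0 := by linear_combination h1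
  rcases mul_eq_zero.1 h2 with h3 | h3
  · apply k.ne
    apply k.h.inj k.mb k.ma
    ext g
    have h4 := k.eq g
    rw [show α = 1 by linarith, one_mul] at h4
    exact_mod_cast h4
  · apply k.ne'
    apply k.h.inj_bar k.mb k.ma
    ext g
    have h4 := k.eq g
    rw [show α = -1 by linarith, neg_one_mul] at h4
    rw [Pi.neg_apply]
    exact_mod_cast h4

theorem notMem (k : Prp p e r v m a b α) : b ∉ conjs a := by
  intro hb
  obtain ⟨g, hg⟩ := Ctx.mem_conjs.1 hb
  apply k.sq_ne
  have h1 := Ctx.norm_map (r := r) (v := v) g a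
  rw [hg] at h1
  have h2 : (ip (X r v b) (X r v b) : ℚ) = α ^ 2 * ip (X r v a) (X r v a) := by
    rw [Ctx.ip_cast, Ctx.ip_cast, Finset.mul_sum]
    apply Finset.sum_congr rfl
    intro x _
    rw [k.eq x]
    ring
  rw [h1] at h2
  have h3 : (0 : ℚ) < ip (X r v a) (X r v a) := by exact_mod_cast ip_self_pos _ (k.h.Xne k.ma)
  apply mul_right_cancel₀ h3.ne'
  linarith

/-- counting -/
theorem count_le (k : Prp p e r v m a b α) :
    (conjs a).card * (m.count a + m.count b) ≤ 8 := by
  have h1 := k.h.conjs_count2 k.ma k.mb k.notMem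
  rw [k.card_eq] at h1
  have h2 := k.hc
  rw [mul_add]
  omega

end Prp

theorem two_le_conjs (h : Ctx p e r v m) {a : L} (ha : a ∈ m) : 2 ≤ (conjs a).card := by
  have h1 : a ∈ conjs a := Ctx.mem_conjs.2 ⟨1, rfl⟩
  have h2 := KCtx.bar_conj h ha h1
  have h3 : ({a, (r : L) ^ 2 / a} : Finset L) ⊆ conjs a := by
    intro x hx
    rw [Finset.mem_insert, Finset.mem_singleton] at hx
    rcases hx with rfl | rfl
    · exact h1
    · exact h2
  have h4 := Finset.card_le_card h3
  rw [Finset.card_pair (Ne.symm (h.bar_ne ha))] at h4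
  exact h4

/-- large decomposition orbits -/
theorem big_orb (h : Ctx p e r v m) {a : L} (ha : a ∈ m) (h4 : (conjs a).card ≤ 4)
    (h3 : 3 ≤ (orb v a).card) : X r v a 1 = 0 := by
  have hsub : orb v a ⊆ conjs a := by
    intro x hx
    obtain ⟨g, _, rfl⟩ := (mem_orb v).1 hx
    exact conjs_map a g
  have hint : ¬ Disjoint (orb v a) ((orb v a).image (fun x => (r : L) ^ 2 / x)) := by
    intro hdis
    have h5 : (orb v a ∪ (orb v a).image (fun x => (r : L) ^ 2 / x)).card = 2 * (orb v a).card := by
      rw [Finset.card_union_of_disjoint hdis, Finset.card_image_of_injective _ (bar_injective h.r_pos)]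
      ring
    have h6 : orb v a ∪ (orb v a).image (fun x => (r : L) ^ 2 / x) ⊆ conjs a := by
      apply Finset.union_subset hsub
      intro x hx
      obtain ⟨y, hy, rfl⟩ := Finset.mem_image.1 hx
      exact KCtx.bar_conj h ha (hsub hy)
    have := Finset.card_le_card h6
    omega
  rw [Finset.not_disjoint_iff] at hint
  obtain ⟨x, hx, hx'⟩ := hint
  obtain ⟨y, hy, rfl⟩ := Finset.mem_image.1 hx'
  have hX : ∀ z, X r v z 1 = 2 * ord v z - ord v ((r : L) ^ 2) := fun z => rfl
  have e1 := ord_of_mem v hx
  have e2 := ord_of_mem v hy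
  have my : y ∈ m := by
    obtain ⟨g, _, rfl⟩ := (mem_orb v).1 hy
    exact h.hA.mem_map g ha
  rw [ord_bar h.r_pos (h.ne_zero my)] at e1
  rw [hX]
  omega

/-- values when all multiplicities are one and there are at most four conjugates -/
theorem small_values (h : Ctx p e r v m) {a : L} (ha : a ∈ m) (h4 : (conjs a).card ≤ 4)
    (h1 : m.count a = 1) (g : L ≃ₐ[ℚ] L) : X r v a g = 0 ∨ X r v a g = ord v ((r : L) ^ 2) ∨
      X r v a g = -ord v ((r : L) ^ 2) := by
  rw [← Ctx.X_one]
  have hga := h.hA.mem_map g ha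
  have hconj : conjs (g a) = conjs a := by
    ext x
    rw [Ctx.mem_conjs, Ctx.mem_conjs]
    constructor
    · rintro ⟨k, rfl⟩
      exact ⟨k * g, rfl⟩
    · rintro ⟨k, rfl⟩
      refine ⟨k * g⁻¹, ?_⟩
      show k (g⁻¹ (g a)) = k a
      congr 1
      exact AlgEquiv.symm_apply_apply g a
  have hμ : m.count (g a) = 1 := by rw [h.hA.count_map g a, h1]
  rcases Nat.lt_or_ge (orb v (g a)).card 3 with h3 | h3
  · have h5 := orb_card_pos v (g a)
    have h6 := h.hA.integral _ hga
    rw [hμ, one_mul] at h6
    have h7 := ord_nonneg v (h.weil hga).1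
    have h8 := ord_nonneg v ((h.weil hga).conj h.r_pos).1
    rw [ord_bar h.r_pos (h.ne_zero hga)] at h8
    have hX : X r v (g a) 1 = 2 * ord v (g a) - ord v ((r : L) ^ 2) := rfl
    have hq := h.q_pos
    obtain ⟨k, hk⟩ := h6
    have hk' : (orb v (g a)).card = 1 ∨ (orb v (g a)).card = 2 := by omega
    rcases hk' with hk1 | hk1
    · rw [hk1] at hk
      push_cast at hk
      have hk0 : k = 0 ∨ k = 1 := by
        have a1 : 0 ≤ k := by
          by_contra hneg
          have : k ≤ -1 := by omega
          nlinarith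
        have a2 : k ≤ 1 := by
          by_contra hneg
          have : 2 ≤ k := by omega
          nlinarith
        omega
      rcases hk0 with rfl | rfl
      · right; right; rw [hX]; linarith
      · right; left; rw [hX]; linarith
    · rw [hk1] at hk
      push_cast at hk
      have hk0 : k = 0 ∨ k = 1 ∨ k = 2 := by
        have a1 : 0 ≤ k := by
          by_contra hneg
          have : k ≤ -1 := by omega
          nlinarith
        have a2 : k ≤ 2 := by
          by_contra hneg
          have : 3 ≤ k := by omega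
          nlinarith
        omega
      rcases hk0 with rfl | rfl | rfl
      · right; right; rw [hX]; linarith
      · left; rw [hX]; linarith
      · right; left; rw [hX]; linarith
  · left
    exact big_orb h hga (by rw [hconj]; exact h4) h3

namespace Prp

variable {a b : L} {α : ℚ}

/-- equal absolute values at one place are impossible -/
theorem abs_ne (k : Prp p e r v m a b α) {g : L ≃ₐ[ℚ] L} (h0 : X r v a g ≠ 0) :
    X r v b g ≠ X r v a g ∧ X r v b g ≠ -X r v a g := by
  have hne : (X r v a g : ℚ) ≠ 0 := by exact_mod_cast h0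
  constructor
  · intro h1
    apply k.sq_ne
    have h2 := k.eq g
    rw [h1] at h2
    have h3 : α = 1 := by
      apply mul_right_cancel₀ hne
      rw [one_mul]
      exact h2.symm
    rw [h3]; norm_num
  · intro h1
    apply k.sq_ne
    have h2 := k.eq g
    rw [h1] at h2
    push_cast at h2
    have h3 : α = -1 := by
      apply mul_right_cancel₀ hne
      rw [← h2]; ring
    rw [h3]; norm_num

theorem exists_ne (h : Ctx p e r v m) {a : L} (ha : a ∈ m) : ∃ g, X r v a g ≠ 0 := by
  by_contra hne
  push Not at hne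
  exact h.Xne ha (funext hne)

/-- only two conjugates -/
theorem card_two (k : Prp p e r v m a b α) : (conjs a).card = 2 := by
  have h1 := k.count_le
  have h2 := two_le_conjs k.h k.ma
  have h3 := Multiset.count_pos.2 k.ma
  have h4 := Multiset.count_pos.2 k.mb
  by_contra hne
  have h5 : 3 ≤ (conjs a).card := by omega
  have h6 : m.count a + m.count b ≤ 2 := by
    by_contra hlt
    have : 3 * 3 ≤ (conjs a).card * (m.count a + m.count b) := Nat.mul_le_mul h5 (by omega)
    omega
  have h7 : (conjs a).card ≤ 4 := by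
    by_contra hlt
    have : 5 * 2 ≤ (conjs a).card * (m.count a + m.count b) := Nat.mul_le_mul (by omega) (by omega)
    omega
  obtain ⟨g, hg⟩ := exists_ne k.h k.ma
  have va := small_values k.h k.ma h7 (by omega) g
  have vb := small_values k.h k.mb (by rw [k.card_eq]; exact h7) (by omega) g
  have hb0 : X r v b g ≠ 0 := by
    intro h0
    have h8 := k.eq g
    rw [h0, Int.cast_zero] at h8
    rcases mul_eq_zero.1 h8.symm with h9 | h9
    · exact k.α_ne h9
    · exact hg (by exact_mod_cast h9)
  have h9 := k.abs_ne hg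
  have va' := va.resolve_left hg
  have vb' := vb.resolve_left hb0
  omega

end Prp

end Pool.Agent.Lib.MP81632f.Mk
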