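import Pool.Agent.Lib.MP_81632f_ag.Mk.Pow8

/-! # Powers: proportional slope functions, continued -/

namespace Pool.Agent.Lib.MP81632f.Mk

open NumberField IsDedekindDomain
open scoped Classical

variable {L : Type} [Field L] [NumberField L] [IsGalois ℚ L]
variable {p e r : ℕ} {v : HeightOneSpectrum (𝓞 L)} {m t : Multiset L}

theorem conjs_two (h : Ctx p e r v m) {a : L} (ha : a ∈ m) (h2 : (conjs a).card = 2)
    (g : L ≃ₐ[ℚ] L) : g a = a ∨ g a = (r : L) ^ 2 / a := by
  have h1 : a ∈ conjs a := Ctx.mem_conjs.2 ⟨1, rfl⟩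
  have h3 := KCtx.bar_conj h ha h1
  have h4 : ({a, (r : L) ^ 2 / a} : Finset L) ⊆ conjs a := by
    intro x hx
    rw [Finset.mem_insert, Finset.mem_singleton] at hx
    rcases hx with rfl | rfl
    · exact h1
    · exact h3
  have h5 : ({a, (r : L) ^ 2 / a} : Finset L) = conjs a := by
    apply Finset.eq_of_subset_of_card_le h4
    rw [Finset.card_pair (Ne.symm (h.bar_ne ha)), h2]
  have h6 := conjs_map a g
  rw [← h5, Finset.mem_insert, Finset.mem_singleton] at h6
  exact h6

theorem two_ne (h : Ctx p e r v m) {a : L} (ha : a ∈ m) (h2 : (conjs a).card = 2) :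
    X r v a 1 ≠ 0 := by
  intro h0
  apply h.Xne ha
  ext g
  rw [← Ctx.X_one]
  rcases conjs_two h ha h2 g with h1 | h1
  · rw [h1, h0]; rfl
  · rw [h1, h.Xbar ha, Pi.neg_apply, h0]; rfl

theorem two_orb (h : Ctx p e r v m) {a : L} (ha : a ∈ m) (h2 : (conjs a).card = 2) :
    orb v a = {a} := by
  ext x
  rw [Finset.mem_singleton]
  constructor
  · intro hx
    obtain ⟨d, hd, rfl⟩ := (mem_orb v).1 hx
    rcases conjs_two h ha h2 d with h1 | h1
    · exact h1
    · exfalso
      apply two_ne h ha h2
      have h3 := X_dec (r := r) hd a 1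
      have h4 : X r v a (d * 1) = X r v (d a) 1 := by rw [Ctx.X_one, mul_one]
      rw [h4, h1, h.Xbar ha, Pi.neg_apply] at h3
      omega
  · rintro rfl
    exact self_mem_orb v x

/-- the possible slopes -/
theorem two_val (h : Ctx p e r v m) {a : L} (ha : a ∈ m) (h2 : (conjs a).card = 2)
    (h3 : m.count a ≤ 3) :
    (X r v a 1 = ord v ((r : L) ^ 2) ∨ X r v a 1 = -ord v ((r : L) ^ 2)) ∨
    (m.count a = 3 ∧ (3 * X r v a 1 = ord v ((r : L) ^ 2) ∨ 3 * X r v a 1 = -ord v ((r : L) ^ 2))) := by
  have h4 := h.hA.integral a ha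
  rw [two_orb h ha h2, Finset.card_singleton, mul_one] at h4
  have h5 := ord_nonneg v (h.weil ha).1
  have h6 := ord_nonneg v ((h.weil ha).conj h.r_pos).1
  rw [ord_bar h.r_pos (h.ne_zero ha)] at h6
  have hX : X r v a 1 = 2 * ord v a - ord v ((r : L) ^ 2) := rfl
  have hne := two_ne h ha h2
  have hq := h.q_pos
  have hpos := Multiset.count_pos.2 ha
  obtain ⟨j, hj⟩ := h4
  have hcase : m.count a = 1 ∨ m.count a = 2 ∨ m.count a = 3 := by omega
  rcases hcase with h7 | h7 | h7
  · rw [h7] at hj
    push_cast at hj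
    have hj0 : j = 0 ∨ j = 1 := by
      have a1 : 0 ≤ j := by
        by_contra hneg
        have : j ≤ -1 := by omega
        nlinarith
      have a2 : j ≤ 1 := by
        by_contra hneg
        have : 2 ≤ j := by omega
        nlinarith
      omega
    rcases hj0 with rfl | rfl
    · left; right; rw [hX]; linarith
    · left; left; rw [hX]; linarith
  · rw [h7] at hj
    push_cast at hj
    have hj0 : j = 0 ∨ j = 1 ∨ j = 2 := by
      have a1 : 0 ≤ j := by
        by_contra hneg
        have : j ≤ -1 := by omega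
        nlinarith
      have a2 : j ≤ 2 := by
        by_contra hneg
        have : 3 ≤ j := by omega
        nlinarith
      omega
    rcases hj0 with rfl | rfl | rfl
    · left; right; rw [hX]; linarith
    · exfalso; apply hne; rw [hX]; linarith
    · left; left; rw [hX]; linarith
  · rw [h7] at hj
    push_cast at hj
    have hj0 : j = 0 ∨ j = 1 ∨ j = 2 ∨ j = 3 := by
      have a1 : 0 ≤ j := by
        by_contra hneg
        have : j ≤ -1 := by omega
        nlinarith
      have a2 : j ≤ 3 := by
        by_contra hneg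
        have : 4 ≤ j := by omega
        nlinarith
      omega
    rcases hj0 with rfl | rfl | rfl | rfl
    · left; right; rw [hX]; linarith
    · right; exact ⟨h7, Or.inr (by rw [hX]; linarith)⟩
    · right; exact ⟨h7, Or.inl (by rw [hX]; linarith)⟩
    · left; left; rw [hX]; linarith

namespace Prp

variable {a b : L} {α : ℚ}

theorem quarter (k : Prp p e r v m a b α) (hle : m.count b ≤ m.count a) :
    m.count a = 3 ∧ m.count b = 1 ∧ ((∀ g, X r v b g = 3 * X r v a g) ∨
      (∀ g, X r v b g = -(3 * X r v a g))) := by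
  have h1 := k.count_le
  have h2 := k.card_two
  have h2' : (conjs b).card = 2 := by rw [k.card_eq, h2]
  rw [h2] at h1
  have pa := Multiset.count_pos.2 k.ma
  have pb := Multiset.count_pos.2 k.mb
  have va := two_val k.h k.ma h2 (by omega)
  have vb := two_val k.h k.mb h2' (by omega)
  have hne := two_ne k.h k.ma h2
  have habs := k.abs_ne hne
  have hb : X r v b 1 = ord v ((r : L) ^ 2) ∨ X r v b 1 = -ord v ((r : L) ^ 2) := by
    rcases vb with h3 | h3
    · exact h3
    · omega
  have ha : m.count a = 3 ∧ (3 * X r v a 1 = ord v ((r : L) ^ 2) ∨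
      3 * X r v a 1 = -ord v ((r : L) ^ 2)) := by
    rcases va with h3 | h3
    · exfalso
      omega
    · exact h3
  refine ⟨ha.1, by omega, ?_⟩
  have hcase : X r v b 1 = 3 * X r v a 1 ∨ X r v b 1 = -(3 * X r v a 1) := by omega
  have hneq : (X r v a 1 : ℚ) ≠ 0 := by exact_mod_cast hne
  rcases hcase with h3 | h3
  · left
    have hα : α = 3 := by
      apply mul_right_cancel₀ hneq
      rw [← k.eq 1, h3]
      push_cast
      ring
    intro g
    have h4 := k.eq g
    rw [hα] at h4
    exact_mod_cast h4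
  · right
    have hα : α = -3 := by
      apply mul_right_cancel₀ hneq
      rw [← k.eq 1, h3]
      push_cast
      ring
    intro g
    have h4 := k.eq g
    rw [hα] at h4
    have h5 : (X r v b g : ℚ) = ((-(3 * X r v a g) : ℤ) : ℚ) := by rw [h4]; push_cast; ring
    exact_mod_cast h5

end Prp

/-- the normal form -/
structure Nf (p e r : ℕ) (v : HeightOneSpectrum (𝓞 L)) (m : Multiset L) (a b : L) : Prop where
  h : Ctx p e r v m
  hc : m.card ≤ 8
  ma : a ∈ m
  mb : b ∈ m
  ne : b ≠ a
  ne' : b ≠ (r : L) ^ 2 / a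
  ca : m.count a = 3
  cb : m.count b = 1
  eq : ∀ g, X r v b g = -(3 * X r v a g)
  all : ∀ w ∈ m, (w = a ∨ w = (r : L) ^ 2 / a) ∨ (w = b ∨ w = (r : L) ^ 2 / b)

theorem Prp.nf {a b : L} {α : ℚ} (k : Prp p e r v m a b α) : ∃ a b, Nf p e r v m a b := by
  have key : ∀ {a b : L} {α : ℚ}, Prp p e r v m a b α → m.count b ≤ m.count a →
      ∃ a b, Nf p e r v m a b := by
    intro a b α k hle
    obtain ⟨h1, h2, h3⟩ := k.quarter hle
    have hall : ∀ w ∈ m, (w = a ∨ w = (r : L) ^ 2 / a) ∨ (w = b ∨ w = (r : L) ^ 2 / b) := by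
      intro w hw
      by_contra hne
      have hca := k.card_two
      have hcb : (conjs b).card = 2 := by rw [k.card_eq, hca]
      have hwa : w ∉ conjs a := by
        intro h'
        obtain ⟨g, rfl⟩ := Ctx.mem_conjs.1 h'
        exact hne (Or.inl (conjs_two k.h k.ma hca g))
      have hwb : w ∉ conjs b := by
        intro h'
        obtain ⟨g, rfl⟩ := Ctx.mem_conjs.1 h'
        exact hne (Or.inr (conjs_two k.h k.mb hcb g))
      have hdis : Disjoint (conjs a) (conjs b) := by
        rw [Finset.disjoint_left]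
        intro x hx hx'
        obtain ⟨g, hg⟩ := Ctx.mem_conjs.1 hx
        obtain ⟨l, hl⟩ := Ctx.mem_conjs.1 hx'
        apply k.notMem
        rw [Ctx.mem_conjs]
        refine ⟨l⁻¹ * g, ?_⟩
        show l⁻¹ (g a) = b
        rw [hg, ← hl]
        exact AlgEquiv.symm_apply_apply l b
      have hw2 : w ∉ conjs a ∪ conjs b := by
        rw [Finset.mem_union]
        tauto
      have hsub : insert w (conjs a ∪ conjs b) ⊆ m.toFinset := by
        intro x hx
        rw [Finset.mem_insert, Finset.mem_union] at hx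
        rw [Multiset.mem_toFinset]
        rcases hx with rfl | hx | hx
        · exact hw
        · obtain ⟨g, rfl⟩ := Ctx.mem_conjs.1 hx
          exact k.h.hA.mem_map g k.ma
        · obtain ⟨g, rfl⟩ := Ctx.mem_conjs.1 hx
          exact k.h.hA.mem_map g k.mb
      have hsum := Finset.sum_le_sum_of_subset (f := fun x => m.count x) hsub
      rw [Multiset.toFinset_sum_count_eq, Finset.sum_insert hw2, Finset.sum_union hdis,
        Finset.sum_congr rfl (fun b hb => Ctx.count_of_conjs k.h hb),
        Finset.sum_congr rfl (fun x hx => Ctx.count_of_conjs (b := x) k.h hx),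
        Finset.sum_const, Finset.sum_const, hca, hcb, h1, h2] at hsum
      have h4 := Multiset.count_pos.2 hw
      have h5 := k.hc
      simp only [smul_eq_mul] at hsum
      omega
    rcases h3 with h3 | h3
    · refine ⟨a, (r : L) ^ 2 / b, k.h, k.hc, k.ma, k.h.bar_mem k.mb, ?_, ?_, h1, ?_, ?_, ?_⟩
      · intro h'
        apply k.ne'
        rw [← h', bb k.h.r_pos]
      · intro h'
        exact k.ne (bar_injective k.h.r_pos h')
      · rw [k.h.hA.count_bar k.h.r_pos (k.h.weil k.mb), h2]
      · intro g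
        rw [k.h.Xbar k.mb, Pi.neg_apply, h3]
      · intro w hw
        rw [bb k.h.r_pos]
        have := hall w hw
        tauto
    · exact ⟨a, b, k.h, k.hc, k.ma, k.mb, k.ne, k.ne', h1, h2, h3, hall⟩
  rcases le_total (m.count b) (m.count a) with h1 | h1
  · exact key k h1
  · exact key k.symm h1

namespace Nf

variable {a b : L}

theorem conj (k : Nf p e r v m a b) : Nf p e r v m ((r : L) ^ 2 / a) ((r : L) ^ 2 / b) where
  h := k.h
  hc := k.hc
  ma := k.h.bar_mem k.ma
  mb := k.h.bar_mem k.mb
  ne h' := k.ne (bar_injective k.h.r_pos h')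
  ne' h' := k.ne' (by
    have := congrArg (fun w => (r : L) ^ 2 / w) h'
    simpa only [bb k.h.r_pos] using this)
  ca := by rw [k.h.hA.count_bar k.h.r_pos (k.h.weil k.ma), k.ca]
  cb := by rw [k.h.hA.count_bar k.h.r_pos (k.h.weil k.mb), k.cb]
  eq g := by
    rw [k.h.Xbar k.ma, k.h.Xbar k.mb, Pi.neg_apply, Pi.neg_apply, k.eq]
    ring
  all w hw := by
    rw [bb k.h.r_pos, bb k.h.r_pos]
    have := k.all w hw
    tauto

/-- splitting off -/
theorem part_of (k : Nf p e r v m a b) (hR : Red r t) (h3 : 3 ≤ t.count a) (h1 : 1 ≤ t.count b) :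
    Part r v t (Multiset.replicate 3 a + {b}) := by
  have hcount : ∀ x, (Multiset.replicate 3 a + {b}).count x =
      (if a = x then 3 else 0) + (if x = b then 1 else 0) := by
    intro x
    rw [Multiset.count_add, Multiset.count_replicate, Multiset.count_singleton]
  have hlet : Multiset.replicate 3 a + {b} ≤ t := by
    rw [Multiset.le_iff_count]
    intro x
    rw [hcount]
    by_cases hxa : a = x
    · subst hxa
      rw [if_pos rfl, if_neg (Ne.symm k.ne)]
      exact h3
    · rw [if_neg hxa]
      by_cases hxb : x = b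
      · subst hxb
        rw [if_pos rfl]
        omega
      · rw [if_neg hxb]
        omega
  have hlem : Multiset.replicate 3 a + {b} ≤ m := by
    rw [Multiset.le_iff_count]
    intro x
    rw [hcount]
    by_cases hxa : a = x
    · subst hxa
      rw [if_pos rfl, if_neg (Ne.symm k.ne), k.ca]
    · rw [if_neg hxa]
      by_cases hxb : x = b
      · subst hxb
        rw [if_pos rfl, k.cb]
      · rw [if_neg hxb]
        omega
  have hcard : (Multiset.replicate 3 a + {b}).card = 4 := by
    rw [Multiset.card_add, Multiset.card_replicate, Multiset.card_singleton]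
  have hadd := add_bars_le k.h.r_pos k.h.rho_pos k.h.hA hlem (hR.mono hlet).pair
  have heq : Multiset.replicate 3 a + {b} + bars r (Multiset.replicate 3 a + {b}) = m := by
    apply Multiset.eq_of_le_of_card_le hadd
    rw [Multiset.card_add, card_bars, hcard]
    exact k.hc
  refine ⟨hlet, ?_, ?_, by omega, by omega⟩
  · rw [bal_iff k.h.hr k.h.hp k.h.hv (fun x hx => k.h.weil (Multiset.mem_of_le hlem hx))]
    intro g
    rw [XS_add, XS_singleton, k.eq g]
    have e1 : (Multiset.replicate 3 a : Multiset L) = a ::ₘ a ::ₘ {a} := rfl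
    rw [e1, XS_cons, XS_cons, XS_singleton]
    ring
  · rw [heq]
    exact k.h.hA

theorem claimP (k : Nf p e r v m a b) (hR : Red r t) (hb : Bal r t) (ht : ∀ x ∈ t, x ∈ m)
    (h0 : 0 < t.card) : ∃ S, Part r v t S := by
  have hne := k.ne
  have hne' := k.ne'
  obtain ⟨g, hg⟩ := Prp.exists_ne k.h k.ma
  -- the count relation
  have hX := (bal_iff k.h.hr k.h.hp k.h.hv (fun x hx => k.h.weil (ht x hx))).1 hb g
  have hXS : XS r v t g = ((t.count a : ℤ) - t.count ((r : L) ^ 2 / a)) * X r v a g +
      ((t.count b : ℤ) - t.count ((r : L) ^ 2 / b)) * X r v b g := by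
    rw [Ctx.XS_hs k.h ht]
    have hT : m.toFinset = {a, (r : L) ^ 2 / a, b, (r : L) ^ 2 / b} := by
      ext x
      rw [Multiset.mem_toFinset]
      simp only [Finset.mem_insert, Finset.mem_singleton]
      constructor
      · intro hx
        have := k.all x hx
        tauto
      · rintro (rfl | rfl | rfl | rfl)
        · exact k.ma
        · exact k.h.bar_mem k.ma
        · exact k.mb
        · exact k.h.bar_mem k.mb
    rw [← Ctx.XS_hs k.h ht, Ctx.XS_count ht, hT]
    have i1 : a ∉ ({(r : L) ^ 2 / a, b, (r : L) ^ 2 / b} : Finset L) := by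
      simp only [Finset.mem_insert, Finset.mem_singleton, not_or]
      refine ⟨fun h' => k.h.bar_ne k.ma h'.symm, fun h' => hne h'.symm, fun h' => ?_⟩
      apply hne'
      rw [h', bb k.h.r_pos]
    have i2 : (r : L) ^ 2 / a ∉ ({b, (r : L) ^ 2 / b} : Finset L) := by
      simp only [Finset.mem_insert, Finset.mem_singleton, not_or]
      exact ⟨fun h' => hne' h'.symm, fun h' => hne (bar_injective k.h.r_pos h'.symm)⟩
    have i3 : b ∉ ({(r : L) ^ 2 / b} : Finset L) := by
      rw [Finset.mem_singleton]
      exact fun h' => k.h.bar_ne k.mb h'.symm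
    rw [Finset.sum_insert i1, Finset.sum_insert i2, Finset.sum_insert i3, Finset.sum_singleton,
      k.h.Xbar k.ma, k.h.Xbar k.mb, Pi.neg_apply, Pi.neg_apply]
    ring
  rw [hXS, k.eq g] at hX
  have hrel : (t.count a : ℤ) - t.count ((r : L) ^ 2 / a) =
      3 * ((t.count b : ℤ) - t.count ((r : L) ^ 2 / b)) := by
    have h1 : (((t.count a : ℤ) - t.count ((r : L) ^ 2 / a)) -
        3 * ((t.count b : ℤ) - t.count ((r : L) ^ 2 / b))) * X r v a g = 0 := by
      linear_combination hX
    have h2 := (mul_eq_zero.1 h1).resolve_right hg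
    omega
  have oa := Ctx.red_or k.h.r_pos hR a
  have ob := Ctx.red_or k.h.r_pos hR b
  have hsome : 0 < t.count a ∨ 0 < t.count ((r : L) ^ 2 / a) ∨ 0 < t.count b ∨
      0 < t.count ((r : L) ^ 2 / b) := by
    obtain ⟨x, hx⟩ := Multiset.card_pos_iff_exists_mem.1 h0
    have hpos := Multiset.count_pos.2 hx
    rcases k.all x (ht x hx) with (h1 | h1) | (h1 | h1)
    · left; rw [← h1]; exact hpos
    · right; left; rw [← h1]; exact hpos
    · right; right; left; rw [← h1]; exact hpos
    · right; right; right; rw [← h1]; exact hpos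
  by_cases hpos : 1 ≤ t.count b
  · exact ⟨_, k.part_of hR (by omega) hpos⟩
  · exact ⟨_, k.conj.part_of hR (by omega) (by omega)⟩

end Nf

end Pool.Agent.Lib.MP81632f.Mk
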