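import Mathlib

/-! # Balanced selection: choosing CM types of lifts with a nearly balanced signature -/

namespace Pool.Agent.Lib.MP81632f.Mk.Sel

open scoped Classical

variable {α : Type}

theorem exists_fun_sum (M : ℕ) (S : Finset α) : ∀ T : ℕ, T ≤ S.card * M →
    ∃ f : α → ℕ, (∀ x, f x ≤ M) ∧ ∑ x ∈ S, f x = T := by
  induction S using Finset.induction_on with
  | empty =>
    intro T hT
    simp at hT
    exact ⟨fun _ => 0, fun _ => Nat.zero_le _, by simp [hT]⟩
  | insert a S ha ih =>
    intro T hT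
    rw [Finset.card_insert_of_notMem ha, add_mul, one_mul] at hT
    obtain ⟨f, hf, hs⟩ := ih (T - min T M) (by omega)
    refine ⟨fun x => if x = a then min T M else f x, fun x => ?_, ?_⟩
    · simp only
      split_ifs
      · exact min_le_right _ _
      · exact hf x
    · rw [Finset.sum_insert ha]
      have h1 : ∑ x ∈ S, (if x = a then min T M else f x) = ∑ x ∈ S, f x := by
        apply Finset.sum_congr rfl
        intro x hx
        have : x ≠ a := fun h => ha (h ▸ hx)
        simp [this]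
      rw [h1, hs]
      simp

/-- the data -/
structure Sys (O : α → Finset α) (bar : α → α) (κ : α → ℤˣ) (μ N : α → ℕ) (V : Finset α) : Prop where
  self : ∀ a ∈ V, a ∈ O a
  mem : ∀ a ∈ V, ∀ b ∈ O a, b ∈ V
  eq : ∀ a ∈ V, ∀ b ∈ O a, O b = O a
  barmem : ∀ a ∈ V, bar a ∈ V
  barbar : ∀ a ∈ V, bar (bar a) = a
  orbbar : ∀ a ∈ V, O (bar a) = (O a).image bar
  mu : ∀ a ∈ V, ∀ b ∈ O a, μ b = μ a
  mubar : ∀ a ∈ V, μ (bar a) = μ a
  num : ∀ a ∈ V, ∀ b ∈ O a, N b = N a
  total : ∀ a ∈ V, N a + N (bar a) = μ a * (O a).card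
  kap : ∀ a ∈ V, κ (bar a) = -κ a

structure Flip (O : α → Finset α) (bar : α → α) (κ : α → ℤˣ) (d : α → α) (V : Finset α) : Prop where
  mem : ∀ a ∈ V, ∀ b ∈ O a, d b ∈ O a
  kap : ∀ a ∈ V, κ (d a) = -κ a
  bar : ∀ a ∈ V, d (bar a) = bar (d a)
  inj : ∀ a ∈ V, ∀ b ∈ V, d a = d b → a = b

variable {O : α → Finset α} {bar : α → α} {κ : α → ℤˣ} {μ N : α → ℕ} {V : Finset α} {d : α → α}

/-- conclusion on a set -/
structure Good (O : α → Finset α) (bar : α → α) (μ N : α → ℕ) (V : Finset α) (φ : α → ℕ) : Prop where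
  conj : ∀ a ∈ V, φ a + φ (bar a) = μ a
  sum : ∀ a ∈ V, ∑ b ∈ O a, φ b = N a

/-- deviation from the balanced signature -/
noncomputable def dev (κ : α → ℤˣ) (μ : α → ℕ) (V : Finset α) (φ : α → ℕ) : ℤ :=
  2 * ∑ x ∈ V.filter (fun x => κ x = 1), (φ x : ℤ) - ∑ x ∈ V.filter (fun x => κ x = 1), (μ x : ℤ)

theorem kap_cases (z : ℤˣ) : z = 1 ∨ z = -1 := Int.units_eq_one_or z

theorem Sys.bar_inj (h : Sys O bar κ μ N V) : Set.InjOn bar (V : Set α) := by
  intro x hx y hy hxy
  rw [← h.barbar x hx, ← h.barbar y hy, hxy]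

theorem Sys.card_bar (h : Sys O bar κ μ N V) {a : α} (ha : a ∈ V) : (O (bar a)).card = (O a).card := by
  rw [h.orbbar a ha]
  apply Finset.card_image_of_injOn
  intro x hx y hy hxy
  exact h.bar_inj (h.mem a ha x hx) (h.mem a ha y hy) hxy

theorem neg_ne_one_units {z : ℤˣ} (h : z = 1) : -z ≠ 1 := by
  rw [h]; decide

/-- the two sign parts of an orbit have the same size -/
theorem Flip.card_eq (h : Sys O bar κ μ N V) (hd : Flip O bar κ d V) {a : α} (ha : a ∈ V) :
    ((O a).filter (fun x => κ x = 1)).card = ((O a).filter (fun x => ¬ κ x = 1)).card := by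
  apply le_antisymm
  · apply Finset.card_le_card_of_injOn d
    · intro x hx
      rw [Finset.mem_coe, Finset.mem_filter] at hx ⊢
      refine ⟨hd.mem a ha x hx.1, ?_⟩
      rw [hd.kap x (h.mem a ha x hx.1)]
      exact neg_ne_one_units hx.2
    · intro x hx y hy hxy
      rw [Finset.mem_coe, Finset.mem_filter] at hx hy
      exact hd.inj x (h.mem a ha x hx.1) y (h.mem a ha y hy.1) hxy
  · apply Finset.card_le_card_of_injOn d
    · intro x hx
      rw [Finset.mem_coe, Finset.mem_filter] at hx ⊢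
      refine ⟨hd.mem a ha x hx.1, ?_⟩
      rw [hd.kap x (h.mem a ha x hx.1)]
      rcases kap_cases (κ x) with h1 | h1
      · exact absurd h1 hx.2
      · rw [h1]; decide
    · intro x hx y hy hxy
      rw [Finset.mem_coe, Finset.mem_filter] at hx hy
      exact hd.inj x (h.mem a ha x hx.1) y (h.mem a ha y hy.1) hxy

/-- flipping a solution -/
theorem flip_good (h : Sys O bar κ μ N V) (hd : Flip O bar κ d V) {φ : α → ℕ}
    (hφ : Good O bar μ N V φ) : Good O bar μ N V (fun x => φ (d x)) ∧
      dev κ μ V (fun x => φ (d x)) = -dev κ μ V φ := by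
  have hdV : ∀ a ∈ V, d a ∈ V := fun a ha => h.mem a ha _ (hd.mem a ha a (h.self a ha))
  have hperm : ∀ a ∈ V, (O a).image d = O a := by
    intro a ha
    apply Finset.eq_of_subset_of_card_le
    · intro x hx
      obtain ⟨y, hy, rfl⟩ := Finset.mem_image.1 hx
      exact hd.mem a ha y hy
    · rw [Finset.card_image_of_injOn]
      intro x hx y hy hxy
      exact hd.inj x (h.mem a ha x hx) y (h.mem a ha y hy) hxy
  refine ⟨⟨fun a ha => ?_, fun a ha => ?_⟩, ?_⟩
  · show φ (d a) + φ (d (bar a)) = μ a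
    rw [hd.bar a ha, hφ.conj _ (hdV a ha)]
    exact h.mu a ha _ (hd.mem a ha a (h.self a ha))
  · rw [← hφ.sum a ha]
    conv_rhs => rw [← hperm a ha]
    rw [Finset.sum_image]
    intro x hx y hy hxy
    exact hd.inj x (h.mem a ha x hx) y (h.mem a ha y hy) hxy
  · unfold dev
    -- Σ_{κ=1} φ (d x) = Σ_{κ=1} φ (bar y)
    have hV : V.image d = V := by
      apply Finset.eq_of_subset_of_card_le
      · intro x hx
        obtain ⟨y, hy, rfl⟩ := Finset.mem_image.1 hx
        exact hdV y hy
      · rw [Finset.card_image_of_injOn]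
        intro x hx y hy hxy
        exact hd.inj x hx y hy hxy
    have e1 : ∑ x ∈ V.filter (fun x => κ x = 1), (φ (d x) : ℤ) =
        ∑ x ∈ V.filter (fun x => ¬ κ x = 1), (φ x : ℤ) := by
      refine Finset.sum_bij (fun x _ => d x) ?_ ?_ ?_ ?_
      · intro x hx
        rw [Finset.mem_filter] at hx ⊢
        refine ⟨hdV x hx.1, ?_⟩
        rw [hd.kap x hx.1]
        exact neg_ne_one_units hx.2
      · intro x hx y hy hxy
        rw [Finset.mem_filter] at hx hy
        exact hd.inj x hx.1 y hy.1 hxy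
      · intro y hy
        rw [Finset.mem_filter] at hy
        rw [← hV] at hy
        obtain ⟨x, hx, hxy⟩ := Finset.mem_image.1 hy.1
        refine ⟨x, ?_, hxy⟩
        rw [Finset.mem_filter]
        refine ⟨hx, ?_⟩
        have h2 := hd.kap x hx
        rw [hxy] at h2
        rcases kap_cases (κ x) with h3 | h3
        · exact h3
        · exfalso
          apply hy.2
          rw [h2, h3]
          decide
      · intro x _
        rfl
    have e2 : ∑ x ∈ V.filter (fun x => ¬ κ x = 1), (φ x : ℤ) =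
        ∑ x ∈ V.filter (fun x => κ x = 1), (φ (bar x) : ℤ) := by
      symm
      refine Finset.sum_bij (fun x _ => bar x) ?_ ?_ ?_ ?_
      · intro x hx
        rw [Finset.mem_filter] at hx ⊢
        refine ⟨h.barmem x hx.1, ?_⟩
        rw [h.kap x hx.1]
        exact neg_ne_one_units hx.2
      · intro x hx y hy hxy
        rw [Finset.mem_filter] at hx hy
        exact h.bar_inj hx.1 hy.1 hxy
      · intro y hy
        rw [Finset.mem_filter] at hy
        refine ⟨bar y, ?_, h.barbar y hy.1⟩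
        rw [Finset.mem_filter]
        refine ⟨h.barmem y hy.1, ?_⟩
        rw [h.kap y hy.1]
        rcases kap_cases (κ y) with h3 | h3
        · exact absurd h3 hy.2
        · rw [h3]; decide
      · intro x _
        rfl
    have e3 : ∑ x ∈ V.filter (fun x => κ x = 1), (φ (bar x) : ℤ) =
        ∑ x ∈ V.filter (fun x => κ x = 1), (μ x : ℤ) - ∑ x ∈ V.filter (fun x => κ x = 1), (φ x : ℤ) := by
      rw [← Finset.sum_sub_distrib]
      apply Finset.sum_congr rfl
      intro x hx
      rw [Finset.mem_filter] at hx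
      have := hφ.conj x hx.1
      omega
    rw [e1, e2, e3]
    ring

theorem sum_filter_split (S : Finset α) (κ : α → ℤˣ) (f : α → ℕ) :
    ∑ x ∈ S.filter (fun x => κ x = 1), f x + ∑ x ∈ S.filter (fun x => ¬ κ x = 1), f x = ∑ x ∈ S, f x :=
  Finset.sum_filter_add_sum_filter_not S _ f

end Pool.Agent.Lib.MP81632f.Mk.Sel
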