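import Pool.Agent.Lib.MP_81632f_ag.Mk.Sel

namespace Pool.Agent.Lib.MP81632f.Mk.Sel

open scoped Classical

variable {α : Type} {O : α → Finset α} {bar : α → α} {κ : α → ℤˣ} {μ N : α → ℕ} {V : Finset α} {d : α → α}

/-- orbits of `a` and `bar a` are equal or disjoint -/
theorem Sys.disj (h : Sys O bar κ μ N V) {a : α} (ha : a ∈ V) (hp : bar a ∉ O a) :
    Disjoint (O a) (O (bar a)) := by
  rw [Finset.disjoint_left]
  intro x hx hx'
  have e1 := h.eq a ha x hx
  have e2 := h.eq (bar a) (h.barmem a ha) x hx'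
  apply hp
  rw [← e1, e2]
  exact h.self _ (h.barmem a ha)

/-- `N a ≤ μ a * |O a|` -/
theorem Sys.le (h : Sys O bar κ μ N V) {a : α} (ha : a ∈ V) : N a ≤ μ a * (O a).card := by
  have := h.total a ha
  omega

theorem card_split (S : Finset α) (κ : α → ℤˣ) :
    (S.filter (fun x => κ x = 1)).card + (S.filter (fun x => ¬ κ x = 1)).card = S.card :=
  Finset.card_filter_add_card_filter_not _

/-- a function on one orbit with the right sum -/
theorem exists_f (h : Sys O bar κ μ N V) {a : α} (ha : a ∈ V) :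
    ∃ f : α → ℕ, (∀ x, f x ≤ μ a) ∧ ∑ x ∈ O a, f x = N a ∧
      (Flip O bar κ d V → ∑ x ∈ (O a).filter (fun x => κ x = 1), f x = N a / 2) := by
  by_cases hd : Flip O bar κ d V
  · have hc := Flip.card_eq h hd ha
    have hs := card_split (O a) κ
    have hle := h.le ha
    have hN : N a ≤ 2 * (((O a).filter (fun x => κ x = 1)).card * μ a) := by
      calc N a ≤ μ a * (O a).card := hle
        _ = _ := by rw [← hs, ← hc]; ring
    obtain ⟨f1, hf1, hs1⟩ := exists_fun_sum (μ a) ((O a).filter (fun x => κ x = 1)) (N a / 2)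
      (by omega)
    obtain ⟨f2, hf2, hs2⟩ := exists_fun_sum (μ a) ((O a).filter (fun x => ¬ κ x = 1)) (N a - N a / 2)
      (by rw [← hc]; omega)
    have e1 : ∑ x ∈ (O a).filter (fun x => κ x = 1), (if κ x = 1 then f1 x else f2 x) = N a / 2 := by
      rw [← hs1]
      apply Finset.sum_congr rfl
      intro x hx
      rw [if_pos (Finset.mem_filter.1 hx).2]
    have e2 : ∑ x ∈ (O a).filter (fun x => ¬ κ x = 1), (if κ x = 1 then f1 x else f2 x) =
        N a - N a / 2 := by
      rw [← hs2]
      apply Finset.sum_congr rfl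
      intro x hx
      rw [if_neg (Finset.mem_filter.1 hx).2]
    refine ⟨fun x => if κ x = 1 then f1 x else f2 x, fun x => ?_, ?_, fun _ => e1⟩
    · simp only
      split_ifs
      · exact hf1 x
      · exact hf2 x
    · rw [← sum_filter_split (O a) κ, e1, e2]
      omega
  · obtain ⟨f, hf, hs⟩ := exists_fun_sum (μ a) (O a) (N a) (by rw [mul_comm]; exact h.le ha)
    exact ⟨f, hf, hs, fun h' => absurd h' hd⟩

/-- pair type -/
theorem step_pair (h : Sys O bar κ μ N V) {a : α} (ha : a ∈ V) (hp : bar a ∉ O a) :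
    ∃ ψ : α → ℕ, Good O bar μ N (O a ∪ O (bar a)) ψ ∧
      (Flip O bar κ d V → |dev κ μ (O a ∪ O (bar a)) ψ| ≤ 2) := by
  obtain ⟨f, hf, hs, hfl⟩ := exists_f (d := d) h ha
  have hdis := h.disj ha hp
  have hbar : ∀ x ∈ O a, bar x ∈ O (bar a) := by
    intro x hx
    rw [h.orbbar a ha]
    exact Finset.mem_image_of_mem _ hx
  have hbar2 : ∀ x ∈ O (bar a), ∃ y ∈ O a, bar y = x ∧ bar x = y := by
    intro x hx
    rw [h.orbbar a ha] at hx
    obtain ⟨y, hy, rfl⟩ := Finset.mem_image.1 hx
    exact ⟨y, hy, rfl, h.barbar y (h.mem a ha y hy)⟩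
  have hv1 : ∀ x ∈ O a, (if x ∈ O a then f x else μ a - f (bar x)) = f x := by
    intro x hx
    rw [if_pos hx]
  have hv2 : ∀ x ∈ O a, (if bar x ∈ O a then f (bar x) else μ a - f (bar (bar x))) = μ a - f x := by
    intro x hx
    have h1 : bar x ∉ O a := fun h2 => (Finset.disjoint_left.1 hdis) h2 (hbar x hx)
    rw [if_neg h1, h.barbar x (h.mem a ha x hx)]
  have hsumbar : ∀ (F : α → ℕ), ∑ x ∈ O (bar a), F x = ∑ x ∈ O a, F (bar x) := by
    intro F
    rw [h.orbbar a ha, Finset.sum_image]
    intro x hx y hy hxy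
    exact h.bar_inj (h.mem a ha x hx) (h.mem a ha y hy) hxy
  refine ⟨fun x => if x ∈ O a then f x else μ a - f (bar x), ⟨?_, ?_⟩, fun hd => ?_⟩
  · intro x hx
    rcases Finset.mem_union.1 hx with hx | hx
    · show (if x ∈ O a then f x else μ a - f (bar x)) +
        (if bar x ∈ O a then f (bar x) else μ a - f (bar (bar x))) = μ x
      rw [hv1 x hx, hv2 x hx, h.mu a ha x hx]
      have := hf x
      omega
    · obtain ⟨y, hy, rfl, hxy⟩ := hbar2 x hx
      show (if bar y ∈ O a then f (bar y) else μ a - f (bar (bar y))) +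
        (if bar (bar y) ∈ O a then f (bar (bar y)) else μ a - f (bar (bar (bar y)))) = μ (bar y)
      rw [hv2 y hy, hxy, if_pos hy, h.mubar y (h.mem a ha y hy), h.mu a ha y hy]
      have := hf y
      omega
  · intro x hx
    rcases Finset.mem_union.1 hx with hx | hx
    · rw [h.eq a ha x hx, h.num a ha x hx]
      rw [← hs]
      exact Finset.sum_congr rfl hv1
    · rw [h.eq _ (h.barmem a ha) x hx, h.num _ (h.barmem a ha) x hx, hsumbar]
      have h1 : ∑ x ∈ O a, (if bar x ∈ O a then f (bar x) else μ a - f (bar (bar x))) =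
          ∑ x ∈ O a, (μ a - f x) := Finset.sum_congr rfl hv2
      rw [h1]
      have h2 : ∑ x ∈ O a, (μ a - f x) + ∑ x ∈ O a, f x = μ a * (O a).card := by
        rw [← Finset.sum_add_distrib]
        have : ∀ x ∈ O a, μ a - f x + f x = μ a := by
          intro x _
          have := hf x
          omega
        rw [Finset.sum_congr rfl this, Finset.sum_const, smul_eq_mul, mul_comm]
      have h3 := h.total a ha
      omega
  · have hfl := hfl hd
    have hc := Flip.card_eq h hd ha
    unfold dev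
    rw [Finset.filter_union, Finset.sum_union (Finset.disjoint_filter_filter hdis),
      Finset.sum_union (Finset.disjoint_filter_filter hdis)]
    have e0 : (O (bar a)).filter (fun x => κ x = 1) = ((O a).filter (fun x => ¬ κ x = 1)).image bar := by
      ext x
      rw [Finset.mem_filter, Finset.mem_image]
      constructor
      · rintro ⟨hx, hk⟩
        obtain ⟨y, hy, rfl, -⟩ := hbar2 x hx
        refine ⟨y, ?_, rfl⟩
        rw [Finset.mem_filter]
        refine ⟨hy, fun h1 => ?_⟩
        rw [h.kap y (h.mem a ha y hy)] at hk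
        exact neg_ne_one_units h1 hk
      · rintro ⟨y, hy, rfl⟩
        rw [Finset.mem_filter] at hy
        refine ⟨hbar y hy.1, ?_⟩
        rw [h.kap y (h.mem a ha y hy.1)]
        rcases kap_cases (κ y) with h3 | h3
        · exact absurd h3 hy.2
        · rw [h3]; decide
    have hinj : ∀ x ∈ (O a).filter (fun x => ¬ κ x = 1), ∀ y ∈ (O a).filter (fun x => ¬ κ x = 1),
        bar x = bar y → x = y := by
      intro x hx y hy hxy
      exact h.bar_inj (h.mem a ha x (Finset.mem_filter.1 hx).1)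
        (h.mem a ha y (Finset.mem_filter.1 hy).1) hxy
    rw [e0, Finset.sum_image hinj, Finset.sum_image hinj]
    have f1 : ∑ x ∈ (O a).filter (fun x => κ x = 1),
        ((if x ∈ O a then f x else μ a - f (bar x) : ℕ) : ℤ) = ((N a / 2 : ℕ) : ℤ) := by
      rw [← hfl, Nat.cast_sum]
      apply Finset.sum_congr rfl
      intro x hx
      rw [if_pos (Finset.mem_filter.1 hx).1]
    have f2 : ∑ x ∈ (O a).filter (fun x => ¬ κ x = 1),
        ((if bar x ∈ O a then f (bar x) else μ a - f (bar (bar x)) : ℕ) : ℤ) =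
        ((O a).filter (fun x => ¬ κ x = 1)).card * (μ a : ℤ) - ((N a - N a / 2 : ℕ) : ℤ) := by
      have g1 : ∀ x ∈ (O a).filter (fun x => ¬ κ x = 1),
          ((if bar x ∈ O a then f (bar x) else μ a - f (bar (bar x)) : ℕ) : ℤ) = (μ a : ℤ) - (f x : ℤ) := by
        intro x hx
        rw [hv2 x (Finset.mem_filter.1 hx).1, Nat.cast_sub (hf x)]
      rw [Finset.sum_congr rfl g1, Finset.sum_sub_distrib, Finset.sum_const, nsmul_eq_mul]
      congr 1
      have g2 := sum_filter_split (O a) κ f
      rw [hfl, hs] at g2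
      have g3 : ∑ x ∈ (O a).filter (fun x => ¬ κ x = 1), f x = N a - N a / 2 := by omega
      rw [← g3, Nat.cast_sum]
    have f3 : ∑ x ∈ (O a).filter (fun x => κ x = 1), (μ x : ℤ) =
        ((O a).filter (fun x => ¬ κ x = 1)).card * (μ a : ℤ) := by
      rw [← hc]
      rw [Finset.sum_congr rfl (fun x hx => by rw [h.mu a ha x (Finset.mem_filter.1 hx).1]),
        Finset.sum_const, nsmul_eq_mul]
    have f4 : ∑ x ∈ (O a).filter (fun x => ¬ κ x = 1), (μ (bar x) : ℤ) =
        ((O a).filter (fun x => ¬ κ x = 1)).card * (μ a : ℤ) := by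
      rw [Finset.sum_congr rfl (fun x hx => by
        rw [h.mubar x (h.mem a ha x (Finset.mem_filter.1 hx).1), h.mu a ha x (Finset.mem_filter.1 hx).1]),
        Finset.sum_const, nsmul_eq_mul]
    rw [f1, f2, f3, f4]
    have hle : N a / 2 ≤ N a := Nat.div_le_self _ _
    rw [Nat.cast_sub hle]
    have key : 2 * (((N a / 2 : ℕ) : ℤ) + (((O a).filter (fun x => ¬ κ x = 1)).card * (μ a : ℤ) -
        (((N a : ℕ) : ℤ) - ((N a / 2 : ℕ) : ℤ)))) -
        (((O a).filter (fun x => ¬ κ x = 1)).card * (μ a : ℤ) +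
          ((O a).filter (fun x => ¬ κ x = 1)).card * (μ a : ℤ)) =
        4 * ((N a / 2 : ℕ) : ℤ) - 2 * (N a : ℤ) := by ring
    rw [key, abs_le]
    constructor <;> omega

end Pool.Agent.Lib.MP81632f.Mk.Sel
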