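import Pool.Agent.Lib.MP_81632f_ag.Mk.Kron

/-! # The slope functions of Weil numbers -/

namespace Pool.Agent.Lib.MP81632f.Mk

open NumberField IsDedekindDomain
open scoped Classical

variable {L : Type} [Field L] [NumberField L]

/-- twice the slope minus one, times the order of `q`, at all conjugates of `v` -/
noncomputable def X (r : ℕ) (v : HeightOneSpectrum (𝓞 L)) (a : L) (g : L ≃ₐ[ℚ] L) : ℤ :=
  2 * ord v (g a) - ord v ((r : L) ^ 2)

/-- sum of the slope functions -/
noncomputable def XS (r : ℕ) (v : HeightOneSpectrum (𝓞 L)) (s : Multiset L) (g : L ≃ₐ[ℚ] L) : ℤ :=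
  (s.map (fun a => X r v a g)).sum

/-- the invariant inner product -/
noncomputable def ip (f f' : (L ≃ₐ[ℚ] L) → ℤ) : ℤ := ∑ g, f g * f' g

section ip

variable (f f' f'' : (L ≃ₐ[ℚ] L) → ℤ)

theorem ip_comm : ip f f' = ip f' f := by
  unfold ip
  exact Finset.sum_congr rfl (fun g _ => mul_comm _ _)

theorem ip_add_left : ip (f + f') f'' = ip f f'' + ip f' f'' := by
  unfold ip
  rw [← Finset.sum_add_distrib]
  exact Finset.sum_congr rfl (fun g _ => by rw [Pi.add_apply]; ring)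

theorem ip_add_right : ip f (f' + f'') = ip f f' + ip f f'' := by
  rw [ip_comm, ip_add_left, ip_comm f' f, ip_comm f'' f]

theorem ip_neg_left : ip (-f) f' = -ip f f' := by
  unfold ip
  rw [← Finset.sum_neg_distrib]
  exact Finset.sum_congr rfl (fun g _ => by rw [Pi.neg_apply]; ring)

theorem ip_neg_right : ip f (-f') = -ip f f' := by
  rw [ip_comm, ip_neg_left, ip_comm]

theorem ip_sub_left : ip (f - f') f'' = ip f f'' - ip f' f'' := by
  rw [sub_eq_add_neg, ip_add_left, ip_neg_left, sub_eq_add_neg]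

theorem ip_sub_right : ip f (f' - f'') = ip f f' - ip f f'' := by
  rw [sub_eq_add_neg, ip_add_right, ip_neg_right, sub_eq_add_neg]

theorem ip_smul_left (n : ℤ) : ip (n • f) f' = n * ip f f' := by
  unfold ip
  rw [Finset.mul_sum]
  exact Finset.sum_congr rfl (fun g _ => by rw [Pi.smul_apply, smul_eq_mul]; ring)

theorem ip_smul_right (n : ℤ) : ip f (n • f') = n * ip f f' := by
  rw [ip_comm, ip_smul_left, ip_comm]

theorem ip_self_nonneg : 0 ≤ ip f f :=
  Finset.sum_nonneg (fun g _ => mul_self_nonneg _)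

theorem ip_self_eq_zero : ip f f = 0 ↔ f = 0 := by
  unfold ip
  rw [Finset.sum_eq_zero_iff_of_nonneg (fun g _ => mul_self_nonneg _)]
  constructor
  · intro h
    ext g
    exact mul_self_eq_zero.1 (h g (Finset.mem_univ g))
  · rintro rfl g _
    simp

theorem ip_self_pos (h : f ≠ 0) : 0 < ip f f :=
  lt_of_le_of_ne (ip_self_nonneg f) (fun h' => h ((ip_self_eq_zero f).1 h'.symm))

/-- right translation -/
def act (h : L ≃ₐ[ℚ] L) (f : (L ≃ₐ[ℚ] L) → ℤ) : (L ≃ₐ[ℚ] L) → ℤ := fun g => f (g * h)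

theorem ip_act (h : L ≃ₐ[ℚ] L) : ip (act h f) (act h f') = ip f f' := by
  unfold ip act
  exact Fintype.sum_equiv (Equiv.mulRight h) _ _ (fun g => rfl)

theorem act_add (h : L ≃ₐ[ℚ] L) : act h (f + f') = act h f + act h f' := rfl
theorem act_sub (h : L ≃ₐ[ℚ] L) : act h (f - f') = act h f - act h f' := rfl
theorem act_neg (h : L ≃ₐ[ℚ] L) : act h (-f) = -act h f := rfl
theorem act_smul (h : L ≃ₐ[ℚ] L) (n : ℤ) : act h (n • f) = n • act h f := rfl

end ip

variable {r : ℕ} {v : HeightOneSpectrum (𝓞 L)}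

theorem X_map (h : L ≃ₐ[ℚ] L) (a : L) : X r v (h a) = act h (X r v a) := rfl

theorem X_bar (hr : 0 < r) {a : L} (ha : a ≠ 0) : X r v ((r : L) ^ 2 / a) = -X r v a := by
  ext g
  rw [Pi.neg_apply]
  unfold X
  rw [map_bar, ord_bar hr ((map_ne_zero g).2 ha)]
  ring

theorem X_dec {d : L ≃ₐ[ℚ] L} (hd : d ∈ decomp v) (a : L) (g : L ≃ₐ[ℚ] L) :
    X r v a (d * g) = X r v a g := by
  unfold X
  have h : ord v ((d * g) a) = ord v (g a) := hd (g a)
  rw [h]

theorem XS_add (s t : Multiset L) (g : L ≃ₐ[ℚ] L) : XS r v (s + t) g = XS r v s g + XS r v t g := by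
  unfold XS
  rw [Multiset.map_add, Multiset.sum_add]

theorem XS_zero (g : L ≃ₐ[ℚ] L) : XS r v 0 g = 0 := by
  unfold XS
  simp

theorem XS_cons (a : L) (s : Multiset L) (g : L ≃ₐ[ℚ] L) :
    XS r v (a ::ₘ s) g = X r v a g + XS r v s g := by
  unfold XS
  rw [Multiset.map_cons, Multiset.sum_cons]

theorem XS_singleton (a : L) (g : L ≃ₐ[ℚ] L) : XS r v {a} g = X r v a g := by
  unfold XS
  simp

theorem XS_map (h : L ≃ₐ[ℚ] L) (s : Multiset L) (g : L ≃ₐ[ℚ] L) :
    XS r v (s.map h) g = XS r v s (g * h) := by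
  unfold XS
  rw [Multiset.map_map]
  rfl

theorem XS_bars (hr : 0 < r) {s : Multiset L} (hs : ∀ a ∈ s, a ≠ 0) (g : L ≃ₐ[ℚ] L) :
    XS r v (bars r s) g = -XS r v s g := by
  induction s using Multiset.induction_on with
  | empty => simp [bars, XS_zero]
  | cons a s ih =>
    have e : bars r (a ::ₘ s) = ((r : L) ^ 2 / a) ::ₘ bars r s := Multiset.map_cons _ _ _
    rw [e, XS_cons, XS_cons, ih (fun b hb => hs b (Multiset.mem_cons_of_mem hb)),
      X_bar hr (hs a (Multiset.mem_cons_self a s)), Pi.neg_apply]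
    ring

theorem XS_eq (hr : 0 < r) {s : Multiset L} (hs : ∀ a ∈ s, a ≠ 0) (g : L ≃ₐ[ℚ] L) :
    XS r v s g = 2 * ord v (g s.prod) - s.card * ord v ((r : L) ^ 2) := by
  induction s using Multiset.induction_on with
  | empty => simp [XS_zero, ord_one]
  | cons a s ih =>
    have h1 := hs a (Multiset.mem_cons_self a s)
    have h2 := prod_ne_zero (fun b hb => hs b (Multiset.mem_cons_of_mem hb))
    rw [XS_cons, ih (fun b hb => hs b (Multiset.mem_cons_of_mem hb)), Multiset.prod_cons, map_mul,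
      ord_mul v ((map_ne_zero g).2 h1) ((map_ne_zero g).2 h2), Multiset.card_cons]
    unfold X
    push_cast
    ring

theorem Bal.XS_eq_zero (hr : 0 < r) {s : Multiset L} (h : Bal r s) (hs : ∀ a ∈ s, a ≠ 0)
    (g : L ≃ₐ[ℚ] L) : XS r v s g = 0 := by
  have h0 : (r : L) ≠ 0 := by exact_mod_cast hr.ne'
  have h1 := (h.map g).ord (v := v) hr (by
    intro a ha
    obtain ⟨b, hb, rfl⟩ := Multiset.mem_map.1 ha
    exact (map_ne_zero g).2 (hs b hb))
  have h2 : g s.prod = (s.map g).prod := map_multiset_prod g s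
  rw [Multiset.card_map, ← h2] at h1
  rw [XS_eq hr hs, h1, ord_q hr]
  ring

theorem weil_prod {s : Multiset L} (hs : ∀ a ∈ s, IsWeil r a) : IsWeil (r ^ s.card) s.prod := by
  induction s using Multiset.induction_on with
  | empty =>
    refine ⟨by simpa using isIntegral_one, fun f => ?_⟩
    simp
  | cons a s ih =>
    have h1 := hs a (Multiset.mem_cons_self a s)
    have h2 := ih (fun b hb => hs b (Multiset.mem_cons_of_mem hb))
    rw [Multiset.prod_cons, Multiset.card_cons]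
    refine ⟨h1.1.mul h2.1, fun f => ?_⟩
    rw [map_mul, norm_mul, h1.2 f, h2.2 f]
    push_cast
    ring

theorem abs_X_le (hr : 0 < r) [IsGalois ℚ L] {a : L} (ha : IsWeil r a) (g : L ≃ₐ[ℚ] L) :
    |X r v a g| ≤ ord v ((r : L) ^ 2) := by
  have h1 := ord_nonneg v (ha.map g).1
  have h2 := ord_nonneg v ((ha.map g).conj hr).1
  rw [ord_bar hr ((ha.map g).ne_zero hr)] at h2
  unfold X
  rw [abs_le]
  constructor <;> omega

section kron

variable {p e : ℕ} [IsGalois ℚ L]

theorem bal_of_XS (hr : r = p ^ e) (hp : p.Prime) (hv : (p : 𝓞 L) ∈ v.asIdeal) {s : Multiset L}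
    (hs : ∀ a ∈ s, IsWeil r a) (h : ∀ g, XS r v s g = 0) : Bal r s := by
  have hr0 : 0 < r := by rw [hr]; exact pow_pos hp.pos e
  have hne : ∀ a ∈ s, a ≠ 0 := fun a ha => (hs a ha).ne_zero hr0
  have h1 := weil_prod hs
  have h2 : IsWeil (r ^ s.card) ((r ^ s.card : ℕ) : L) := weil_r (pow_pos hr0 _)
  obtain ⟨N, hN, h3⟩ := root_of_ord (r := r ^ s.card) (e := e * s.card) (by rw [hr, ← pow_mul]) hp hv
    h1 h2 (by
      intro g
      have h4 := h g
      rw [XS_eq hr0 hne, ord_q hr0] at h4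
      have h5 : ord v ((r ^ s.card : ℕ) : L) = s.card * ord v (r : L) := by
        push_cast
        rw [ord_pow v (by exact_mod_cast hr0.ne')]
      rw [map_natCast, h5]
      have h6 : 2 * ord v (g s.prod) = 2 * (s.card * ord v (r : L)) := by linarith
      omega)
  refine ⟨N, hN, ?_⟩
  rw [h3]
  push_cast
  rw [← pow_mul]

theorem bal_iff (hr : r = p ^ e) (hp : p.Prime) (hv : (p : 𝓞 L) ∈ v.asIdeal) {s : Multiset L}
    (hs : ∀ a ∈ s, IsWeil r a) : Bal r s ↔ ∀ g, XS r v s g = 0 := by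
  have hr0 : 0 < r := by rw [hr]; exact pow_pos hp.pos e
  exact ⟨fun h => h.XS_eq_zero hr0 (fun a ha => (hs a ha).ne_zero hr0), bal_of_XS hr hp hv hs⟩

theorem ss_iff (hr : r = p ^ e) (hp : p.Prime) (hv : (p : 𝓞 L) ∈ v.asIdeal) {a : L}
    (ha : IsWeil r a) : IsSS r a ↔ X r v a = 0 := by
  rw [← bal_singleton, bal_iff hr hp hv (by simpa using ha)]
  simp only [XS_singleton]
  exact ⟨fun h => funext h, fun h g => by rw [h]; rfl⟩

theorem pow_eq_of_X (hr : r = p ^ e) (hp : p.Prime) (hv : (p : 𝓞 L) ∈ v.asIdeal) {a b : L}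
    (ha : IsWeil r a) (hb : IsWeil r b) (h : X r v a = X r v b) : ∃ N : ℕ, 0 < N ∧ a ^ N = b ^ N := by
  apply root_of_ord hr hp hv ha hb
  intro g
  have := congrFun h g
  unfold X at this
  omega

end kron

end Pool.Agent.Lib.MP81632f.Mk
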